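import Pool.Agent.Lib.MP_d439b2_co.PW.Spec

/-!
# MP_d439b2_co, PW/Add: adding `m` vertices to a layout (helper47)
-/

set_option autoImplicit false

namespace Pool.Agent.MPd439b2.PW

open Pool.Agent.MPd439b2
open Pool.Agent.MPd439b2.BU
open Pool.Agent.MPd439b2.HC

namespace AddAux

variable {V : Type}

/-- the number of subsets of a small set -/
theorem powerset_encard [Finite V] {Z : Set V} {m : ℕ} (h : Z.ncard ≤ m) :
    (𝒫 Z).encard ≤ ((2 ^ m : ℕ) : ℕ∞) := by
  rw [← (Set.toFinite (𝒫 Z)).cast_ncard_eq, Set.ncard_powerset]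
  exact_mod_cast Nat.pow_le_pow_right (by norm_num) h

/-- the rows of a set which does not meet `Z` -/
theorem first [Finite V] {G : SimpleGraph V} {X Z A : Set V} {k m : ℕ} (hZ : Z ⊆ X)
    (hm : Z.ncard ≤ m) (hA : A ⊆ X \ Z) (h : (Rw G (X \ Z) A).encard ≤ k) :
    (Rw G X A).encard ≤ ((k * 2 ^ m : ℕ) : ℕ∞) := by
  have h1 : Rw G X A ⊆ (fun p : Set V × Set V => p.1 ∪ p.2) '' (Rw G (X \ Z) A ×ˢ 𝒫 Z) := by
    rintro T ⟨a, ha, rfl⟩
    refine ⟨((G.neighborSet a ∩ (X \ Z)) \ A, G.neighborSet a ∩ Z), ⟨⟨a, ha, rfl⟩,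
      Set.inter_subset_right⟩, ?_⟩
    ext z
    constructor
    · rintro (⟨⟨h1, h2, -⟩, h3⟩ | ⟨h1, h2⟩)
      · exact ⟨⟨h1, h2⟩, h3⟩
      · exact ⟨⟨h1, hZ h2⟩, fun h3 => (hA h3).2 h2⟩
    · rintro ⟨⟨h1, h2⟩, h3⟩
      by_cases hz : z ∈ Z
      · exact Or.inr ⟨h1, hz⟩
      · exact Or.inl ⟨⟨h1, h2, hz⟩, h3⟩
  refine (Set.encard_le_encard h1).trans ((Set.encard_image_le _ _).trans ?_)
  rw [Set.encard_prod]
  push_cast
  have h2 := powerset_encard (V := V) hm
  push_cast at h2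
  exact mul_le_mul' h h2

/-- the rows of a set which contains `X \ Z` -/
theorem second [Finite V] {G : SimpleGraph V} {X Z A : Set V} {k m : ℕ} (hk : 1 ≤ k)
    (hm : Z.ncard ≤ m) (hA : X \ Z ⊆ A) : (Rw G X A).encard ≤ ((k * 2 ^ m : ℕ) : ℕ∞) := by
  have h1 : Rw G X A ⊆ 𝒫 Z := by
    rintro T ⟨a, -, rfl⟩ z ⟨⟨-, h2⟩, h3⟩
    by_contra hz
    exact h3 (hA ⟨h2, hz⟩)
  refine (Set.encard_le_encard h1).trans ((powerset_encard hm).trans ?_)
  exact_mod_cast Nat.le_mul_of_pos_left _ hk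

end AddAux

open AddAux in
/-- **Add**: adding `m` vertices to a layout -/
theorem pwAdd : S_Add := by
  classical
  intro V _ G X Z k m hk hZ hm h
  have h1 : LT (fun A => (Rw G X A).encard ≤ ((k * 2 ^ m : ℕ) : ℕ∞)) (X \ Z) :=
    LT.mono' h fun B hB hr => first hZ hm hB hr
  have h2 : ∀ S : Finset V, (S : Set V) ⊆ Z →
      LT (fun A => (Rw G X A).encard ≤ ((k * 2 ^ m : ℕ) : ℕ∞)) ((X \ Z) ∪ S) := by
    intro S
    induction S using Finset.induction_on with
    | empty => intro _; simpa using h1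
    | @insert a s ha ih =>
      intro hs
      rw [Finset.coe_insert, Set.insert_subset_iff] at hs
      have h3 : (X \ Z) ∪ ((insert a s : Finset V) : Set V) = insert a ((X \ Z) ∪ (s : Set V)) := by
        rw [Finset.coe_insert, Set.union_insert]
      rw [h3]
      refine LT.insert (ih hs.2) ?_ (second hk hm ?_)
      · rintro (h4 | h4)
        · exact h4.2 hs.1
        · exact ha (Finset.mem_coe.1 h4)
      · exact Set.subset_union_left.trans (Set.subset_insert _ _)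
  have h3 := h2 (Set.toFinite Z).toFinset (by simp)
  rw [Set.Finite.coe_toFinset, Set.sdiff_union_of_subset hZ] at h3
  exact h3

end Pool.Agent.MPd439b2.PW
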