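import Pool.Agent.Lib.MP_d439b2_co.PW.Spec
import Pool.Agent.Lib.MP_d439b2_co.FK.Spec
import Pool.Agent.Lib.MP_d439b2_co.W.Defs

/-!
# MP_d439b2_co, PW: from the patterns to induced minors
-/

set_option autoImplicit false

namespace Pool.Agent.MPd439b2.PW

open Pool.Agent.MPd439b2
open Pool.Agent.MPd439b2.BU
open Pool.Agent.MPd439b2.HC

/-- `P_3 + t P_2`: the path `0 2 1` and `t` edges -/
def PT (t : ℕ) : SimpleGraph (Fin 3 ⊕ (Fin t × Bool)) where
  Adj
    | Sum.inl a, Sum.inl b => a ≠ b ∧ (a = 2 ∨ b = 2)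
    | Sum.inl _, Sum.inr _ => False
    | Sum.inr _, Sum.inl _ => False
    | Sum.inr u, Sum.inr v => u.1 = v.1 ∧ u.2 ≠ v.2
  symm := ⟨fun u v h => by
    rcases u with u | u <;> rcases v with v | v
    · exact ⟨h.1.symm, h.2.symm⟩
    · exact h
    · exact h
    · exact ⟨h.1.symm, h.2.symm⟩⟩
  loopless := ⟨fun u h => by
    rcases u with u | u
    · exact h.1 rfl
    · exact h.2 rfl⟩

namespace CorAux

variable {V : Type} {G : SimpleGraph V} {X : Set V}

/-- an embedding is a model -/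
theorem ims_of_emb {W : Type} {H : SimpleGraph W} (f : W → V) (hX : ∀ w, f w ∈ X)
    (hf : ∀ u v, u ≠ v → f u ≠ f v) (h : ∀ u v, u ≠ v → (H.Adj u v ↔ G.Adj (f u) (f v))) :
    IMS H G X := by
  refine ⟨fun w => {f w}, fun w => ?_, fun w => Conn.singleton G (f w), ?_, ?_⟩
  · rintro _ rfl
    exact hX w
  · intro w w' hw
    rw [Set.disjoint_singleton]
    exact hf w w' hw
  · intro w w' hw
    rw [h w w' hw]
    constructor
    · intro h'
      exact ⟨f w, rfl, f w', rfl, h'⟩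
    · rintro ⟨a, ha, b, hb, hab⟩
      rw [Set.mem_singleton_iff] at ha hb
      rw [← ha, ← hb]
      exact hab

/-- the pattern with `s + t` pairs contains `K_s` joined with the complement of `P_3 + t P_2` -/
theorem patJ_ims {s t : ℕ} (h : PatJ G X (s + t)) : IMS (W.KCo s (PT t)) G X := by
  obtain ⟨p, q, r, x, y, hp, hq, hr, hxy, hpq, hrp, hrq, nrp, nrq, h1, h2⟩ := h
  have lt1 : ∀ i : Fin s, t + i.val < s + t := fun i => by have := i.isLt; omega
  have lt2 : ∀ i : Fin t, i.val < s + t := fun i => by have := i.isLt; omega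
  let f : Fin s ⊕ (Fin 3 ⊕ (Fin t × Bool)) → V := fun w => match w with
    | Sum.inl i => x (t + i.val)
    | Sum.inr (Sum.inl a) => if a = 0 then p else if a = 1 then q else r
    | Sum.inr (Sum.inr u) => if u.2 = true then y u.1.val else x u.1.val
  have f0 : ∀ i, f (Sum.inl i) = x (t + i.val) := fun _ => rfl
  have f1 : ∀ a, f (Sum.inr (Sum.inl a)) = if a = 0 then p else if a = 1 then q else r :=
    fun _ => rfl
  have f2 : ∀ u, f (Sum.inr (Sum.inr u)) = if u.2 = true then y u.1.val else x u.1.val :=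
    fun _ => rfl
  -- the three special vertices are complete to the pairs
  have c1 : ∀ (a : Fin 3) (i : ℕ), i < s + t →
      G.Adj (if a = 0 then p else if a = 1 then q else r) (x i) ∧
        G.Adj (if a = 0 then p else if a = 1 then q else r) (y i) := by
    intro a i hi
    obtain ⟨-, -, a1, a2, a3, a4, a5, a6⟩ := h1 i hi
    fin_cases a
    · exact ⟨a1, a2⟩
    · exact ⟨a3, a4⟩
    · exact ⟨a5, a6⟩
  have key : ∀ u v, u ≠ v → ((W.KCo s (PT t)).Adj u v ↔ G.Adj (f u) (f v)) ∧ f u ≠ f v := by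
    have sym : ∀ u v, (((W.KCo s (PT t)).Adj u v ↔ G.Adj (f u) (f v)) ∧ f u ≠ f v) →
        (((W.KCo s (PT t)).Adj v u ↔ G.Adj (f v) (f u)) ∧ f v ≠ f u) := by
      intro u v h
      refine ⟨?_, h.2.symm⟩
      rw [(W.KCo s (PT t)).adj_comm, G.adj_comm]
      exact h.1
    have k00 : ∀ (i j : Fin s), i ≠ j → ((W.KCo s (PT t)).Adj (Sum.inl i) (Sum.inl j) ↔
        G.Adj (f (Sum.inl i)) (f (Sum.inl j))) ∧ f (Sum.inl i) ≠ f (Sum.inl j) := by
      intro i j hij
      have hne : t + i.val ≠ t + j.val := fun h => hij (Fin.ext (by omega))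
      have ha := (h2 _ (lt1 i) _ (lt1 j) hne).1
      rw [f0, f0]
      exact ⟨iff_of_true hij ha, ha.ne⟩
    have k01 : ∀ (i : Fin s) (a : Fin 3), ((W.KCo s (PT t)).Adj (Sum.inl i) (Sum.inr (Sum.inl a)) ↔
        G.Adj (f (Sum.inl i)) (f (Sum.inr (Sum.inl a)))) ∧
        f (Sum.inl i) ≠ f (Sum.inr (Sum.inl a)) := by
      intro i a
      rw [f0, f1]
      have ha := (c1 a _ (lt1 i)).1.symm
      exact ⟨iff_of_true trivial ha, ha.ne⟩
    have k02 : ∀ (i : Fin s) (u : Fin t × Bool),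
        ((W.KCo s (PT t)).Adj (Sum.inl i) (Sum.inr (Sum.inr u)) ↔
        G.Adj (f (Sum.inl i)) (f (Sum.inr (Sum.inr u)))) ∧
        f (Sum.inl i) ≠ f (Sum.inr (Sum.inr u)) := by
      rintro i ⟨j, b⟩
      rw [f0, f2]
      have hne : t + i.val ≠ j.val := by have := j.isLt; omega
      have ha := h2 _ (lt1 i) _ (lt2 j) hne
      cases b
      · exact ⟨iff_of_true trivial ha.1, ha.1.ne⟩
      · exact ⟨iff_of_true trivial ha.2.1, ha.2.1.ne⟩
    have k11 : ∀ (a b : Fin 3), a ≠ b →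
        ((W.KCo s (PT t)).Adj (Sum.inr (Sum.inl a)) (Sum.inr (Sum.inl b)) ↔
        G.Adj (f (Sum.inr (Sum.inl a))) (f (Sum.inr (Sum.inl b)))) ∧
        f (Sum.inr (Sum.inl a)) ≠ f (Sum.inr (Sum.inl b)) := by
      intro a b hab
      have e : ∀ a b : Fin 3, (W.KCo s (PT t)).Adj (Sum.inr (Sum.inl a)) (Sum.inr (Sum.inl b)) ↔
          (Sum.inl a : Fin 3 ⊕ (Fin t × Bool)) ≠ Sum.inl b ∧ ¬ (a ≠ b ∧ (a = 2 ∨ b = 2)) :=
        fun _ _ => Iff.rfl
      rw [f1, f1, e]
      have hne : (Sum.inl a : Fin 3 ⊕ (Fin t × Bool)) ≠ Sum.inl b := fun h => hab (Sum.inl.inj h)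
      fin_cases a <;> fin_cases b
      · exact absurd rfl hab
      · exact ⟨iff_of_true ⟨hne, by decide⟩ hpq, hpq.ne⟩
      · exact ⟨iff_of_false (fun h => h.2 (by decide)) (fun h => nrp h.symm), hrp.symm⟩
      · exact ⟨iff_of_true ⟨hne, by decide⟩ hpq.symm, hpq.ne.symm⟩
      · exact absurd rfl hab
      · exact ⟨iff_of_false (fun h => h.2 (by decide)) (fun h => nrq h.symm), hrq.symm⟩
      · exact ⟨iff_of_false (fun h => h.2 (by decide)) nrp, hrp⟩
      · exact ⟨iff_of_false (fun h => h.2 (by decide)) nrq, hrq⟩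
      · exact absurd rfl hab
    have k12 : ∀ (a : Fin 3) (u : Fin t × Bool),
        ((W.KCo s (PT t)).Adj (Sum.inr (Sum.inl a)) (Sum.inr (Sum.inr u)) ↔
        G.Adj (f (Sum.inr (Sum.inl a))) (f (Sum.inr (Sum.inr u)))) ∧
        f (Sum.inr (Sum.inl a)) ≠ f (Sum.inr (Sum.inr u)) := by
      rintro a ⟨j, b⟩
      rw [f1, f2]
      have ha := c1 a _ (lt2 j)
      have hK : (W.KCo s (PT t)).Adj (Sum.inr (Sum.inl a)) (Sum.inr (Sum.inr (j, b))) :=
        ⟨by simp, fun h => h⟩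
      cases b
      · exact ⟨iff_of_true hK ha.1, ha.1.ne⟩
      · exact ⟨iff_of_true hK ha.2, ha.2.ne⟩
    have k22 : ∀ (u v : Fin t × Bool), u ≠ v →
        ((W.KCo s (PT t)).Adj (Sum.inr (Sum.inr u)) (Sum.inr (Sum.inr v)) ↔
        G.Adj (f (Sum.inr (Sum.inr u))) (f (Sum.inr (Sum.inr v)))) ∧
        f (Sum.inr (Sum.inr u)) ≠ f (Sum.inr (Sum.inr v)) := by
      rintro ⟨i, b⟩ ⟨j, c⟩ huv
      rw [f2, f2]
      have hne : (Sum.inr (i, b) : Fin 3 ⊕ (Fin t × Bool)) ≠ Sum.inr (j, c) :=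
        fun h => huv (Sum.inr.inj h)
      by_cases hij : i = j
      · subst hij
        have hbc : b ≠ c := fun h => huv (by rw [h])
        have hK : ¬ (W.KCo s (PT t)).Adj (Sum.inr (Sum.inr (i, b))) (Sum.inr (Sum.inr (i, c))) :=
          fun h => h.2 ⟨rfl, hbc⟩
        obtain ⟨a1, a2, -⟩ := h1 _ (lt2 i)
        cases b <;> cases c
        · exact absurd rfl hbc
        · exact ⟨iff_of_false hK a2, a1⟩
        · exact ⟨iff_of_false hK (fun h => a2 h.symm), a1.symm⟩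
        · exact absurd rfl hbc
      · have hK : (W.KCo s (PT t)).Adj (Sum.inr (Sum.inr (i, b))) (Sum.inr (Sum.inr (j, c))) :=
          ⟨hne, fun h => hij h.1⟩
        have hv : i.val ≠ j.val := fun h => hij (Fin.ext h)
        have h3 := h2 _ (lt2 i) _ (lt2 j) hv
        have h4 := h2 _ (lt2 j) _ (lt2 i) hv.symm
        cases b <;> cases c
        · exact ⟨iff_of_true hK h3.1, h3.1.ne⟩
        · exact ⟨iff_of_true hK h3.2.1, h3.2.1.ne⟩
        · exact ⟨iff_of_true hK h4.2.1.symm, h4.2.1.ne.symm⟩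
        · exact ⟨iff_of_true hK h3.2.2, h3.2.2.ne⟩
    rintro (i | (a | u)) (j | (b | v)) huv
    · exact k00 i j fun h => huv (by rw [h])
    · exact k01 i b
    · exact k02 i v
    · exact sym _ _ (k01 j a)
    · exact k11 a b fun h => huv (by rw [h])
    · exact k12 a v
    · exact sym _ _ (k02 j u)
    · exact sym _ _ (k12 b u)
    · exact k22 u v fun h => huv (by rw [h])
  refine ims_of_emb f ?_ (fun u v h => (key u v h).2) (fun u v h => (key u v h).1)
  rintro (i | (a | u))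
  · exact (hxy _ (lt1 i)).1
  · rw [f1]
    fin_cases a
    · exact hp
    · exact hq
    · exact hr
  · obtain ⟨j, b⟩ := u
    rw [f2]
    cases b
    · exact (hxy _ (lt2 j)).1
    · exact (hxy _ (lt2 j)).2

/-- the model of the paw with an isolated vertex from five sets -/
theorem model {A P Q R Y Z : Set V} (sP : P ⊆ A) (sQ : Q ⊆ A) (sR : R ⊆ A) (sY : Y ⊆ A)
    (sZ : Z ⊆ A) (cP : Conn G P) (cQ : Conn G Q)
    (cR : Conn G R) (cY : Conn G Y) (cZ : Conn G Z)
    (dPQ : Disjoint P Q) (dPR : Disjoint P R) (dQR : Disjoint Q R)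
    (dPY : Disjoint P Y) (dQY : Disjoint Q Y) (dRY : Disjoint R Y)
    (dPZ : Disjoint P Z) (dQZ : Disjoint Q Z) (dRZ : Disjoint R Z)
    (dYZ : Disjoint Y Z)
    (tPQ : Tch G P Q) (tPR : Tch G P R) (tQR : Tch G Q R)
    (tPY : Tch G P Y) (tQY : ¬ Tch G Q Y) (tRY : ¬ Tch G R Y)
    (tPZ : ¬ Tch G P Z) (tQZ : ¬ Tch G Q Z) (tRZ : ¬ Tch G R Z)
    (tYZ : ¬ Tch G Y Z) :
    IMS (KA 3 2 ![{0}, ∅]) G A := by
  have hd : ∀ i j : Fin 3, i ≠ j → Disjoint ((![P, Q, R] : Fin 3 → Set V) i)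
      ((![P, Q, R] : Fin 3 → Set V) j) := by
    intro i j hij
    fin_cases i <;> fin_cases j <;> first
      | exact absurd rfl hij
      | assumption
      | (apply Disjoint.symm; assumption)
  have ht : ∀ i j : Fin 3, i ≠ j → Tch G ((![P, Q, R] : Fin 3 → Set V) i)
      ((![P, Q, R] : Fin 3 → Set V) j) := by
    intro i j hij
    fin_cases i <;> fin_cases j <;> first
      | exact absurd rfl hij
      | assumption
      | (apply Tch.symm; assumption)
  have hd' : ∀ (i : Fin 3) (j : Fin 2), Disjoint ((![P, Q, R] : Fin 3 → Set V) i)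
      ((![Y, Z] : Fin 2 → Set V) j) := by
    intro i j
    fin_cases i <;> fin_cases j <;> assumption
  have ht' : ∀ (i : Fin 3) (j : Fin 2), i ∈ (![{0}, ∅] : Fin 2 → Set (Fin 3)) j ↔
      Tch G ((![P, Q, R] : Fin 3 → Set V) i) ((![Y, Z] : Fin 2 → Set V) j) := by
    intro i j
    fin_cases i <;> fin_cases j <;> simp <;> assumption
  have hdd : ∀ i j : Fin 2, i ≠ j → Disjoint ((![Y, Z] : Fin 2 → Set V) i)
      ((![Y, Z] : Fin 2 → Set V) j) := by
    intro i j hij
    fin_cases i <;> fin_cases j <;> first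
      | exact absurd rfl hij
      | assumption
      | (apply Disjoint.symm; assumption)
  have htt : ∀ i j : Fin 2, i ≠ j → ¬ Tch G ((![Y, Z] : Fin 2 → Set V) i)
      ((![Y, Z] : Fin 2 → Set V) j) := by
    intro i j hij
    fin_cases i <;> fin_cases j <;> first
      | exact absurd rfl hij
      | assumption
      | (intro h; exact tYZ h.symm)
  refine ⟨Sum.elim ![P, Q, R] ![Y, Z], ?_, ?_, ?_, ?_⟩
  · rintro (w | w) <;> fin_cases w <;> assumption
  · rintro (w | w) <;> fin_cases w <;> assumption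
  · rintro (w | w) (w' | w') hw
    · exact hd w w' fun h => hw (congrArg _ h)
    · exact hd' w w'
    · exact (hd' w' w).symm
    · exact hdd w w' fun h => hw (congrArg _ h)
  · rintro (w | w) (w' | w') hw
    · have h : w ≠ w' := fun h => hw (congrArg _ h)
      exact iff_of_true h (ht w w' h)
    · exact ht' w w'
    · exact (ht' w' w).trans tch_comm
    · have h : w ≠ w' := fun h => hw (congrArg _ h)
      exact iff_of_false (fun h => h) (htt w w' h)

/-- no induced minor `paw + P_1` -/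
theorem pf_of {X : Set V} (h : ¬ IMS (KA 3 2 ![{0}, ∅]) G X) : PF G X := by
  intro S hS
  have t : ∀ i j, i < 5 → j < i → rP i j = true → Tch G (S i) (S j) := fun i j hi hj hr =>
    (hS.tch i hi j hj).2 hr
  have n : ∀ i j, i < 5 → j < i → rP i j = false → ¬ Tch G (S i) (S j) := fun i j hi hj hr ht => by
    have := (hS.tch i hi j hj).1 ht
    rw [hr] at this
    exact absurd this (by decide)
  have d : ∀ i j, i < 5 → j < i → Disjoint (S i) (S j) := fun i j hi hj => hS.dis i hi j hj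
  refine h (model (P := S 0) (Q := S 1) (R := S 2) (Y := S 3) (Z := S 4)
    (hS.sub 0 (by omega)) (hS.sub 1 (by omega)) (hS.sub 2 (by omega)) (hS.sub 3 (by omega))
    (hS.sub 4 (by omega)) (hS.conn 0 (by omega)) (hS.conn 1 (by omega)) (hS.conn 2 (by omega))
    (hS.conn 3 (by omega)) (hS.conn 4 (by omega))
    (d 1 0 (by omega) (by omega)).symm (d 2 0 (by omega) (by omega)).symm
    (d 2 1 (by omega) (by omega)).symm
    (d 3 0 (by omega) (by omega)).symm (d 3 1 (by omega) (by omega)).symm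
    (d 3 2 (by omega) (by omega)).symm
    (d 4 0 (by omega) (by omega)).symm (d 4 1 (by omega) (by omega)).symm
    (d 4 2 (by omega) (by omega)).symm (d 4 3 (by omega) (by omega)).symm
    (t 1 0 (by omega) (by omega) (by decide)).symm
    (t 2 0 (by omega) (by omega) (by decide)).symm
    (t 2 1 (by omega) (by omega) (by decide)).symm
    (t 3 0 (by omega) (by omega) (by decide)).symm
    (fun h => n 3 1 (by omega) (by omega) (by decide) h.symm)
    (fun h => n 3 2 (by omega) (by omega) (by decide) h.symm)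
    (fun h => n 4 0 (by omega) (by omega) (by decide) h.symm)
    (fun h => n 4 1 (by omega) (by omega) (by decide) h.symm)
    (fun h => n 4 2 (by omega) (by omega) (by decide) h.symm)
    (fun h => n 4 3 (by omega) (by omega) (by decide) h.symm))

/-- no `K_2 + 2 K_1` -/
theorem not_ims_of_noK {Y : Set V} (h : NoK G Y) : ¬ IMS (KA 2 2 ![∅, ∅]) G Y := by
  rintro ⟨B, hs, hc, hd, ht⟩
  have h01 : (Sum.inl 0 : Fin 2 ⊕ Fin 2) ≠ Sum.inl 1 := by decide
  have hr : (Sum.inr 0 : Fin 2 ⊕ Fin 2) ≠ Sum.inr 1 := by decide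
  have hlr : ∀ i j : Fin 2, (Sum.inl i : Fin 2 ⊕ Fin 2) ≠ Sum.inr j := fun i j h => by simp at h
  obtain ⟨a, ha, b, hb, hab⟩ := (ht _ _ h01).1 (show (0 : Fin 2) ≠ 1 by decide)
  obtain ⟨x, hx⟩ := (hc (Sum.inr 0)).1
  obtain ⟨y, hy⟩ := (hc (Sum.inr 1)).1
  have dj : ∀ (i j : Fin 2), ∀ u ∈ B (Sum.inl i), ∀ v ∈ B (Sum.inr j), v ≠ u := by
    intro i j u hu v hv huv
    rw [huv] at hv
    exact Set.disjoint_left.mp (hd _ _ (hlr i j)) hu hv
  have hxy : x ≠ y := by
    rintro rfl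
    exact Set.disjoint_left.mp (hd _ _ hr) hx hy
  have nxy : ¬ G.Adj x y := fun h1 => (ht _ _ hr).2 ⟨x, hx, y, hy, h1⟩
  have key : ∀ (i j : Fin 2), ∀ u ∈ B (Sum.inl i), ∀ v ∈ B (Sum.inr j), ¬ G.Adj v u := by
    intro i j u hu v hv huv
    have h1 := (ht _ _ (hlr i j)).2 ⟨u, hu, v, hv, huv.symm⟩
    have h2 : i ∈ (![∅, ∅] : Fin 2 → Set (Fin 2)) j := h1
    fin_cases j <;> exact h2
  exact key 1 1 b hb y hy (h a (hs _ ha) b (hs _ hb) x (hs _ hx) y (hs _ hy) hab hxy nxy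
    (dj _ _ a ha x hx) (dj _ _ b hb x hx) (dj _ _ a ha y hy) (dj _ _ b hb y hy)
    (key _ _ a ha x hx) (key _ _ b hb x hx) (key _ _ a ha y hy))

end CorAux

/-- **Corollary.** If `(K_2 + 2 K_1, J)` has bounded clique-width and every graph with the pattern of length `T`
contains `J`, then `(paw + P_1, J)` has bounded clique-width. -/
theorem cor (h1 : S_PW) (h2 : FK.S_T1) (h3 : KS.S_Y8) (h4 : FK.S_T2) (h5 : S_R2) (h6 : S_R3)
    (h7 : S_LayCW) (W : Type) (J : SimpleGraph W) (T : ℕ)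
    (hJ : ∀ (V : Type) (G : SimpleGraph V) (X : Set V), PatJ G X T → IMS J G X)
    (hb : BoundedCW (KA 2 2 ![∅, ∅]) J) : BoundedCW (KA 3 2 ![{0}, ∅]) J := by
  obtain ⟨k, hk⟩ := h2 h3 _ _ _ _ hb
  obtain ⟨K, hK⟩ := h1 T k
  refine h4 h5 h6 h7 _ _ _ _ ⟨K, fun V _ G X hP hF hJX => ?_⟩
  refine hK V G X (CorAux.pf_of hF) (fun h => hJX (hJ V G X h)) fun Y hY hN => ?_
  exact hk V G Y (CorAux.not_ims_of_noK hN) fun h => hJX (h.mono hY)

/-- **Corollary.** For all `s`, `t`: if `(K_2 + 2 K_1, K_s ∨ co(P_3 + t P_2))` has bounded clique-width then so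
has `(paw + P_1, K_s ∨ co(P_3 + t P_2))`. -/
theorem corKCo (h1 : S_PW) (h2 : FK.S_T1) (h3 : KS.S_Y8) (h4 : FK.S_T2) (h5 : S_R2) (h6 : S_R3)
    (h7 : S_LayCW) (s t : ℕ) (hb : BoundedCW (KA 2 2 ![∅, ∅]) (W.KCo s (PT t))) :
    BoundedCW (KA 3 2 ![{0}, ∅]) (W.KCo s (PT t)) :=
  cor h1 h2 h3 h4 h5 h6 h7 _ _ (s + t) (fun _ _ _ h => CorAux.patJ_ims h) hb

end Pool.Agent.MPd439b2.PW
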