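import Pool.Agent.Lib.MP_d439b2_co.HC.EngC

/-!
# MP_d439b2_co, PW: the base graph `paw + P_1`, definitions (helper90, note 2702)

**Theorem.** Let `T` and `k` be given.  There is `K` such that: if `G[X]` does not contain `paw + P_1` as an
induced minor, does not contain the pattern `PatJ` of length `T` (a complete join of `K_2 + K_1` and `T`
copies of `2 K_1`), and all subsets `Y` of `X` without induced `K_2 + 2 K_1` have layouts of width `k`, then
`X` has a layout of width `K`.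

`G` is a graph, `X` a set of vertices; everything is relative to the induced subgraph `G[X]`.
`x ~ y` means `G.Adj x y`.
-/

set_option autoImplicit false

namespace Pool.Agent.MPd439b2.PW

open Pool.Agent.MPd439b2
open Pool.Agent.MPd439b2.BU
open Pool.Agent.MPd439b2.HC

variable {V : Type}

/-- the paw `0 1 2 3` (the triangle `0 1 2`, `3 - 0`), and the isolated vertex `4` -/
def rP : ℕ → ℕ → Bool := rel [(1, 0), (2, 0), (2, 1), (3, 0)]

/-- `paw + P_1` is not an induced minor of `G[X]` -/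
def PF (G : SimpleGraph V) (X : Set V) : Prop := SPF G X 5 rP

/-- the paw is not an induced minor of `G[K]` -/
def QF (G : SimpleGraph V) (K : Set V) : Prop := SPF G K 4 rP

/-- the vertex `w` misses the set `K` -/
def Ms (G : SimpleGraph V) (w : V) (K : Set V) : Prop := ∀ x ∈ K, x ≠ w ∧ ¬ G.Adj w x

/-- `G[K]` is complete multipartite: non-adjacency is transitive -/
def CMp (G : SimpleGraph V) (K : Set V) : Prop :=
  ∀ a ∈ K, ∀ b ∈ K, ∀ c ∈ K, ¬ G.Adj a b → ¬ G.Adj b c → ¬ G.Adj a c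

/-- there is no triangle in `G[K]` -/
def NoT (G : SimpleGraph V) (K : Set V) : Prop :=
  ∀ a ∈ K, ∀ b ∈ K, ∀ c ∈ K, G.Adj a b → G.Adj a c → ¬ G.Adj b c

/-- the vertices of a cycle or path -/
def Vs (n : ℕ) (p : ℕ → V) : Set V := {x | ∃ i < n, x = p i}

/-- there is no induced `K_2 + 2 K_1` in `G[Y]` -/
def NoK (G : SimpleGraph V) (Y : Set V) : Prop :=
  ∀ a ∈ Y, ∀ b ∈ Y, ∀ c ∈ Y, ∀ d ∈ Y, G.Adj a b → c ≠ d → ¬ G.Adj c d →
    c ≠ a → c ≠ b → d ≠ a → d ≠ b → ¬ G.Adj c a → ¬ G.Adj c b → ¬ G.Adj d a → G.Adj d b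

/-- there is no induced `P_4 + P_1` in `G[Y]` -/
def NoG (G : SimpleGraph V) (Y : Set V) : Prop :=
  ∀ q, IP G Y 4 q → ∀ w ∈ Y, ¬ Ms G w (Vs 4 q)

/-- a complete join of `K_2 + K_1` (the edge `p q` and the vertex `r`) and of `T` pairs `x i`, `y i` of
non-adjacent vertices -/
def PatJ (G : SimpleGraph V) (X : Set V) (T : ℕ) : Prop :=
  ∃ (p q r : V) (x y : ℕ → V), p ∈ X ∧ q ∈ X ∧ r ∈ X ∧ (∀ i < T, x i ∈ X ∧ y i ∈ X) ∧
    G.Adj p q ∧ r ≠ p ∧ r ≠ q ∧ ¬ G.Adj r p ∧ ¬ G.Adj r q ∧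
    (∀ i < T, x i ≠ y i ∧ ¬ G.Adj (x i) (y i) ∧ G.Adj p (x i) ∧ G.Adj p (y i) ∧ G.Adj q (x i) ∧
      G.Adj q (y i) ∧ G.Adj r (x i) ∧ G.Adj r (y i)) ∧
    ∀ i < T, ∀ j < T, i ≠ j → G.Adj (x i) (x j) ∧ G.Adj (x i) (y j) ∧ G.Adj (y i) (y j)

/-- `n` pairwise non-touching induced `P_4`'s -/
structure NT (G : SimpleGraph V) (X : Set V) (n : ℕ) (Q : ℕ → ℕ → V) : Prop where
  ip : ∀ i < n, IP G X 4 (Q i)
  ne : ∀ i < n, ∀ k < n, i ≠ k → ∀ j < 4, ∀ l < 4, Q i j ≠ Q k l ∧ ¬ G.Adj (Q i j) (Q k l)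

/-- all vertices of the paths -/
def Vn (n : ℕ) (Q : ℕ → ℕ → V) : Set V := {x | ∃ i < n, ∃ j < 4, x = Q i j}

/-- `z` is complete to all the paths -/
def Fl (G : SimpleGraph V) (n : ℕ) (Q : ℕ → ℕ → V) (z : V) : Prop :=
  ∀ i < n, ∀ j < 4, G.Adj z (Q i j)

/-- `z` is thin: it has at most one neighbour in every path -/
def Th (G : SimpleGraph V) (n : ℕ) (Q : ℕ → ℕ → V) (z : V) : Prop :=
  ∀ i < n, ∀ j < 4, ∀ l < 4, G.Adj z (Q i j) → G.Adj z (Q i l) → j = l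

/-! ### homogeneous sequences of `P_4 + P_1` -/

/-- adjacency inside a block: `1 2 3 4` is a path, `0` is isolated -/
def ins : ℕ → ℕ → Bool := rel [(2, 1), (3, 2), (4, 3)]

/-- `N` disjoint induced `P_4 + P_1`'s (the vertex `B i 0`, the path `B i 1, ..., B i 4`) -/
structure Blk (G : SimpleGraph V) (X : Set V) (N : ℕ) (B : ℕ → ℕ → V) : Prop where
  mem : ∀ i < N, ∀ a < 5, B i a ∈ X
  inj : ∀ i < N, ∀ a < 5, ∀ j < N, ∀ b < 5, B i a = B j b → i = j ∧ a = b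
  adj : ∀ i < N, ∀ a < 5, ∀ b < 5, (G.Adj (B i a) (B i b) ↔ ins a b = true)

/-- homogeneous: the adjacency of `B i a` and `B j b` for `i < j` is `R a b` -/
structure Hom (G : SimpleGraph V) (X : Set V) (N : ℕ) (B : ℕ → ℕ → V) (R : ℕ → ℕ → Bool) : Prop
    extends Blk G X N B where
  out : ∀ i < N, ∀ j < N, i < j → ∀ a < 5, ∀ b < 5, (G.Adj (B i a) (B j b) ↔ R a b = true)

end Pool.Agent.MPd439b2.PW
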