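import Pool.Agent.Lib.MP_d439b2_co.PW.Spec

/-!
# MP_d439b2_co, PW, Dia: prime graphs without `P_4 + P_1` and `paw + P_1`
-/

set_option autoImplicit false

namespace Pool.Agent.MPd439b2.PW

open Pool.Agent.MPd439b2
open Pool.Agent.MPd439b2.BU
open Pool.Agent.MPd439b2.HC

namespace DiaAux

variable {V : Type}

/-- an induced path with four vertices (automatically distinct) -/
theorem ip4 {G : SimpleGraph V} {X : Set V} {a b c d : V} (ha : a ∈ X) (hb : b ∈ X) (hc : c ∈ X)
    (hd : d ∈ X) (ab : G.Adj a b) (bc : G.Adj b c) (cd : G.Adj c d)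
    (ac : ¬ G.Adj a c) (ad : ¬ G.Adj a d) (bd : ¬ G.Adj b d) :
    ∃ q : ℕ → V, IP G X 4 q ∧ q 0 = a ∧ q 1 = b ∧ q 2 = c ∧ q 3 = d := by
  have h1 : a ≠ c := fun h => ad (h ▸ cd)
  have h2 : a ≠ d := fun h => ac (h ▸ cd).symm
  have h4 : b ≠ d := fun h => ad (h ▸ ab)
  refine ⟨fun i => if i = 0 then a else if i = 1 then b else if i = 2 then c else d,
    ⟨?_, ?_, ?_⟩, rfl, rfl, rfl, rfl⟩
  · intro i hi
    interval_cases i <;> simpa
  · intro i hi j hj h
    interval_cases i <;> interval_cases j <;> first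
      | rfl
      | (exfalso
         simp only [OfNat.ofNat_ne_zero, OfNat.ofNat_ne_one, if_true, if_false, one_ne_zero,
           Nat.reduceEqDiff, zero_ne_one] at h
         first
           | exact ab.ne h | exact ab.ne h.symm | exact bc.ne h | exact bc.ne h.symm
           | exact cd.ne h | exact cd.ne h.symm
           | exact h1 h | exact h1 h.symm | exact h2 h | exact h2 h.symm
           | exact h4 h | exact h4 h.symm)
  · intro i hi j hj
    interval_cases i <;> interval_cases j <;>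
      simp [ab, ab.symm, bc, bc.symm, cd, cd.symm, ac, ad, bd,
        G.adj_comm c a, G.adj_comm d a, G.adj_comm d b]

/-- no `P_4 + P_1` in vertices -/
theorem nog {G : SimpleGraph V} {Y : Set V} (hG : NoG G Y) {a b c d y : V} (ha : a ∈ Y) (hb : b ∈ Y)
    (hc : c ∈ Y) (hd : d ∈ Y) (hy : y ∈ Y) (ab : G.Adj a b) (bc : G.Adj b c) (cd : G.Adj c d)
    (ac : ¬ G.Adj a c) (ad : ¬ G.Adj a d) (bd : ¬ G.Adj b d) (e0 : y ≠ a) (e1 : y ≠ b) (e2 : y ≠ c)
    (e3 : y ≠ d) (ya : ¬ G.Adj y a) (yb : ¬ G.Adj y b) (yc : ¬ G.Adj y c) (yd : ¬ G.Adj y d) :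
    False := by
  obtain ⟨q, hq, q0, q1, q2, q3⟩ := ip4 ha hb hc hd ab bc cd ac ad bd
  apply hG q hq y hy
  rintro x ⟨i, hi, rfl⟩
  interval_cases i
  · rw [q0]; exact ⟨e0.symm, ya⟩
  · rw [q1]; exact ⟨e1.symm, yb⟩
  · rw [q2]; exact ⟨e2.symm, yc⟩
  · rw [q3]; exact ⟨e3.symm, yd⟩

/-- no `paw + P_1` in vertices: the triangle `a b c`, `d - a`, and the isolated vertex `y` -/
theorem nop {G : SimpleGraph V} {Y : Set V} (hP : PF G Y) {a b c d y : V} (ha : a ∈ Y) (hb : b ∈ Y)
    (hc : c ∈ Y) (hd : d ∈ Y) (hy : y ∈ Y) (ab : G.Adj b a) (ac : G.Adj c a) (bc : G.Adj c b)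
    (da : G.Adj d a) (db : ¬ G.Adj d b) (dc : ¬ G.Adj d c) (e0 : y ≠ a) (e1 : y ≠ b) (e2 : y ≠ c)
    (e3 : y ≠ d) (ya : ¬ G.Adj y a) (yb : ¬ G.Adj y b) (yc : ¬ G.Adj y c) (yd : ¬ G.Adj y d) :
    False := by
  have h1 : d ≠ b := fun h => dc (h ▸ bc.symm)
  have h2 : d ≠ c := fun h => db (h ▸ bc)
  let v : ℕ → V := fun i => if i = 0 then a else if i = 1 then b else if i = 2 then c else
    if i = 3 then d else y
  have v0 : v 0 = a := rfl
  have v1 : v 1 = b := rfl
  have v2 : v 2 = c := rfl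
  have v3 : v 3 = d := rfl
  have v4 : v 4 = y := rfl
  refine hP (fun i => {v i}) ⟨?_, fun i _ => Conn.singleton G _, ?_, ?_⟩
  · intro i hi
    rw [Set.singleton_subset_iff]
    interval_cases i
    · exact ha
    · exact hb
    · exact hc
    · exact hd
    · exact hy
  · intro i hi j hj
    rw [Set.disjoint_singleton]
    interval_cases i <;> interval_cases j
    · exact ab.ne
    · exact ac.ne
    · exact bc.ne
    · exact da.ne
    · exact h1
    · exact h2
    · exact e0
    · exact e1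
    · exact e2
    · exact e3
  · intro i hi j hj
    rw [tch_single]
    interval_cases i <;> interval_cases j
    · exact iff_of_true ab (by decide)
    · exact iff_of_true ac (by decide)
    · exact iff_of_true bc (by decide)
    · exact iff_of_true da (by decide)
    · exact iff_of_false db (by decide)
    · exact iff_of_false dc (by decide)
    · exact iff_of_false ya (by decide)
    · exact iff_of_false yb (by decide)
    · exact iff_of_false yc (by decide)
    · exact iff_of_false yd (by decide)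

/-- the pairs `(A, M)` -/
structure Pr (G : SimpleGraph V) (Y A M : Set V) : Prop where
  aY : A ⊆ Y
  mY : M ⊆ Y
  conn : Conn G A
  two : ¬ A.Subsingleton
  ne : M.Nonempty
  nc : ¬ Conn G M
  dis : ∀ x ∈ A, x ∉ M
  no : ∀ x ∈ A, ∀ y ∈ M, ¬ G.Adj x y

theorem claim [Finite V] {G : SimpleGraph V} {Y A M : Set V} (hP : PF G Y) (hG : NoG G Y)
    (h : Pr G Y A M)
    (hmax : ∀ A' M', Pr G Y A' M' → A ∪ M ⊆ A' ∪ M' → A' ∪ M' ⊆ A ∪ M) :
    ∀ z ∈ Y, z ∉ A → z ∉ M → ∀ m ∈ M, G.Adj z m := by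
  intro z hz hzA hzM m hm
  by_contra hzm
  -- the component of `m`
  obtain ⟨C, hCM, hmC, hCc, hCn⟩ := exists_comp G hm
  have hne : C ≠ M := fun h' => h.nc (h' ▸ hCc)
  have hCno : ∀ c ∈ C, ∀ y ∈ M, y ∉ C → ¬ G.Adj c y := fun c hc y hy hyC hcy =>
    hCn y hy ⟨hyC, c, hc, hcy⟩
  obtain ⟨n, hnM, hnC⟩ : ∃ n ∈ M, n ∉ C := by
    by_contra h'
    push Not at h'
    exact hne (Set.Subset.antisymm hCM h')
  by_cases hzA' : ∃ a ∈ A, G.Adj z a
  · -- the fact (*)
    have hstar : ∀ x ∈ M, ∀ y ∈ M, x ≠ y → ¬ G.Adj x y → G.Adj z x → G.Adj z y := by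
      intro x hx y hy hxy nxy hzx
      by_contra hzy
      have hyz : y ≠ z := fun h' => hzM (h' ▸ hy)
      by_cases hmix : ∃ b ∈ A, ¬ G.Adj z b
      · obtain ⟨a, ha, b, hb, hza, hzb, hab⟩ := mixed_conn h.conn hzA' hmix
        exact nog hG (h.mY hx) hz (h.aY ha) (h.aY hb) (h.mY hy) hzx.symm hza hab
          (fun h' => h.no a ha x hx h'.symm) (fun h' => h.no b hb x hx h'.symm) hzb
          hxy.symm hyz (fun h' => h.dis a ha (h' ▸ hy)) (fun h' => h.dis b hb (h' ▸ hy))
          (fun h' => nxy h'.symm) (fun h' => hzy h'.symm) (fun h' => h.no a ha y hy h'.symm)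
          (fun h' => h.no b hb y hy h'.symm)
      · push Not at hmix
        obtain ⟨a, ha⟩ := h.conn.1
        have hsub : ({a} : Set V) ≠ A := fun h' => h.two (h' ▸ Set.subsingleton_singleton)
        obtain ⟨a', ha', b, hb, hab⟩ := h.conn.2 {a} (Set.singleton_subset_iff.mpr ha) ⟨a, rfl⟩ hsub
        rw [Set.mem_singleton_iff] at ha'
        subst ha'
        exact nop hP hz (h.aY ha) (h.aY hb.1) (h.mY hx) (h.mY hy) (hmix _ ha).symm
          (hmix _ hb.1).symm hab.symm hzx.symm (fun h' => h.no _ ha x hx h'.symm)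
          (fun h' => h.no _ hb.1 x hx h'.symm) hyz (fun h' => h.dis _ ha (h' ▸ hy))
          (fun h' => h.dis _ hb.1 (h' ▸ hy)) hxy.symm (fun h' => hzy h'.symm)
          (fun h' => h.no _ ha y hy h'.symm) (fun h' => h.no _ hb.1 y hy h'.symm)
          (fun h' => nxy h'.symm)
    have hzN : ∀ x ∈ M, x ∉ C → ¬ G.Adj z x := fun x hx hxC hzx =>
      hzm (hstar x hx m hm (fun h' => hxC (h' ▸ hmC)) (fun h' => hCno m hmC x hx hxC h'.symm) hzx)
    have hzC : ∀ x ∈ C, ¬ G.Adj z x := fun x hx hzx =>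
      hzN n hnM hnC (hstar x (hCM hx) n hnM (fun h' => hnC (h' ▸ hx)) (hCno x hx n hnM hnC) hzx)
    have hz0 : ∀ x ∈ M, ¬ G.Adj z x := fun x hx => by
      by_cases hxC : x ∈ C
      · exact hzC x hxC
      · exact hzN x hx hxC
    have hpr : Pr G Y (insert z A) M := by
      refine ⟨Set.insert_subset hz h.aY, h.mY, h.conn.insert ?_, ?_, h.ne, h.nc, ?_, ?_⟩
      · obtain ⟨a, ha, hza⟩ := hzA'
        exact ⟨a, ha, hza.symm⟩
      · exact fun h' => h.two (h'.anti (Set.subset_insert _ _))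
      · rintro x (rfl | hx)
        · exact hzM
        · exact h.dis x hx
      · rintro x (rfl | hx)
        · exact hz0
        · exact h.no x hx
    have h1 := hmax _ _ hpr (Set.union_subset_union_left _ (Set.subset_insert _ _))
      (show z ∈ insert z A ∪ M from Or.inl (Set.mem_insert _ _))
    rcases h1 with h1 | h1
    · exact hzA h1
    · exact hzM h1
  · push Not at hzA'
    have hc' : Conn G (insert z M) := by
      by_contra hnc
      have hpr : Pr G Y A (insert z M) := by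
        refine ⟨h.aY, Set.insert_subset hz h.mY, h.conn, h.two, ⟨z, Set.mem_insert _ _⟩, hnc,
          ?_, ?_⟩
        · rintro x hx (rfl | hxM)
          · exact hzA hx
          · exact h.dis x hx hxM
        · rintro x hx y (rfl | hy) hxy
          · exact hzA' x hx hxy.symm
          · exact h.no x hx y hy hxy
      have h1 := hmax _ _ hpr (Set.union_subset_union_right _ (Set.subset_insert _ _))
        (show z ∈ A ∪ insert z M from Or.inr (Set.mem_insert _ _))
      rcases h1 with h1 | h1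
      · exact hzA h1
      · exact hzM h1
    obtain ⟨y, hy, hzy⟩ : ∃ y, (y ∈ M ∧ y ∉ C) ∧ G.Adj z y := by
      obtain ⟨b, hb, a, ha, hba⟩ := hc'.2 {y | y ∈ M ∧ y ∉ C} (fun y hy => Or.inr hy.1)
        ⟨n, hnM, hnC⟩ (fun h' => by
          have h1 : z ∈ {y | y ∈ M ∧ y ∉ C} := by rw [h']; exact Set.mem_insert _ _
          exact hzM h1.1)
      refine ⟨b, hb, ?_⟩
      rcases ha.1 with rfl | haM
      · exact hba.symm
      · exfalso
        have haC : a ∈ C := by
          by_contra haC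
          exact ha.2 ⟨haM, haC⟩
        exact hCno a haC b hb.1 hb.2 hba.symm
    obtain ⟨c, hc, hzc⟩ : ∃ c ∈ C, G.Adj z c := by
      obtain ⟨b, hb, a, ha, hba⟩ := hc'.2 C (fun y hy => Or.inr (hCM hy))
        ⟨m, hmC⟩ (fun h' => by
          have h1 : z ∈ C := by rw [h']; exact Set.mem_insert _ _
          exact hzM (hCM h1))
      refine ⟨b, hb, ?_⟩
      rcases ha.1 with rfl | haM
      · exact hba.symm
      · exact absurd hba (hCno b hb a haM ha.2)
    obtain ⟨b', hb', b, hb, hzb', hzb, hbb⟩ := mixed_conn hCc ⟨c, hc, hzc⟩ ⟨m, hmC, hzm⟩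
    obtain ⟨a, ha⟩ := h.conn.1
    exact nog hG (h.mY hy.1) hz (h.mY (hCM hb')) (h.mY (hCM hb)) (h.aY ha) hzy.symm hzb' hbb
      (fun h' => hCno b' hb' y hy.1 hy.2 h'.symm) (fun h' => hCno b hb y hy.1 hy.2 h'.symm) hzb
      (fun h' => h.dis a ha (h' ▸ hy.1)) (fun h' => hzA (h' ▸ ha))
      (fun h' => h.dis a ha (h' ▸ hCM hb')) (fun h' => h.dis a ha (h' ▸ hCM hb))
      (h.no a ha y hy.1) (fun h' => hzA' a ha h'.symm) (h.no a ha b' (hCM hb'))
      (h.no a ha b (hCM hb))

end DiaAux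

open DiaAux in
theorem pwDia : S_Dia := by
  classical
  intro V _ G Y hprm hP hG a ha b hb c hc d hd hab hcd ncd hca hcb hda hdb nca ncb nda
  by_contra ndb
  have hfin : {S : Set V | ∃ A M, Pr G Y A M ∧ S = A ∪ M}.Finite := Set.toFinite _
  have h0 : Pr G Y {a, b} {c, d} := by
    refine ⟨?_, ?_, Conn.pair hab, ?_, ⟨c, Or.inl rfl⟩, ?_, ?_, ?_⟩
    · rintro x (rfl | rfl)
      · exact ha
      · exact hb
    · rintro x (rfl | rfl)
      · exact hc
      · exact hd
    · intro h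
      exact hab.ne (h (Or.inl rfl) (Or.inr rfl))
    · intro h
      obtain ⟨x, hx, y, hy, hxy⟩ := h.2 {c} (Set.singleton_subset_iff.mpr (Or.inl rfl)) ⟨c, rfl⟩
        (fun h' => hcd (by
          have h1 : d ∈ ({c} : Set V) := by rw [h']; exact Or.inr rfl
          exact h1.symm))
      rw [Set.mem_singleton_iff] at hx
      subst hx
      rcases hy.1 with h1 | h1
      · exact hy.2 h1
      · rw [Set.mem_singleton_iff] at h1
        subst h1
        exact ncd hxy
    · rintro x (rfl | rfl) (h | h)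
      · exact hca h.symm
      · exact hda h.symm
      · exact hcb h.symm
      · exact hdb h.symm
    · rintro x (rfl | rfl) y (rfl | rfl) h
      · exact nca h.symm
      · exact nda h.symm
      · exact ncb h.symm
      · exact ndb h.symm
  obtain ⟨S, hS⟩ := hfin.exists_maximal ⟨_, _, _, h0, rfl⟩
  obtain ⟨A, M, hAM, rfl⟩ := hS.1
  have hcl := claim hP hG hAM (fun A' M' h' hsub => hS.2 ⟨A', M', h', rfl⟩ hsub)
  have hmod : Mod G Y M := by
    refine ⟨hAM.mY, fun y hy hyM p hp q hq hyp => ?_⟩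
    by_cases hyA : y ∈ A
    · exact absurd hyp (hAM.no y hyA p hp)
    · exact hcl y hy hyA hyM q hq
  rcases hprm M hmod with h | h
  · obtain ⟨m, hm⟩ := hAM.ne
    apply hAM.nc
    have h1 : M = {m} := Set.Subset.antisymm (fun x hx => h hx hm) (Set.singleton_subset_iff.mpr hm)
    rw [h1]
    exact Conn.singleton G m
  · obtain ⟨x, hx⟩ := hAM.conn.1
    exact hAM.dis x hx (h ▸ hAM.aY hx)

end Pool.Agent.MPd439b2.PW
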