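import Pool.Agent.Lib.MP_d439b2_co.PW.Spec

/-!
# MP_d439b2_co, PW: many disjoint `P_4 + P_1`'s or a small hitting set
-/

set_option autoImplicit false

namespace Pool.Agent.MPd439b2.PW

open Pool.Agent.MPd439b2
open Pool.Agent.MPd439b2.BU
open Pool.Agent.MPd439b2.HC

namespace FamAux

variable {V : Type}

theorem insI : ∀ a < 5, ∀ b < 5, (ins a b = true ↔ 1 ≤ a ∧ 1 ≤ b ∧ (a = b + 1 ∨ b = a + 1)) := by
  decide

/-- the vertices of the blocks -/
def Z (M : ℕ) (B : ℕ → ℕ → V) : Set V := {x | ∃ i < M, ∃ a < 5, x = B i a}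

theorem Z_card (M : ℕ) (B : ℕ → ℕ → V) : (Z M B).ncard ≤ 5 * M := by
  classical
  have h1 : Z M B = ((Finset.range M ×ˢ Finset.range 5).image fun p : ℕ × ℕ => B p.1 p.2 : Finset V) := by
    ext x
    simp only [Z, Set.mem_ofPred_eq, Finset.coe_image, Finset.coe_product, Finset.coe_range, Set.mem_image,
      Set.mem_prod, Set.mem_Iio, Prod.exists]
    constructor
    · rintro ⟨i, hi, a, ha, rfl⟩
      exact ⟨i, a, ⟨hi, ha⟩, rfl⟩
    · rintro ⟨i, a, ⟨hi, ha⟩, rfl⟩
      exact ⟨i, hi, a, ha, rfl⟩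
  rw [h1, Set.ncard_coe_finset]
  refine Finset.card_image_le.trans ?_
  rw [Finset.card_product, Finset.card_range, Finset.card_range]
  omega

/-- the new block -/
def nb (w : V) (q : ℕ → V) : ℕ → V
  | 0 => w
  | a + 1 => q a

/-- add a block -/
def add (M : ℕ) (B : ℕ → ℕ → V) (w : V) (q : ℕ → V) (i : ℕ) : ℕ → V :=
  if i < M then B i else nb w q

theorem add_lt {M : ℕ} {B : ℕ → ℕ → V} {w : V} {q : ℕ → V} {i : ℕ} (h : i < M) :
    add M B w q i = B i := if_pos h

theorem add_ge {M : ℕ} {B : ℕ → ℕ → V} {w : V} {q : ℕ → V} {i : ℕ} (h : ¬ i < M) :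
    add M B w q i = nb w q := if_neg h

theorem step {G : SimpleGraph V} {X : Set V} {M : ℕ} {B : ℕ → ℕ → V} (hB : Blk G X M B) {w : V}
    {q : ℕ → V} (hq : IP G (X \ Z M B) 4 q) (hw : w ∈ X \ Z M B) (hm : Ms G w (Vs 4 q)) :
    Blk G X (M + 1) (add M B w q) := by
  have hnbX : ∀ a < 5, nb w q a ∈ X \ Z M B := by
    rintro (_ | a) ha
    · exact hw
    · exact hq.1 a (by omega)
  have hnbinj : ∀ a < 5, ∀ b < 5, nb w q a = nb w q b → a = b := by
    rintro (_ | a) ha (_ | b) hb h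
    · rfl
    · exact absurd h.symm (hm (q b) ⟨b, by omega, rfl⟩).1
    · exact absurd h (hm (q a) ⟨a, by omega, rfl⟩).1
    · have := hq.2.1 a (by omega) b (by omega) h
      omega
  have hnbadj : ∀ a < 5, ∀ b < 5, (G.Adj (nb w q a) (nb w q b) ↔ ins a b = true) := by
    intro a ha b hb
    rw [insI a ha b hb]
    rcases a with (_ | a)
    · rcases b with (_ | b)
      · exact ⟨fun h => absurd h (G.loopless.irrefl _), fun h => by omega⟩
      · exact ⟨fun h => absurd h (hm (q b) ⟨b, by omega, rfl⟩).2, fun h => by omega⟩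
    · rcases b with (_ | b)
      · exact ⟨fun h => absurd h.symm (hm (q a) ⟨a, by omega, rfl⟩).2, fun h => by omega⟩
      · show G.Adj (q a) (q b) ↔ _
        rw [hq.2.2 a (by omega) b (by omega)]
        omega
  refine ⟨?_, ?_, ?_⟩
  · intro i hi a ha
    by_cases h : i < M
    · rw [add_lt h]; exact hB.mem i h a ha
    · rw [add_ge h]; exact (hnbX a ha).1
  · intro i hi a ha j hj b hb hab
    by_cases h : i < M <;> by_cases h' : j < M
    · rw [add_lt h, add_lt h'] at hab
      exact hB.inj i h a ha j h' b hb hab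
    · rw [add_lt h, add_ge h'] at hab
      exact absurd ⟨i, h, a, ha, hab.symm⟩ (hnbX b hb).2
    · rw [add_ge h, add_lt h'] at hab
      exact absurd ⟨j, h', b, hb, hab⟩ (hnbX a ha).2
    · rw [add_ge h, add_ge h'] at hab
      exact ⟨by omega, hnbinj a ha b hb hab⟩
  · intro i hi a ha b hb
    by_cases h : i < M
    · rw [add_lt h]; exact hB.adj i h a ha b hb
    · rw [add_ge h]; exact hnbadj a ha b hb

end FamAux

theorem pwFam : S_Fam := by
  intro V _ G X M
  induction M with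
  | zero =>
    by_cases hV : Nonempty V
    · obtain ⟨v⟩ := hV
      exact Or.inl ⟨fun _ _ => v, ⟨fun i hi => absurd hi (Nat.not_lt_zero i),
        fun i hi => absurd hi (Nat.not_lt_zero i), fun i hi => absurd hi (Nat.not_lt_zero i)⟩⟩
    · refine Or.inr ⟨∅, Set.empty_subset _, by simp, fun q hq => ?_⟩
      exact absurd ⟨q 0⟩ hV
  | succ M ih =>
    rcases ih with ⟨B, hB⟩ | ⟨Z, hZX, hZc, hZ⟩
    · by_cases hN : NoG G (X \ FamAux.Z M B)
      · refine Or.inr ⟨FamAux.Z M B, ?_, (FamAux.Z_card M B).trans (by omega), hN⟩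
        rintro x ⟨i, hi, a, ha, rfl⟩
        exact hB.mem i hi a ha
      · unfold NoG at hN
        push Not at hN
        obtain ⟨q, hq, w, hw, hm⟩ := hN
        exact Or.inl ⟨_, FamAux.step hB hq hw hm⟩
    · exact Or.inr ⟨Z, hZX, hZc.trans (by omega), hZ⟩

end Pool.Agent.MPd439b2.PW
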