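import Pool.Agent.Lib.MP_d439b2_co.PW.Spec

/-!
# MP_d439b2_co, PW: homogeneous subsequences (helper18)
-/

set_option autoImplicit false

namespace Pool.Agent.MPd439b2.PW

open Pool.Agent.MPd439b2
open Pool.Agent.MPd439b2.BU
open Pool.Agent.MPd439b2.HC

theorem pwHm (h1 : W.S_RamC) : S_Hm := by
  classical
  intro N
  obtain ⟨M, hM⟩ := h1 (Fin 5 → Fin 5 → Bool) N
  refine ⟨M, fun V G X B hB => ?_⟩
  obtain ⟨s, c, hs, hsM, hc⟩ := hM (fun i j a b => decide (G.Adj (B i a) (B j b)))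
  have hinj : ∀ i < N, ∀ j < N, s i = s j → i = j := by
    intro i hi j hj hij
    rcases lt_trichotomy i j with h | h | h
    · have := hs i j h hj
      omega
    · exact h
    · have := hs j i h hi
      omega
  refine ⟨fun i => B (s i), fun a b => if h : a < 5 ∧ b < 5 then c ⟨a, h.1⟩ ⟨b, h.2⟩ else false,
    ⟨⟨?_, ?_, ?_⟩, ?_⟩⟩
  · intro i hi a ha
    exact hB.mem _ (hsM i hi) a ha
  · intro i hi a ha j hj b hb h
    obtain ⟨h2, h3⟩ := hB.inj _ (hsM i hi) a ha _ (hsM j hj) b hb h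
    exact ⟨hinj i hi j hj h2, h3⟩
  · intro i hi a ha b hb
    exact hB.adj _ (hsM i hi) a ha b hb
  · intro i hi j hj hij a ha b hb
    have h2 := congrFun (congrFun (hc i j hij hj) ⟨a, ha⟩) ⟨b, hb⟩
    rw [dif_pos ⟨ha, hb⟩, ← h2]
    simp

end Pool.Agent.MPd439b2.PW
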