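import Pool.Agent.Lib.MP_d439b2_co.PW.Spec

/-!
# MP_d439b2_co, PW, Hole: a connected paw-free graph with a long induced cycle is this cycle
-/

set_option autoImplicit false

namespace Pool.Agent.MPd439b2.PW

open Pool.Agent.MPd439b2
open Pool.Agent.MPd439b2.BU
open Pool.Agent.MPd439b2.HC

namespace HoleAux

/-- four sets form a paw -/
theorem paw {V : Type} {G : SimpleGraph V} {K A B C D : Set V} (hK : QF G K) (hA : A ⊆ K) (hB : B ⊆ K)
    (hC : C ⊆ K) (hD : D ⊆ K) (cA : Conn G A) (cB : Conn G B) (cC : Conn G C) (cD : Conn G D)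
    (dBA : Disjoint B A) (dCA : Disjoint C A) (dCB : Disjoint C B) (dDA : Disjoint D A)
    (dDB : Disjoint D B) (dDC : Disjoint D C) (tBA : Tch G B A) (tCA : Tch G C A) (tCB : Tch G C B)
    (tDA : Tch G D A) (nDB : ¬ Tch G D B) (nDC : ¬ Tch G D C) : False := by
  refine hK (fun i => if i = 0 then A else if i = 1 then B else if i = 2 then C else D) ⟨?_, ?_, ?_, ?_⟩
  · intro i hi
    interval_cases i <;> simpa
  · intro i hi
    interval_cases i <;> simpa
  · intro i hi j hj
    interval_cases i <;> interval_cases j <;> simpa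
  · intro i hi j hj
    interval_cases i <;> interval_cases j
    · exact iff_of_true tBA (by decide)
    · exact iff_of_true tCA (by decide)
    · exact iff_of_true tCB (by decide)
    · exact iff_of_true tDA (by decide)
    · exact iff_of_false nDB (by decide)
    · exact iff_of_false nDC (by decide)

/-- the part `p j, ..., p l` -/
def seg {V : Type} (p : ℕ → V) (j l : ℕ) : Set V := {x | ∃ i, j ≤ i ∧ i ≤ l ∧ x = p i}

theorem seg_sub {V : Type} {G : SimpleGraph V} {K : Set V} {n : ℕ} {p : ℕ → V} (hp : IC G K n p)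
    {j l : ℕ} (hl : l < n) : seg p j l ⊆ K := by
  rintro _ ⟨i, _, hi2, rfl⟩
  exact hp.1 i (by omega)

theorem seg_conn {V : Type} {G : SimpleGraph V} {K : Set V} {n : ℕ} {p : ℕ → V} (hp : IC G K n p)
    {j l : ℕ} (hjl : j ≤ l) (hl : l < n) : Conn G (seg p j l) := by
  induction l with
  | zero =>
    have : seg p j 0 = {p 0} := by
      ext x
      constructor
      · rintro ⟨i, _, hi, rfl⟩
        have : i = 0 := by omega
        rw [this]
        rfl
      · intro h
        exact ⟨0, hjl, le_rfl, h⟩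
    rw [this]
    exact Conn.singleton G _
  | succ l ih =>
    by_cases hj : j = l + 1
    · have : seg p j (l + 1) = {p (l + 1)} := by
        ext x
        constructor
        · rintro ⟨i, hi1, hi, rfl⟩
          have : i = l + 1 := by omega
          rw [this]
          rfl
        · intro h
          exact ⟨l + 1, hjl, le_rfl, h⟩
      rw [this]
      exact Conn.singleton G _
    · have h1 := ih (by omega) (by omega)
      have h2 : seg p j (l + 1) = insert (p (l + 1)) (seg p j l) := by
        ext x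
        constructor
        · rintro ⟨i, hi1, hi, rfl⟩
          by_cases h : i = l + 1
          · exact Or.inl (by rw [h])
          · exact Or.inr ⟨i, hi1, by omega, rfl⟩
        · rintro (h | ⟨i, hi1, hi, rfl⟩)
          · exact ⟨l + 1, hjl, le_rfl, h⟩
          · exact ⟨i, hi1, by omega, rfl⟩
      rw [h2]
      refine h1.insert ⟨p l, ⟨l, by omega, le_rfl, rfl⟩, ?_⟩
      rw [hp.2.2 l (by omega) (l + 1) hl]
      exact Or.inl rfl

/-- a vertex outside which is adjacent to `p 0` and not to `p 1` -/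
theorem main {V : Type} {G : SimpleGraph V} {K : Set V} {n : ℕ} {p : ℕ → V} (hQ : QF G K)
    (hp : IC G K n p) (hn : 5 ≤ n) {z : V} (hz : z ∈ K) (hzp : ∀ i < n, z ≠ p i) (h0 : G.Adj z (p 0))
    (h1 : ¬ G.Adj z (p 1)) : False := by
  have hs : ∀ {x y : V}, G.Adj x y → G.Adj y x := fun h => h.symm
  have hne : ∀ i < n, ∀ j < n, i ≠ j → p i ≠ p j := fun i hi j hj hij h => hij (hp.2.1 i hi j hj h)
  have ss : ∀ i < n, ({p i} : Set V) ⊆ K := fun i hi => Set.singleton_subset_iff.2 (hp.1 i hi)
  have sz : ({z} : Set V) ⊆ K := Set.singleton_subset_iff.2 hz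
  have a01 : G.Adj (p 0) (p 1) := by rw [hp.2.2 0 (by omega) 1 (by omega)]; omega
  have a12 : G.Adj (p 1) (p 2) := by rw [hp.2.2 1 (by omega) 2 (by omega)]; omega
  have a23 : G.Adj (p 2) (p 3) := by rw [hp.2.2 2 (by omega) 3 (by omega)]; omega
  have a34 : G.Adj (p 3) (p 4) := by rw [hp.2.2 3 (by omega) 4 (by omega)]; omega
  have a02 : ¬ G.Adj (p 0) (p 2) := by rw [hp.2.2 0 (by omega) 2 (by omega)]; omega
  have aend : G.Adj (p (n - 1)) (p 0) := by rw [hp.2.2 (n - 1) (by omega) 0 (by omega)]; omega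
  have n1 : ∀ i < n, 3 ≤ i → ¬ G.Adj (p 1) (p i) := by
    intro i hi h3
    rw [hp.2.2 1 (by omega) i hi]
    omega
  have dseg : ∀ i < n, ∀ j, i < j → Disjoint (seg p j (n - 1)) {p i} := by
    intro i hi j hij
    rw [Set.disjoint_singleton_right]
    rintro ⟨k, hk1, hk2, hk⟩
    exact hne i hi k (by omega) (by omega) hk
  have dzseg : ∀ j, Disjoint {z} (seg p j (n - 1)) := by
    intro j
    rw [Set.disjoint_singleton_left]
    rintro ⟨k, _, hk2, hk⟩
    exact hzp k (by omega) hk
  by_cases h2 : G.Adj z (p 2)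
  · have cA : Conn G ({p 2, z, p 0} : Set V) := (Conn.pair h0).insert ⟨z, Or.inl rfl, h2⟩
    refine paw hQ (A := {p 2, z, p 0}) (B := {p 3}) (C := seg p 4 (n - 1)) (D := {p 1})
      (Set.insert_subset (hp.1 2 (by omega)) (Set.insert_subset hz (ss 0 (by omega)))) (ss 3 (by omega))
      (seg_sub hp (by omega)) (ss 1 (by omega)) cA (Conn.singleton G _)
      (seg_conn hp (by omega) (by omega)) (Conn.singleton G _) ?_ ?_ (dseg 3 (by omega) 4 (by omega)) ?_
      (Set.disjoint_singleton.2 (hne 1 (by omega) 3 (by omega) (by omega)))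
      (dseg 1 (by omega) 4 (by omega)).symm ⟨p 3, rfl, p 2, Or.inl rfl, hs a23⟩
      ⟨p (n - 1), ⟨n - 1, by omega, le_rfl, rfl⟩, p 0, Or.inr (Or.inr rfl), aend⟩
      ⟨p 4, ⟨4, le_rfl, by omega, rfl⟩, p 3, rfl, hs a34⟩
      ⟨p 1, rfl, p 0, Or.inr (Or.inr rfl), hs a01⟩ (fun h => n1 3 (by omega) le_rfl (tch_single.1 h)) ?_
    · rw [Set.disjoint_singleton_left]
      rintro (h | h | h)
      · exact hne 3 (by omega) 2 (by omega) (by omega) h
      · exact hzp 3 (by omega) h.symm
      · exact hne 3 (by omega) 0 (by omega) (by omega) h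
    · rw [Set.disjoint_left]
      rintro _ ⟨k, hk1, hk2, rfl⟩ (h | h | h)
      · exact hne k (by omega) 2 (by omega) (by omega) h
      · exact hzp k (by omega) h.symm
      · exact hne k (by omega) 0 (by omega) (by omega) h
    · rw [Set.disjoint_singleton_left]
      rintro (h | h | h)
      · exact hne 1 (by omega) 2 (by omega) (by omega) h
      · exact hzp 1 (by omega) h.symm
      · exact hne 1 (by omega) 0 (by omega) (by omega) h
    · rw [tch_single_left]
      rintro ⟨_, ⟨k, hk1, hk2, rfl⟩, h⟩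
      exact n1 k (by omega) (by omega) h
  · by_cases h3 : ∃ j, 3 ≤ j ∧ j < n ∧ G.Adj z (p j)
    · obtain ⟨j, hj3, hjn, hzj⟩ := h3
      refine paw hQ (A := {p 0}) (B := {z}) (C := seg p j (n - 1)) (D := {p 1}) (ss 0 (by omega)) sz
        (seg_sub hp (by omega)) (ss 1 (by omega)) (Conn.singleton G _) (Conn.singleton G _)
        (seg_conn hp (by omega) (by omega)) (Conn.singleton G _)
        (Set.disjoint_singleton.2 (hzp 0 (by omega))) (dseg 0 (by omega) j (by omega)) (dzseg j).symm
        (Set.disjoint_singleton.2 (hne 1 (by omega) 0 (by omega) (by omega)))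
        (Set.disjoint_singleton.2 (hzp 1 (by omega)).symm) (dseg 1 (by omega) j (by omega)).symm
        (tch_single.2 h0) ⟨p (n - 1), ⟨n - 1, by omega, le_rfl, rfl⟩, p 0, rfl, aend⟩
        ⟨p j, ⟨j, le_rfl, by omega, rfl⟩, z, rfl, hs hzj⟩ (tch_single.2 (hs a01))
        (fun h => h1 (hs (tch_single.1 h))) ?_
      rw [tch_single_left]
      rintro ⟨_, ⟨k, hk1, hk2, rfl⟩, h⟩
      exact n1 k (by omega) (by omega) h
    · refine paw hQ (A := {p 0}) (B := {p 1}) (C := seg p 2 (n - 1)) (D := {z}) (ss 0 (by omega))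
        (ss 1 (by omega)) (seg_sub hp (by omega)) sz (Conn.singleton G _) (Conn.singleton G _)
        (seg_conn hp (by omega) (by omega)) (Conn.singleton G _)
        (Set.disjoint_singleton.2 (hne 1 (by omega) 0 (by omega) (by omega)))
        (dseg 0 (by omega) 2 (by omega)) (dseg 1 (by omega) 2 (by omega))
        (Set.disjoint_singleton.2 (hzp 0 (by omega))) (Set.disjoint_singleton.2 (hzp 1 (by omega)))
        (dzseg 2) (tch_single.2 (hs a01))
        ⟨p (n - 1), ⟨n - 1, by omega, le_rfl, rfl⟩, p 0, rfl, aend⟩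
        ⟨p 2, ⟨2, le_rfl, by omega, rfl⟩, p 1, rfl, hs a12⟩ (tch_single.2 h0)
        (fun h => h1 (tch_single.1 h)) ?_
      rw [tch_single_left]
      rintro ⟨_, ⟨k, hk1, hk2, rfl⟩, h⟩
      by_cases hk : k = 2
      · rw [hk] at h
        exact h2 h
      · exact h3 ⟨k, by omega, by omega, h⟩

end HoleAux

theorem pwHole (h1 : S_B5) : S_Hole := by
  intro V _ G K n p hc hQ hp hn
  by_contra hcon
  have hsub : Vs n p ⊆ K := by
    rintro _ ⟨i, hi, rfl⟩
    exact hp.1 i hi
  obtain ⟨b, ⟨i₀, hi₀, rfl⟩, z, ⟨hzK, hzV⟩, hbz⟩ := hc.2 (Vs n p) hsub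
    ⟨p 0, 0, by omega, rfl⟩ (Ne.symm hcon)
  have hzp : ∀ i < n, z ≠ p i := fun i hi h => hzV ⟨i, hi, h⟩
  have hz0 : G.Adj z (p i₀) := hbz.symm
  by_cases hstep : ∀ i < n, G.Adj z (p i) → G.Adj z (p ((i + 1) % n))
  · -- `z` is complete to the cycle
    have hall : ∀ s, G.Adj z (p ((i₀ + s) % n)) := by
      intro s
      induction s with
      | zero =>
        rw [add_zero, Nat.mod_eq_of_lt hi₀]
        exact hz0
      | succ s ih =>
        have h2 := hstep _ (Nat.mod_lt _ (by omega)) ih
        rw [Nat.mod_add_mod] at h2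
        exact h2
    have hall' : ∀ j < n, G.Adj z (p j) := by
      intro j hj
      have h2 := hall (j + n - i₀)
      rw [show i₀ + (j + n - i₀) = j + n by omega, Nat.add_mod_right, Nat.mod_eq_of_lt hj] at h2
      exact h2
    have hne : ∀ i < n, ∀ j < n, i ≠ j → p i ≠ p j :=
      fun i hi j hj hij h => hij (hp.2.1 i hi j hj h)
    have ss : ∀ i < n, ({p i} : Set V) ⊆ K := fun i hi => Set.singleton_subset_iff.2 (hp.1 i hi)
    have a01 : G.Adj (p 1) (p 0) := by rw [hp.2.2 1 (by omega) 0 (by omega)]; omega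
    have n30 : ¬ G.Adj (p 3) (p 0) := by rw [hp.2.2 3 (by omega) 0 (by omega)]; omega
    have n31 : ¬ G.Adj (p 3) (p 1) := by rw [hp.2.2 3 (by omega) 1 (by omega)]; omega
    exact HoleAux.paw hQ (A := {z}) (B := {p 0}) (C := {p 1}) (D := {p 3})
      (Set.singleton_subset_iff.2 hzK) (ss 0 (by omega)) (ss 1 (by omega)) (ss 3 (by omega))
      (Conn.singleton G _) (Conn.singleton G _) (Conn.singleton G _) (Conn.singleton G _)
      (Set.disjoint_singleton.2 (hzp 0 (by omega)).symm)
      (Set.disjoint_singleton.2 (hzp 1 (by omega)).symm)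
      (Set.disjoint_singleton.2 (hne 1 (by omega) 0 (by omega) (by omega)))
      (Set.disjoint_singleton.2 (hzp 3 (by omega)).symm)
      (Set.disjoint_singleton.2 (hne 3 (by omega) 0 (by omega) (by omega)))
      (Set.disjoint_singleton.2 (hne 3 (by omega) 1 (by omega) (by omega)))
      (tch_single.2 (hall' 0 (by omega)).symm) (tch_single.2 (hall' 1 (by omega)).symm)
      (tch_single.2 a01) (tch_single.2 (hall' 3 (by omega)).symm) (fun h => n30 (tch_single.1 h))
      (fun h => n31 (tch_single.1 h))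
  · push Not at hstep
    obtain ⟨i, hi, hzi, hzi'⟩ := hstep
    have hp' := h1.1 V G K n i p hp hi
    refine HoleAux.main hQ hp' hn hzK (fun j hj => hzp _ (Nat.mod_lt _ (by omega))) ?_ ?_
    · simp only [zero_add]
      rw [Nat.mod_eq_of_lt hi]
      exact hzi
    · rw [add_comm 1 i]
      exact hzi'

end Pool.Agent.MPd439b2.PW
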