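import Pool.Agent.Lib.MP_d439b2_co.PW.Spec

/-!
# MP_d439b2_co, PW, L4: sets which contain an induced `P_4` and are missed by a vertex
-/

set_option autoImplicit false

namespace Pool.Agent.MPd439b2.PW

open Pool.Agent.MPd439b2
open Pool.Agent.MPd439b2.BU
open Pool.Agent.MPd439b2.HC

theorem pwL4 (h1 : S_Miss) (h2 : S_Tri) (h3 : S_Hole) (h4 : S_Sq) : S_L4 := by
  intro V _ G X K w q hPF hw hK hMs hc hq
  have hQ : QF G K := h1 V G X K w hPF hw hK hMs
  have hC : ¬ CMp G K := by
    intro h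
    have a03 : ¬ G.Adj (q 0) (q 3) := by
      rw [hq.2.2 0 (by omega) 3 (by omega)]
      omega
    have a31 : ¬ G.Adj (q 3) (q 1) := by
      rw [hq.2.2 3 (by omega) 1 (by omega)]
      omega
    have a01 : G.Adj (q 0) (q 1) := by
      rw [hq.2.2 0 (by omega) 1 (by omega)]
      omega
    exact h (q 0) (hq.1 0 (by omega)) (q 3) (hq.1 3 (by omega)) (q 1) (hq.1 1 (by omega)) a03 a31 a01
  have hT : NoT G K := by
    by_contra h
    exact hC (h2 V G K hc hQ h)
  refine ⟨hT, fun n p hn hp => ?_⟩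
  have hn5 : 5 ≤ n := by
    by_contra h
    have : n = 4 := by omega
    subst this
    exact hC (h4 V G K p hc hQ hT hp)
  exact ⟨hn5, h3 V G K n p hc hQ hp hn5⟩

end Pool.Agent.MPd439b2.PW
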