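import Pool.Agent.Lib.MP_d439b2_co.PW.Spec

/-!
# MP_d439b2_co, PW: at most one vertex misses a hole (`S_LA`)
-/

set_option autoImplicit false

namespace Pool.Agent.MPd439b2.PW

open Pool.Agent.MPd439b2
open Pool.Agent.MPd439b2.BU
open Pool.Agent.MPd439b2.HC

/-- the vertices of an induced cycle are connected -/
theorem LAAux.conn {V : Type} {G : SimpleGraph V} {X : Set V} {n : ℕ} {p : ℕ → V} (hp : IC G X n p)
    (hn : 1 ≤ n) : Conn G (Vs n p) := by
  have key : ∀ m, m + 1 ≤ n → Conn G (Vs (m + 1) p) := by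
    intro m
    induction m with
    | zero =>
      intro _
      have : Vs (0 + 1) p = {p 0} := by
        ext x
        constructor
        · rintro ⟨i, hi, rfl⟩
          have : i = 0 := by omega
          subst this
          rfl
        · intro hx
          exact ⟨0, by omega, hx⟩
      rw [this]
      exact Conn.singleton G _
    | succ m ih =>
      intro hm
      have h1 := ih (by omega)
      have : Vs (m + 1 + 1) p = insert (p (m + 1)) (Vs (m + 1) p) := by
        ext x
        constructor
        · rintro ⟨i, hi, rfl⟩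
          by_cases h : i = m + 1
          · subst h
            exact Or.inl rfl
          · exact Or.inr ⟨i, by omega, rfl⟩
        · rintro (rfl | ⟨i, hi, rfl⟩)
          · exact ⟨m + 1, by omega, rfl⟩
          · exact ⟨i, by omega, rfl⟩
      rw [this]
      exact h1.insert ⟨p m, ⟨m, by omega, rfl⟩,
        (hp.2.2 m (by omega) (m + 1) (by omega)).2 (Or.inl rfl)⟩
  have := key (n - 1) (by omega)
  rwa [Nat.sub_add_cancel hn] at this

theorem pwLA (h1 : S_Miss) (h2 : S_Hole) : S_LA := by
  intro V _ G X n p hPrm hPF hp hn x hx hMx y hy hMy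
  have hM : Mod G X {x | x ∈ X ∧ Ms G x (Vs n p)} := by
    refine ⟨fun x hx => hx.1, fun z hz hzM a ha b hb hza => ?_⟩
    by_contra hzb
    have hzV : z ∉ Vs n p := fun h => (ha.2 z h).2 hza.symm
    have hzn : ∃ v ∈ Vs n p, G.Adj v z := by
      by_contra h
      refine hzM ⟨hz, fun v hv => ⟨?_, ?_⟩⟩
      · rintro rfl
        exact hzV hv
      · intro hzv
        exact h ⟨v, hv, hzv.symm⟩
    have hc : Conn G (insert z (Vs n p)) := (LAAux.conn hp (by omega)).insert hzn
    have hbz : z ≠ b := by
      rintro rfl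
      exact hzM hb
    have hMb : Ms G b (insert z (Vs n p)) := by
      rintro v (rfl | hv)
      · exact ⟨hbz, fun h => hzb h.symm⟩
      · exact hb.2 v hv
    have hsub : insert z (Vs n p) ⊆ X := by
      rintro v (rfl | ⟨i, hi, rfl⟩)
      · exact hz
      · exact hp.1 i hi
    have hQ : QF G (insert z (Vs n p)) := h1 V G X _ b hPF hb.1 hsub hMb
    have hp' : IC G (insert z (Vs n p)) n p :=
      ⟨fun i hi => Or.inr ⟨i, hi, rfl⟩, hp.2.1, hp.2.2⟩
    have := h2 V G (insert z (Vs n p)) n p hc hQ hp' hn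
    exact hzV (this ▸ Or.inl rfl)
  rcases hPrm _ hM with h | h
  · exact h ⟨hx, hMx⟩ ⟨hy, hMy⟩
  · exfalso
    have h0 : p 0 ∈ {x | x ∈ X ∧ Ms G x (Vs n p)} := by
      rw [h]
      exact hp.1 0 (by omega)
    exact (h0.2 (p 0) ⟨0, by omega, rfl⟩).1 rfl

end Pool.Agent.MPd439b2.PW
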