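import Pool.Agent.Lib.MP_d439b2_co.PW.Spec

/-!
# MP_d439b2_co, PW: a vertex is complete to all the paths or thin
-/

set_option autoImplicit false

namespace Pool.Agent.MPd439b2.PW

open Pool.Agent.MPd439b2
open Pool.Agent.MPd439b2.BU
open Pool.Agent.MPd439b2.HC

namespace LBAux

variable {V : Type} {G : SimpleGraph V}

/-- the sequence `z, q a, q (a + 1), ...` -/
def cyc (z : V) (q : ℕ → V) (a : ℕ) : ℕ → V
  | 0 => z
  | s + 1 => q (a + s)

theorem conn_path {X : Set V} {q : ℕ → V} (h : IP G X 4 q) : Conn G (Vs 4 q) := by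
  have e : ∀ i, i + 1 < 4 → G.Adj (q i) (q (i + 1)) := fun i hi =>
    (h.2.2 i (by omega) (i + 1) hi).mpr (Or.inl rfl)
  have hE : Vs 4 q = insert (q 3) (insert (q 2) (insert (q 1) {q 0})) := by
    ext x
    constructor
    · rintro ⟨i, hi, rfl⟩
      interval_cases i
      · exact Or.inr (Or.inr (Or.inr rfl))
      · exact Or.inr (Or.inr (Or.inl rfl))
      · exact Or.inr (Or.inl rfl)
      · exact Or.inl rfl
    · rintro (rfl | rfl | rfl | rfl)
      · exact ⟨3, by norm_num, rfl⟩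
      · exact ⟨2, by norm_num, rfl⟩
      · exact ⟨1, by norm_num, rfl⟩
      · exact ⟨0, by norm_num, rfl⟩
  rw [hE]
  refine ((Conn.singleton G (q 0)).insert ⟨q 0, rfl, e 0 (by norm_num)⟩).insert
    ⟨q 1, Or.inl rfl, e 1 (by norm_num)⟩ |>.insert ⟨q 2, Or.inl rfl, e 2 (by norm_num)⟩

theorem ic5 {Y : Set V} {q : ℕ → V} {z : V} (h : IP G Y 4 q) (hz : z ∈ Y)
    (hne : ∀ i < 4, z ≠ q i) (h0 : G.Adj z (q 0)) (h1 : ¬ G.Adj z (q 1)) (h2 : ¬ G.Adj z (q 2))
    (h3 : G.Adj z (q 3)) : IC G Y 5 (cyc z q 0) := by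
  have key : ∀ j < 4, (G.Adj z (q j) ↔ j = 0 ∨ j = 3) := by
    intro j hj
    interval_cases j
    · exact ⟨fun _ => Or.inl rfl, fun _ => h0⟩
    · exact ⟨fun h => absurd h h1, fun h => by omega⟩
    · exact ⟨fun h => absurd h h2, fun h => by omega⟩
    · exact ⟨fun _ => Or.inr rfl, fun _ => h3⟩
  refine ⟨fun i hi => ?_, fun i hi j hj hij => ?_, fun i hi j hj => ?_⟩
  · rcases i with _ | i
    · exact hz
    · show q (0 + i) ∈ Y
      rw [Nat.zero_add]
      exact h.1 i (by omega)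
  · rcases i with _ | i
    · rcases j with _ | j
      · rfl
      · exfalso
        refine hne (0 + j) (by omega) hij
    · rcases j with _ | j
      · exfalso
        exact hne (0 + i) (by omega) hij.symm
      · have := h.2.1 (0 + i) (by omega) (0 + j) (by omega) hij
        omega
  · rcases i with _ | i
    · rcases j with _ | j
      · show G.Adj z z ↔ _
        exact ⟨fun h => absurd h (G.loopless.irrefl z), fun h => by omega⟩
      · show G.Adj z (q (0 + j)) ↔ _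
        rw [key (0 + j) (by omega)]
        omega
    · rcases j with _ | j
      · show G.Adj (q (0 + i)) z ↔ _
        rw [G.adj_comm, key (0 + i) (by omega)]
        omega
      · show G.Adj (q (0 + i)) (q (0 + j)) ↔ _
        rw [h.2.2 (0 + i) (by omega) (0 + j) (by omega)]
        omega

theorem ic4 {Y : Set V} {q : ℕ → V} {z : V} {a : ℕ} (h : IP G Y 4 q) (ha : a + 2 < 4) (hz : z ∈ Y)
    (hne : ∀ i < 4, z ≠ q i) (h0 : G.Adj z (q a)) (h1 : ¬ G.Adj z (q (a + 1)))
    (h2 : G.Adj z (q (a + 2))) : IC G Y 4 (cyc z q a) := by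
  have key : ∀ j < 3, (G.Adj z (q (a + j)) ↔ j = 0 ∨ j = 2) := by
    intro j hj
    interval_cases j
    · exact ⟨fun _ => Or.inl rfl, fun _ => h0⟩
    · exact ⟨fun h => absurd h h1, fun h => by omega⟩
    · exact ⟨fun _ => Or.inr rfl, fun _ => h2⟩
  refine ⟨fun i hi => ?_, fun i hi j hj hij => ?_, fun i hi j hj => ?_⟩
  · rcases i with _ | i
    · exact hz
    · exact h.1 (a + i) (by omega)
  · rcases i with _ | i
    · rcases j with _ | j
      · rfl
      · exfalso
        exact hne (a + j) (by omega) hij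
    · rcases j with _ | j
      · exfalso
        exact hne (a + i) (by omega) hij.symm
      · have := h.2.1 (a + i) (by omega) (a + j) (by omega) hij
        omega
  · rcases i with _ | i
    · rcases j with _ | j
      · show G.Adj z z ↔ _
        exact ⟨fun h => absurd h (G.loopless.irrefl z), fun h => by omega⟩
      · show G.Adj z (q (a + j)) ↔ _
        rw [key j (by omega)]
        omega
    · rcases j with _ | j
      · show G.Adj (q (a + i)) z ↔ _
        rw [G.adj_comm, key i (by omega)]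
        omega
      · show G.Adj (q (a + i)) (q (a + j)) ↔ _
        rw [h.2.2 (a + i) (by omega) (a + j) (by omega)]
        omega

theorem ip_mono {X Y : Set V} {q : ℕ → V} {n : ℕ} (h : IP G X n q) (hY : ∀ i < n, q i ∈ Y) :
    IP G Y n q := ⟨hY, h.2.1, h.2.2⟩

theorem ic_mono {X Y : Set V} {q : ℕ → V} {n : ℕ} (h : IC G X n q) (hY : X ⊆ Y) :
    IC G Y n q := ⟨fun i hi => hY (h.1 i hi), h.2.1, h.2.2⟩

/-- (1) -/
theorem one [Finite V] (h1 : S_LA) (h2 : S_L4) {X : Set V} {n : ℕ} {Q : ℕ → ℕ → V} {z : V}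
    (hP : Prm G X) (hF : PF G X) (hN : NT G X n Q) (hn : 3 ≤ n) (hz : z ∈ X) (hzV : z ∉ Vn n Q)
    {i j k : ℕ} (hi : i < n) (hj : j < 4) (hk : k < n) (hki : k ≠ i)
    (hij : ¬ G.Adj z (Q i j)) : ∀ a b, a < b → b < 4 → G.Adj z (Q k a) → G.Adj z (Q k b) →
    False := by
  intro a b hab hb hza hzb
  have hzne : ∀ k < n, ∀ l < 4, z ≠ Q k l := fun k hk l hl h => hzV ⟨k, hk, l, hl, h⟩
  have hipk := hN.ip k hk
  have hKX : insert z (Vs 4 (Q k)) ⊆ X := by
    rintro x (rfl | ⟨l, hl, rfl⟩)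
    · exact hz
    · exact hipk.1 l hl
  have hMs : Ms G (Q i j) (insert z (Vs 4 (Q k))) := by
    rintro x (rfl | ⟨l, hl, rfl⟩)
    · exact ⟨hzne i hi j hj, fun h => hij h.symm⟩
    · have := hN.ne k hk i hi hki l hl j hj
      exact ⟨this.1, fun h => this.2 h.symm⟩
  have hcon : Conn G (insert z (Vs 4 (Q k))) :=
    (conn_path hipk).insert ⟨Q k a, ⟨a, by omega, rfl⟩, hza.symm⟩
  have hipK : IP G (insert z (Vs 4 (Q k))) 4 (Q k) :=
    ip_mono hipk fun l hl => Or.inr ⟨l, hl, rfl⟩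
  obtain ⟨hT, hC⟩ := h2 V G X _ (Q i j) (Q k) hF ((hN.ip i hi).1 j hj) hKX hMs hcon hipK
  have hcons : ∀ s, s + 1 < 4 → G.Adj z (Q k s) → ¬ G.Adj z (Q k (s + 1)) := by
    intro s hs h3 h4
    exact hT z (Or.inl rfl) (Q k s) (Or.inr ⟨s, by omega, rfl⟩) (Q k (s + 1))
      (Or.inr ⟨s + 1, hs, rfl⟩) h3 h4 ((hipk.2.2 s (by omega) (s + 1) hs).mpr (Or.inl rfl))
  have hb1 : b ≠ a + 1 := by
    rintro rfl
    exact hcons a hb hza hzb
  have hb2 : b ≠ a + 2 := by
    rintro rfl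
    have h5 := hC 4 _ le_rfl (ic4 hipK hb (Or.inl rfl) (fun l hl => hzne k hk l hl) hza
      (hcons a (by omega) hza) hzb)
    omega
  have ha0 : a = 0 := by omega
  have hb3 : b = 3 := by omega
  subst ha0 hb3
  have hn1 : ¬ G.Adj z (Q k 1) := hcons 0 (by norm_num) hza
  have hn2 : ¬ G.Adj z (Q k 2) := fun h => hcons 2 (by norm_num) h hzb
  have hic : IC G (insert z (Vs 4 (Q k))) 5 (cyc z (Q k) 0) :=
    ic5 hipK (Or.inl rfl) (fun l hl => hzne k hk l hl) hza hn1 hn2 hzb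
  obtain ⟨l, hl, hli, hlk⟩ : ∃ l < n, l ≠ i ∧ l ≠ k := by
    by_cases c0 : (0 : ℕ) ≠ i ∧ (0 : ℕ) ≠ k
    · exact ⟨0, by omega, c0⟩
    · by_cases c1 : (1 : ℕ) ≠ i ∧ (1 : ℕ) ≠ k
      · exact ⟨1, by omega, c1⟩
      · exact ⟨2, by omega, by omega, by omega⟩
  have hipl := hN.ip l hl
  have hmiss : ∀ m < 4, Ms G (Q l m) (Vs 5 (cyc z (Q k) 0)) := by
    intro m hm x hx
    obtain ⟨s, hs, rfl⟩ := hx
    rcases s with _ | s
    · refine ⟨hzne l hl m hm, fun hadj => ?_⟩
      have hadj' : G.Adj (Q l m) z := hadj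
      have hK'X : insert z (Vs 4 (Q k)) ∪ Vs 4 (Q l) ⊆ X := by
        rintro x (hx | ⟨s, hs, rfl⟩)
        · exact hKX hx
        · exact hipl.1 s hs
      have hMs' : Ms G (Q i j) (insert z (Vs 4 (Q k)) ∪ Vs 4 (Q l)) := by
        rintro x (hx | ⟨s, hs, rfl⟩)
        · exact hMs x hx
        · have := hN.ne l hl i hi hli s hs j hj
          exact ⟨this.1, fun h => this.2 h.symm⟩
      have hcon' : Conn G (insert z (Vs 4 (Q k)) ∪ Vs 4 (Q l)) :=
        hcon.union (conn_path hipl) (Or.inr ⟨z, Or.inl rfl, Q l m, ⟨m, hm, rfl⟩, hadj'.symm⟩)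
      obtain ⟨_, hC'⟩ := h2 V G X _ (Q i j) (Q k) hF ((hN.ip i hi).1 j hj) hK'X hMs' hcon'
        (ip_mono hipk fun l hl => Or.inl (Or.inr ⟨l, hl, rfl⟩))
      have h6 := (hC' 5 _ (by norm_num) (ic_mono hic Set.subset_union_left)).2
      have h7 : Q l 0 ∈ Vs 5 (cyc z (Q k) 0) := by
        rw [← h6]
        exact Or.inr ⟨0, by norm_num, rfl⟩
      obtain ⟨s, hs, h8⟩ := h7
      rcases s with _ | s
      · exact hzne l hl 0 (by norm_num) h8.symm
      · exact (hN.ne l hl k hk hlk 0 (by norm_num) (0 + s) (by omega)).1 h8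
    · have := hN.ne k hk l hl (Ne.symm hlk) (0 + s) (by omega) m hm
      exact ⟨this.1, fun h => this.2 (SimpleGraph.Adj.symm h)⟩
  have h9 := h1 V G X 5 _ hP hF (ic_mono hic hKX) le_rfl (Q l 0) (hipl.1 0 (by norm_num))
    (hmiss 0 (by norm_num)) (Q l 1) (hipl.1 1 (by norm_num)) (hmiss 1 (by norm_num))
  have h10 := hipl.2.1 0 (by norm_num) 1 (by norm_num) h9
  omega

end LBAux

/-- **LB.** -/
theorem pwLB (h1 : S_LA) (h2 : S_L4) : S_LB := by
  intro V _ G X n Q z hP hF hN hn hz hzV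
  by_cases hFl : Fl G n Q z
  · exact Or.inl hFl
  · right
    unfold Fl at hFl
    push Not at hFl
    obtain ⟨i, hi, j, hj, hij⟩ := hFl
    have key : ∀ i < n, ∀ j < 4, ¬ G.Adj z (Q i j) → ∀ k < n, k ≠ i → ∀ a < 4, ∀ b < 4,
        G.Adj z (Q k a) → G.Adj z (Q k b) → a = b := by
      intro i hi j hj hij k hk hki a ha b hb hza hzb
      rcases lt_trichotomy a b with h | h | h
      · exact (LBAux.one h1 h2 hP hF hN hn hz hzV hi hj hk hki hij a b h hb hza hzb).elim
      · exact h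
      · exact (LBAux.one h1 h2 hP hF hN hn hz hzV hi hj hk hki hij b a h ha hzb hza).elim
    intro k hk a ha b hb hza hzb
    by_cases hki : k = i
    · obtain ⟨l, hl, hlk⟩ : ∃ l < n, l ≠ k := by
        by_cases c : (0 : ℕ) = k
        · exact ⟨1, by omega, by omega⟩
        · exact ⟨0, by omega, c⟩
      obtain ⟨m, hm, hlm⟩ : ∃ m < 4, ¬ G.Adj z (Q l m) := by
        by_contra hcon
        push Not at hcon
        have := key i hi j hj hij l hl (hki ▸ hlk) 0 (by norm_num) 1 (by norm_num)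
          (hcon 0 (by norm_num)) (hcon 1 (by norm_num))
        omega
      exact key l hl m hm hlm k hk (Ne.symm hlk) a ha b hb hza hzb
    · exact key i hi j hj hij k hk hki a ha b hb hza hzb

end Pool.Agent.MPd439b2.PW
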