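import Pool.Agent.Lib.MP_d439b2_co.PW.Spec

/-!
# MP_d439b2_co, PW: no vertex is complete to all the paths (`S_LC`)
-/

set_option autoImplicit false

namespace Pool.Agent.MPd439b2.PW

open Pool.Agent.MPd439b2
open Pool.Agent.MPd439b2.BU
open Pool.Agent.MPd439b2.HC

/-- a thin vertex misses two consecutive vertices of every path -/
private theorem LCAux.edge {V : Type} {G : SimpleGraph V} {n : ℕ} {Q : ℕ → ℕ → V} {y : V}
    (hT : Th G n Q y) {i : ℕ} (hi : i < n) :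
    ∃ a : ℕ, a + 1 < 4 ∧ ¬ G.Adj y (Q i a) ∧ ¬ G.Adj y (Q i (a + 1)) := by
  by_cases h0 : G.Adj y (Q i 0)
  · refine ⟨2, by omega, fun h => ?_, fun h => ?_⟩
    · have := hT i hi 0 (by omega) 2 (by omega) h0 h
      omega
    · have := hT i hi 0 (by omega) 3 (by omega) h0 h
      omega
  · by_cases h1 : G.Adj y (Q i 1)
    · refine ⟨2, by omega, fun h => ?_, fun h => ?_⟩
      · have := hT i hi 1 (by omega) 2 (by omega) h1 h
        omega
      · have := hT i hi 1 (by omega) 3 (by omega) h1 h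
        omega
    · exact ⟨0, by omega, h0, h1⟩

theorem pwLC (h1 : S_LB) (h2 : S_Miss) (h3 : S_Tri) : S_LC := by
  intro V _ G X n Q z hPrm hPF hNT hn hz hzQ
  rcases h1 V G X n Q z hPrm hPF hNT hn hz hzQ with hFl | hTh
  swap
  · exact hTh
  exfalso
  have hmemX : ∀ i < n, ∀ j < 4, Q i j ∈ X := fun i hi j hj => (hNT.ip i hi).1 j hj
  have claim : ∀ f ∈ X, f ∉ Vn n Q → Fl G n Q f → ∀ y ∈ X, ¬ (y ∉ Vn n Q ∧ Fl G n Q y) →
      G.Adj f y := by
    intro f hfX hfQ hfF y hyX hyF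
    by_cases hyQ : y ∈ Vn n Q
    · obtain ⟨i, hi, j, hj, rfl⟩ := hyQ
      exact hfF i hi j hj
    have hyT : Th G n Q y := by
      rcases h1 V G X n Q y hPrm hPF hNT hn hyX hyQ with h | h
      · exact absurd ⟨hyQ, h⟩ hyF
      · exact h
    by_contra hfy
    have h0n : 0 < n := by omega
    have h1n : 1 < n := by omega
    obtain ⟨a, ha, hya, hya'⟩ := LCAux.edge hyT h0n
    obtain ⟨b, hb, hyb, -⟩ := LCAux.edge hyT h1n
    have hfa : G.Adj f (Q 0 a) := hfF 0 h0n a (by omega)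
    have hfa' : G.Adj f (Q 0 (a + 1)) := hfF 0 h0n (a + 1) ha
    have hfb : G.Adj f (Q 1 b) := hfF 1 h1n b (by omega)
    have haa : G.Adj (Q 0 a) (Q 0 (a + 1)) :=
      ((hNT.ip 0 h0n).2.2 a (by omega) (a + 1) ha).mpr (Or.inl rfl)
    have hab : ¬ G.Adj (Q 0 a) (Q 1 b) :=
      (hNT.ne 0 h0n 1 h1n (by omega) a (by omega) b (by omega)).2
    have hba : ¬ G.Adj (Q 1 b) (Q 0 (a + 1)) :=
      (hNT.ne 1 h1n 0 h0n (by omega) b (by omega) (a + 1) ha).2
    have hfy' : y ≠ f := by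
      rintro rfl
      exact hyF ⟨hfQ, hfF⟩
    have hyne : ∀ i < n, ∀ j < 4, Q i j ≠ y := by
      intro i hi j hj h
      exact hyQ ⟨i, hi, j, hj, h.symm⟩
    let K : Set V := insert (Q 1 b) (insert (Q 0 (a + 1)) (insert (Q 0 a) {f}))
    have mf : f ∈ K := by simp [K]
    have ma : Q 0 a ∈ K := by simp [K]
    have ma' : Q 0 (a + 1) ∈ K := by simp [K]
    have mb : Q 1 b ∈ K := by simp [K]
    have hKX : K ⊆ X := by
      intro x hx
      rcases hx with h | h | h | h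
      · rw [h]; exact hmemX 1 h1n b (by omega)
      · rw [h]; exact hmemX 0 h0n (a + 1) ha
      · rw [h]; exact hmemX 0 h0n a (by omega)
      · rw [Set.mem_singleton_iff.mp h]; exact hfX
    have hMs : Ms G y K := by
      intro x hx
      rcases hx with h | h | h | h
      · rw [h]; exact ⟨hyne 1 h1n b (by omega), hyb⟩
      · rw [h]; exact ⟨hyne 0 h0n (a + 1) ha, hya'⟩
      · rw [h]; exact ⟨hyne 0 h0n a (by omega), hya⟩
      · rw [Set.mem_singleton_iff.mp h]; exact ⟨hfy'.symm, fun h' => hfy h'.symm⟩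
    have hc1 : Conn G (insert (Q 0 a) {f} : Set V) :=
      (Conn.singleton G f).insert ⟨f, rfl, hfa⟩
    have hc2 : Conn G (insert (Q 0 (a + 1)) (insert (Q 0 a) {f}) : Set V) :=
      hc1.insert ⟨f, Or.inr rfl, hfa'⟩
    have hc3 : Conn G K := hc2.insert ⟨f, Or.inr (Or.inr rfl), hfb⟩
    have hQF : QF G K := h2 V G X K y hPF hyX hKX hMs
    have hTr : ¬ NoT G K := fun h => h f mf (Q 0 a) ma (Q 0 (a + 1)) ma' hfa hfa' haa
    exact h3 V G K hc3 hQF hTr (Q 0 a) ma (Q 1 b) mb (Q 0 (a + 1)) ma' hab hba haa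
  let M : Set V := {x | x ∈ X ∧ ¬ (x ∉ Vn n Q ∧ Fl G n Q x)}
  have hM : Mod G X M := by
    refine ⟨fun x hx => hx.1, fun y hyX hyM p hp q hq _ => ?_⟩
    have hy : y ∉ Vn n Q ∧ Fl G n Q y := by
      by_contra h
      exact hyM ⟨hyX, h⟩
    exact claim y hyX hy.1 hy.2 q hq.1 hq.2
  have hmQ : ∀ i < n, ∀ j < 4, Q i j ∈ M := fun i hi j hj =>
    ⟨hmemX i hi j hj, fun h => h.1 ⟨i, hi, j, hj, rfl⟩⟩
  rcases hPrm M hM with h | h
  · have h01 : Q 0 0 = Q 0 1 := h (hmQ 0 (by omega) 0 (by omega)) (hmQ 0 (by omega) 1 (by omega))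
    have := (hNT.ip 0 (by omega)).2.1 0 (by omega) 1 (by omega) h01
    omega
  · have hzM : z ∈ M := by rw [h]; exact hz
    exact hzM.2 ⟨hzQ, hFl⟩

end Pool.Agent.MPd439b2.PW
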