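import Pool.Agent.Lib.MP_d439b2_co.PW.Spec

/-!
# MP_d439b2_co, PW: a connected set with a triangle or a `C_4` touches the paths (LD0)
-/

set_option autoImplicit false

namespace Pool.Agent.MPd439b2.PW

open Pool.Agent.MPd439b2
open Pool.Agent.MPd439b2.BU
open Pool.Agent.MPd439b2.HC

namespace LD0Aux

variable {V : Type} {G : SimpleGraph V}

theorem vs_conn {X : Set V} {q : ℕ → V} (h : IP G X 4 q) : Conn G (Vs 4 q) := by
  have h01 : G.Adj (q 0) (q 1) := (h.2.2 0 (by omega) 1 (by omega)).mpr (by omega)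
  have h12 : G.Adj (q 1) (q 2) := (h.2.2 1 (by omega) 2 (by omega)).mpr (by omega)
  have h23 : G.Adj (q 2) (q 3) := (h.2.2 2 (by omega) 3 (by omega)).mpr (by omega)
  have h1 : Conn G (insert (q 3) (insert (q 2) {q 0, q 1})) :=
    ((Conn.pair h01).insert ⟨q 1, by simp, h12⟩).insert ⟨q 2, by simp, h23⟩
  have h2 : Vs 4 q = insert (q 3) (insert (q 2) {q 0, q 1}) := by
    ext x
    simp only [Vs, Set.mem_ofPred_eq, Set.mem_insert_iff, Set.mem_singleton_iff]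
    constructor
    · rintro ⟨i, hi, rfl⟩
      interval_cases i <;> simp
    · rintro (rfl | rfl | rfl | rfl)
      · exact ⟨3, by omega, rfl⟩
      · exact ⟨2, by omega, rfl⟩
      · exact ⟨0, by omega, rfl⟩
      · exact ⟨1, by omega, rfl⟩
  rw [h2]
  exact h1

end LD0Aux

open LD0Aux in
theorem pwLD0 (h1 : S_LC) (h2 : S_L4) : S_LD0 := by
  classical
  intro V _ G X C n Q hprm hpf hnt hn hCX hC hcyc
  by_contra hcon
  have hno : ∀ c ∈ C, c ∉ Vn n Q ∧ ∀ v ∈ Vn n Q, ¬ G.Adj c v := by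
    intro c hc
    refine ⟨fun h => hcon ⟨c, hc, Or.inl h⟩, fun v hv h => hcon ⟨c, hc, Or.inr ⟨v, hv, h⟩⟩⟩
  have hQX : ∀ i < n, ∀ j < 4, Q i j ∈ X := fun i hi j hj => (hnt.ip i hi).1 j hj
  have hQV : ∀ i < n, ∀ j < 4, Q i j ∈ Vn n Q := fun i hi j hj => ⟨i, hi, j, hj, rfl⟩
  set Y : Set V := {x | x ∈ X ∧ x ∉ Vn n Q ∧ ∀ v ∈ Vn n Q, ¬ G.Adj x v} with hY
  have hCY : C ⊆ Y := fun c hc => ⟨hCX hc, hno c hc⟩
  obtain ⟨c0, hc0⟩ := hC.1
  obtain ⟨R, hRY, hc0R, hR, hRnb⟩ := exists_comp G (hCY hc0)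
  have hCR : C ⊆ R := by
    have h3 : C ∩ R = C := by
      by_contra hne
      obtain ⟨b, hb, a, ha, hab⟩ := hC.2 (C ∩ R) Set.inter_subset_left ⟨c0, hc0, hc0R⟩ hne
      exact hRnb a (hCY ha.1) ⟨fun haR => ha.2 ⟨ha.1, haR⟩, b, hb.2, hab⟩
    rw [← h3]
    exact Set.inter_subset_right
  have hX3 : 3 ≤ X.ncard := by
    have hip := hnt.ip 0 (by omega)
    have h4 : ({Q 0 0, Q 0 1, Q 0 2} : Set V) ⊆ X := by
      rintro x (rfl | rfl | rfl)
      · exact hip.1 0 (by omega)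
      · exact hip.1 1 (by omega)
      · exact hip.1 2 (by omega)
    have h5 : ({Q 0 0, Q 0 1, Q 0 2} : Set V).ncard = 3 := by
      have e1 : Q 0 0 ≠ Q 0 1 := fun h => by
        have := hip.2.1 0 (by omega) 1 (by omega) h
        omega
      have e2 : Q 0 0 ≠ Q 0 2 := fun h => by
        have := hip.2.1 0 (by omega) 2 (by omega) h
        omega
      have e3 : Q 0 1 ≠ Q 0 2 := fun h => by
        have := hip.2.1 1 (by omega) 2 (by omega) h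
        omega
      exact Set.ncard_eq_three.mpr ⟨_, _, _, e1, e2, e3, rfl⟩
    rw [← h5]
    exact Set.ncard_le_ncard h4 (Set.toFinite X)
  have hXc := hprm.conn hX3
  obtain ⟨b, hbR, z, hz, hbz⟩ := hXc.2 R (fun x hx => (hRY hx).1) ⟨c0, hc0R⟩ (by
    intro h
    have h3 := hQX 0 (by omega) 0 (by omega)
    rw [← h] at h3
    exact (hRY h3).2.1 (hQV 0 (by omega) 0 (by omega)))
  have hzV : z ∉ Vn n Q := fun h => (hRY hbR).2.2 z h hbz
  have hzY : ¬ (z ∈ Y) := fun h => hRnb z h ⟨hz.2, b, hbR, hbz⟩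
  have hzv : ∃ v ∈ Vn n Q, G.Adj z v := by
    by_contra h
    exact hzY ⟨hz.1, hzV, fun v hv hzv => h ⟨v, hv, hzv⟩⟩
  obtain ⟨v, ⟨i, hi, j, hj, rfl⟩, hzv⟩ := hzv
  have hth := h1 V G X n Q z hprm hpf hnt hn hz.1 hzV
  obtain ⟨k, hk, hki⟩ : ∃ k < n, k ≠ i := by
    by_cases hi0 : i = 0
    · exact ⟨1, by omega, by omega⟩
    · exact ⟨0, by omega, fun h => hi0 h.symm⟩
  obtain ⟨l, hl, hzl⟩ : ∃ l < 4, ¬ G.Adj z (Q k l) := by
    by_contra h
    push Not at h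
    have := hth k hk 0 (by omega) 1 (by omega) (h 0 (by omega)) (h 1 (by omega))
    omega
  have hK1 : Conn G (insert z R) := hR.insert ⟨b, hbR, hbz⟩
  have hK : Conn G (insert z R ∪ Vs 4 (Q i)) :=
    hK1.union (vs_conn (hnt.ip i hi)) (Or.inr ⟨z, Set.mem_insert _ _, Q i j, ⟨j, hj, rfl⟩, hzv⟩)
  have hKX : insert z R ∪ Vs 4 (Q i) ⊆ X := by
    rintro x ((rfl | hx) | ⟨m, hm, rfl⟩)
    · exact hz.1
    · exact (hRY hx).1
    · exact hQX i hi m hm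
  have hMs : Ms G (Q k l) (insert z R ∪ Vs 4 (Q i)) := by
    rintro x ((rfl | hx) | ⟨m, hm, rfl⟩)
    · exact ⟨fun h => hzV (h ▸ hQV k hk l hl), fun h => hzl h.symm⟩
    · exact ⟨fun h => (hRY hx).2.1 (h ▸ hQV k hk l hl),
        fun h => (hRY hx).2.2 _ (hQV k hk l hl) h.symm⟩
    · have h3 := hnt.ne i hi k hk (fun h => hki h.symm) m hm l hl
      exact ⟨h3.1, fun h => h3.2 h.symm⟩
  have hIP : IP G (insert z R ∪ Vs 4 (Q i)) 4 (Q i) :=
    ⟨fun m hm => Or.inr ⟨m, hm, rfl⟩, (hnt.ip i hi).2.1, (hnt.ip i hi).2.2⟩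
  obtain ⟨hT, hI⟩ := h2 V G X _ (Q k l) (Q i) hpf (hQX k hk l hl) hKX hMs hK hIP
  have hCK : C ⊆ insert z R ∪ Vs 4 (Q i) := fun c hc => Or.inl (Or.inr (hCR hc))
  rcases hcyc with h | ⟨p, hp⟩
  · exact h fun a ha b hb c hc => hT a (hCK ha) b (hCK hb) c (hCK hc)
  · have := hI 4 p le_rfl ⟨fun m hm => hCK (hp.1 m hm), hp.2.1, hp.2.2⟩
    omega

end Pool.Agent.MPd439b2.PW
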