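import Pool.Agent.Lib.MP_d439b2_co.PW.Spec

/-!
# MP_d439b2_co, PW, LE: width of the graphs of girth at least five
-/

set_option autoImplicit false

namespace Pool.Agent.MPd439b2.PW

open Pool.Agent.MPd439b2
open Pool.Agent.MPd439b2.BU
open Pool.Agent.MPd439b2.HC

namespace LEAux

variable {V : Type}

/-- an induced four-cycle -/
theorem ic4 {G : SimpleGraph V} {X : Set V} {a b c d : V} (ha : a ∈ X) (hb : b ∈ X) (hc : c ∈ X)
    (hd : d ∈ X) (ab : G.Adj a b) (bc : G.Adj b c) (cd : G.Adj c d) (da : G.Adj d a)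
    (ac : ¬ G.Adj a c) (bd : ¬ G.Adj b d) (h1 : a ≠ c) (h2 : b ≠ d) : ∃ p : ℕ → V, IC G X 4 p := by
  refine ⟨fun i => if i = 0 then a else if i = 1 then b else if i = 2 then c else d,
    ⟨?_, ?_, ?_⟩⟩
  · intro i hi
    interval_cases i <;> simpa
  · intro i hi j hj h
    interval_cases i <;> interval_cases j <;> first
      | rfl
      | (exfalso
         simp only [OfNat.ofNat_ne_zero, OfNat.ofNat_ne_one, if_true, if_false, one_ne_zero,
           Nat.reduceEqDiff, zero_ne_one] at h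
         first
           | exact ab.ne h | exact ab.ne h.symm | exact bc.ne h | exact bc.ne h.symm
           | exact cd.ne h | exact cd.ne h.symm | exact da.ne h | exact da.ne h.symm
           | exact h1 h | exact h1 h.symm | exact h2 h | exact h2 h.symm)
  · intro i hi j hj
    interval_cases i <;> interval_cases j <;>
      simp [ab, ab.symm, bc, bc.symm, cd, cd.symm, da, da.symm, ac, bd,
        G.adj_comm c a, G.adj_comm d b]

/-- the vertices of an induced cycle are a connected set -/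
theorem conn_vs {G : SimpleGraph V} {X : Set V} {n : ℕ} {p : ℕ → V} (h : IC G X n p) (hn : 3 ≤ n) :
    Conn G (Vs n p) := by
  have key : ∀ m, m + 1 ≤ n → Conn G (Vs (m + 1) p) := by
    intro m
    induction m with
    | zero =>
      intro _
      have h1 : Vs 1 p = {p 0} := by
        ext x
        constructor
        · rintro ⟨i, hi, rfl⟩
          have h2 : i = 0 := by omega
          rw [h2]
          rfl
        · intro hx
          exact ⟨0, by omega, hx⟩
      show Conn G (Vs 1 p)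
      rw [h1]
      exact Conn.singleton G _
    | succ m ih =>
      intro hm
      have h1 : Vs (m + 1 + 1) p = insert (p (m + 1)) (Vs (m + 1) p) := by
        ext x
        constructor
        · rintro ⟨i, hi, rfl⟩
          by_cases h2 : i = m + 1
          · rw [h2]
            exact Set.mem_insert _ _
          · exact Or.inr ⟨i, by omega, rfl⟩
        · rintro (rfl | ⟨i, hi, rfl⟩)
          · exact ⟨m + 1, by omega, rfl⟩
          · exact ⟨i, by omega, rfl⟩
      rw [h1]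
      exact (ih (by omega)).insert ⟨p m, ⟨m, by omega, rfl⟩,
        (h.2.2 m (by omega) (m + 1) (by omega)).mpr (Or.inl rfl)⟩
  obtain ⟨m, rfl⟩ : ∃ m, n = m + 1 := ⟨n - 1, by omega⟩
  exact key m le_rfl

theorem five {G : SimpleGraph V} {X : Set V} {n : ℕ} {p : ℕ → V} (hT : NoT G X)
    (hC : ∀ p, ¬ IC G X 4 p) (h : IC G X n p) (hn : 3 ≤ n) : 5 ≤ n := by
  by_contra h5
  have h6 : n = 3 ∨ n = 4 := by omega
  rcases h6 with rfl | rfl
  · exact hT _ (h.1 0 (by omega)) _ (h.1 1 (by omega)) _ (h.1 2 (by omega))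
      ((h.2.2 0 (by omega) 1 (by omega)).mpr (by omega))
      ((h.2.2 0 (by omega) 2 (by omega)).mpr (by omega))
      ((h.2.2 1 (by omega) 2 (by omega)).mpr (by omega))
  · exact hC p h

theorem fact [Finite V] (h1 : S_LF) (h2 : S_Add) (h4 : S_Miss) (h5 : S_Hole) {G : SimpleGraph V}
    {X : Set V} (hP : PF G X) (hT : NoT G X) (hC : ∀ p, ¬ IC G X 4 p) {u : V} (hu : u ∈ X)
    (hZ : {x | x ∈ X ∧ (x = u ∨ G.Adj u x)}.ncard ≤ 4) : RL G X 256 X := by
  set Z : Set V := {x | x ∈ X ∧ (x = u ∨ G.Adj u x)} with hZd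
  have hFC : FC G (X \ Z) := by
    intro n p hn hp y hy i hi hadj
    have h6 : 5 ≤ n := five hT hC (hp.mono Set.sdiff_subset) hn
    have hvs : Vs n p ⊆ X \ Z := by
      rintro x ⟨j, hj, rfl⟩
      exact hp.1 j hj
    have hK : insert y (Vs n p) ⊆ X \ Z := Set.insert_subset hy hvs
    have hconn : Conn G (insert y (Vs n p)) :=
      (conn_vs hp hn).insert ⟨p i, ⟨i, hi, rfl⟩, hadj.symm⟩
    have hmiss : Ms G u (insert y (Vs n p)) := by
      intro x hx
      have h7 := hK hx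
      exact ⟨fun h => h7.2 ⟨h7.1, Or.inl h⟩, fun h => h7.2 ⟨h7.1, Or.inr h⟩⟩
    have hQ := h4 V G X _ u hP hu (hK.trans Set.sdiff_subset) hmiss
    have hIC : IC G (insert y (Vs n p)) n p :=
      ⟨fun j hj => Or.inr ⟨j, hj, rfl⟩, hp.2⟩
    have h8 := h5 V G _ n p hconn hQ hIC h6
    rw [← h8]
    exact Set.mem_insert _ _
  have h9 : RL G (X \ Z) 16 (X \ Z) :=
    LT.mono (fun B h => (Set.encard_le_encard (Set.subset_insert _ _)).trans h)
      (h1 V G (X \ Z) hFC)
  have h10 := h2 V G X Z 16 4 (by norm_num) (fun x hx => hx.1) hZ h9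
  exact RL.mono (by norm_num) h10

end LEAux

open LEAux in
theorem pwLE (h1 : S_LF) (h2 : S_Add) (h3 : S_Leaf) (h4 : S_Miss) (h5 : S_Hole) : S_LE := by
  classical
  intro V _ G X hP hT hC
  by_cases hall : ∀ a ∈ X, ∀ b ∈ X, a ≠ b → G.Adj a b
  · apply RL.small
    by_contra hlt
    have h6 : 2 < X.ncard := by omega
    obtain ⟨a, b, c, ha, hb, hc, hab, hac, hbc⟩ := (Set.two_lt_ncard_iff (Set.toFinite _)).mp h6
    exact hT a ha b hb c hc (hall a ha b hb hab) (hall a ha c hc hac) (hall b hb c hc hbc)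
  push Not at hall
  obtain ⟨w, hw, y, hy, hwy, nwy⟩ := hall
  obtain ⟨K, hKN, hyK, hKc, hKn⟩ := exists_comp G (A := {x | x ∈ X ∧ x ≠ w ∧ ¬ G.Adj w x}) (v := y)
    ⟨hy, hwy.symm, nwy⟩
  have hKX : K ⊆ X := fun x hx => (hKN hx).1
  have hQ : QF G K := h4 V G X K w hP hw hKX (fun x hx => (hKN hx).2)
  obtain ⟨u, huK, hu2⟩ : ∃ u ∈ K, {x | x ∈ K ∧ G.Adj u x}.ncard ≤ 2 := by
    by_cases hcyc : ∃ n p, 3 ≤ n ∧ IC G K n p
    · obtain ⟨n, p, hn, hp⟩ := hcyc
      have h6 : 5 ≤ n := five hT hC (hp.mono hKX) hn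
      have h7 := h5 V G K n p hKc hQ hp h6
      refine ⟨p 1, hp.1 1 (by omega), ?_⟩
      have h8 : {x | x ∈ K ∧ G.Adj (p 1) x} ⊆ {p 0, p 2} := by
        rintro x ⟨hx, hadj⟩
        rw [h7] at hx
        obtain ⟨j, hj, rfl⟩ := hx
        have h9 := (hp.2.2 1 (by omega) j hj).mp hadj
        have h10 : j = 0 ∨ j = 2 := by omega
        rcases h10 with rfl | rfl
        · exact Or.inl rfl
        · exact Or.inr rfl
      have h11 := Set.ncard_le_ncard h8 (Set.toFinite _)
      have h12 := Set.ncard_insert_le (p 0) {p 2}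
      rw [Set.ncard_singleton] at h12
      omega
    · have hNoC : NoC G K 3 := fun m hm p hp => hcyc ⟨m, p, hm, hp⟩
      obtain ⟨v, hv, hleaf⟩ := h3 V G K ⟨y, hyK⟩ hNoC
      refine ⟨v, hv, ?_⟩
      have h6 : {x | x ∈ K ∧ G.Adj v x}.Subsingleton := fun a ha b hb =>
        hleaf a ha.1 b hb.1 ha.2 hb.2
      have h7 := Set.ncard_le_one_iff_subsingleton.2 h6
      omega
  have huX : u ∈ X := hKX huK
  have huw : ¬ G.Adj w u := (hKN huK).2.2
  have hune : u ≠ w := (hKN huK).2.1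
  have hS : {x | x ∈ X ∧ G.Adj u x ∧ G.Adj w x}.Subsingleton := by
    intro a ha b hb
    by_contra hab
    by_cases h6 : G.Adj a b
    · exact hT u huX a ha.1 b hb.1 ha.2.1 hb.2.1 h6
    · obtain ⟨p, hp⟩ := ic4 huX ha.1 hw hb.1 ha.2.1 ha.2.2.symm hb.2.2 hb.2.1.symm
        (fun h => huw h.symm) h6 hune hab
      exact hC p hp
  refine fact h1 h2 h4 h5 hP hT hC huX ?_
  have hsub : {x | x ∈ X ∧ (x = u ∨ G.Adj u x)} ⊆
      insert u ({x | x ∈ K ∧ G.Adj u x} ∪ {x | x ∈ X ∧ G.Adj u x ∧ G.Adj w x}) := by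
    rintro x ⟨hx, (rfl | hux)⟩
    · exact Set.mem_insert _ _
    · right
      by_cases hxK : x ∈ K
      · exact Or.inl ⟨hxK, hux⟩
      · right
        refine ⟨hx, hux, ?_⟩
        by_contra hwx
        have hxw : x ≠ w := fun h => huw (h ▸ hux.symm)
        exact hKn x ⟨hx, hxw, hwx⟩ ⟨hxK, u, huK, hux⟩
  have h6 : {x | x ∈ X ∧ G.Adj u x ∧ G.Adj w x}.ncard ≤ 1 := Set.ncard_le_one_iff_subsingleton.2 hS
  have h7 := Set.ncard_le_ncard hsub (Set.toFinite _)
  have h8 := Set.ncard_insert_le u ({x | x ∈ K ∧ G.Adj u x} ∪ {x | x ∈ X ∧ G.Adj u x ∧ G.Adj w x})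
  have h9 := Set.ncard_union_le {x | x ∈ K ∧ G.Adj u x} {x | x ∈ X ∧ G.Adj u x ∧ G.Adj w x}
  omega

end Pool.Agent.MPd439b2.PW
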