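import Pool.Agent.Lib.MP_d439b2_co.PW.Spec

/-!
# MP_d439b2_co, PW, LF: layouts of disjoint unions of trees and cycles
-/

set_option autoImplicit false

namespace Pool.Agent.MPd439b2.PW

open Pool.Agent.MPd439b2
open Pool.Agent.MPd439b2.BU
open Pool.Agent.MPd439b2.HC

private theorem lf_four {V : Type} {G : SimpleGraph V} {C B : Set V}
    (h : (Rw G C B).encard ≤ ((3 : ℕ) : ℕ∞)) : (insert ∅ (Rw G C B)).encard ≤ ((4 : ℕ) : ℕ∞) := by
  refine (Set.encard_insert_le _ _).trans ?_
  have h1 : ((4 : ℕ) : ℕ∞) = ((3 : ℕ) : ℕ∞) + 1 := by norm_num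
  rw [h1]
  gcongr

theorem pwLF (h1 : S_Leaf) (h2 : S_SplitMain) (h3 : S_SPb) (h4 : S_R5) : S_LF := by
  classical
  intro V _ G Y hFC
  refine RL0.mono (by norm_num : 2 ^ 4 ≤ 16) (h2 V G Y 4 (by norm_num) ?_)
  intro C F φ hSR hSP
  have hCY : C ⊆ Y := hSR.cF.trans hSR.FX
  by_cases hsmall : C.ncard ≤ 3
  · refine LT.of_all fun B hB => lf_four ((rw_encard_le G C B).trans ?_)
    rw [← (Set.toFinite B).cast_ncard_eq]
    exact_mod_cast (Set.ncard_le_ncard hB).trans hsmall
  push Not at hsmall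
  obtain ⟨hconn, _, _, _⟩ := h3 V G C hSP (by omega)
  by_cases hcyc : ∃ n p, 3 ≤ n ∧ IC G C n p
  · obtain ⟨n, p, hn, hp⟩ := hcyc
    have hsub : Vs n p ⊆ C := by
      rintro x ⟨i, hi, rfl⟩
      exact hp.1 i hi
    have hC : Vs n p = C := by
      refine hconn.eq_of_nb hsub ⟨p 0, 0, by omega, rfl⟩ ?_
      rintro v hv ⟨hv1, a, ⟨i, hi, rfl⟩, hav⟩
      exact hv1 (hFC n p hn (hp.mono hCY) v (hCY hv) i hi hav.symm)
    have h5 := h4 V G C n p hp.2.1 (by
      intro i hi0 hin y hy hadj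
      rw [← hC] at hy
      obtain ⟨j, hj, rfl⟩ := hy
      have h6 := (hp.2.2 i (by omega) j hj).mp hadj
      rcases h6 with h6 | h6 | h6 | h6
      · right; rw [h6]
      · left; rw [← h6]; rfl
      · omega
      · omega)
    have h7 : RL G C 3 C := by
      have h8 : {x | ∃ i < n, x = p i} = C := hC
      rw [h8] at h5
      exact h5
    exact LT.mono (fun B hB => lf_four hB) h7
  · exfalso
    have hNoC : NoC G C 3 := fun m hm p hp => hcyc ⟨m, p, hm, hp⟩
    obtain ⟨v, hv, hleaf⟩ := h1 V G C hconn.1 hNoC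
    have hvC : ({v} : Set V) ≠ C := by
      intro h
      rw [← h, Set.ncard_singleton] at hsmall
      omega
    obtain ⟨b, hb, c, hc, hbc⟩ := hconn.2 {v} (Set.singleton_subset_iff.mpr hv) ⟨v, rfl⟩ hvC
    rw [Set.mem_singleton_iff] at hb
    subst hb
    have hpair : ({b, c} : Set V) ⊆ C := by
      rintro x (rfl | rfl)
      · exact hv
      · exact hc.1
    refine hSP {b, c} (C \ {b, c}) ⟨Set.union_sdiff_cancel hpair, Set.disjoint_sdiff_right, ?_, ?_,
      {c}, Set.singleton_subset_iff.mpr (Or.inr rfl), {y | y ∈ C \ {b, c} ∧ G.Adj c y},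
      fun y hy => hy.1, ?_⟩
    · intro h
      exact hbc.ne (h (Or.inl rfl) (Or.inr rfl))
    · intro h
      have h5 : (C \ {b, c}).ncard ≤ 1 := Set.ncard_le_one_iff_subsingleton.2 h
      have h6 : (C \ {b, c}).ncard + ({b, c} : Set V).ncard = C.ncard :=
        Set.ncard_sdiff_add_ncard_of_subset hpair
      have h7 : ({b, c} : Set V).ncard = 2 := Set.ncard_pair hbc.ne
      omega
    · rintro x (rfl | hx) y hy
      · constructor
        · intro h
          exact absurd (Or.inr (hleaf y hy.1 c hc.1 h hbc)) hy.2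
        · intro h
          exact absurd h.1 (fun h' => hbc.ne h')
      · rw [Set.mem_singleton_iff] at hx
        subst hx
        exact ⟨fun h => ⟨rfl, hy, h⟩, fun h => h.2.2⟩

end Pool.Agent.MPd439b2.PW
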