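import Pool.Agent.Lib.MP_d439b2_co.PW.Spec

/-!
# MP_d439b2_co, PW: a nonempty graph without cycles has a vertex of degree at most one
-/

set_option autoImplicit false

namespace Pool.Agent.MPd439b2.PW

open Pool.Agent.MPd439b2
open Pool.Agent.MPd439b2.BU
open Pool.Agent.MPd439b2.HC

namespace LeafAux

variable {V : Type}

/-- put the vertex `c` before the sequence `p` -/
def cons (c : V) (p : ℕ → V) : ℕ → V
  | 0 => c
  | j + 1 => p j

theorem pathStep {G : SimpleGraph V} {Y : Set V} {n : ℕ} {p : ℕ → V} {c : V} (hp : IP G Y n p)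
    (hc : c ∈ Y) (hcp : ∀ i < n, c ≠ p i) (h0 : G.Adj c (p 0))
    (hno : ∀ i, 1 ≤ i → i < n → ¬ G.Adj c (p i)) : IP G Y (n + 1) (cons c p) := by
  have key : ∀ j < n, (G.Adj c (p j) ↔ j = 0) := by
    intro j hj
    constructor
    · intro h
      by_contra hj0
      exact hno j (by omega) hj h
    · rintro rfl
      exact h0
  refine ⟨?_, ?_, ?_⟩
  · rintro (_ | i) hi
    · exact hc
    · exact hp.1 i (by omega)
  · rintro (_ | i) hi (_ | j) hj h
    · rfl
    · exact absurd h (hcp j (by omega))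
    · exact absurd h.symm (hcp i (by omega))
    · have := hp.2.1 i (by omega) j (by omega) h
      omega
  · rintro (_ | i) hi (_ | j) hj
    · show G.Adj c c ↔ _
      exact ⟨fun h => absurd h (G.loopless.irrefl c), fun h => by omega⟩
    · show G.Adj c (p j) ↔ _
      rw [key j (by omega)]
      omega
    · show G.Adj (p i) c ↔ _
      rw [G.adj_comm, key i (by omega)]
      omega
    · show G.Adj (p i) (p j) ↔ _
      rw [hp.2.2 i (by omega) j (by omega)]
      omega

theorem cycStep {G : SimpleGraph V} {Y : Set V} {n : ℕ} {p : ℕ → V} {c : V} (hp : IP G Y n p)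
    (hc : c ∈ Y) (hcp : ∀ i < n, c ≠ p i) (h0 : G.Adj c (p 0)) {i : ℕ} (hi1 : 1 ≤ i) (hin : i < n)
    (hi : G.Adj c (p i)) (hno : ∀ j, 1 ≤ j → j < i → ¬ G.Adj c (p j)) :
    IC G Y (i + 2) (cons c p) := by
  have key : ∀ j ≤ i, (G.Adj c (p j) ↔ j = 0 ∨ j = i) := by
    intro j hj
    constructor
    · intro h
      by_contra hj0
      exact hno j (by omega) (by omega) h
    · rintro (rfl | rfl)
      · exact h0
      · exact hi
  refine ⟨?_, ?_, ?_⟩
  · rintro (_ | j) hj
    · exact hc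
    · exact hp.1 j (by omega)
  · rintro (_ | k) hk (_ | j) hj h
    · rfl
    · exact absurd h (hcp j (by omega))
    · exact absurd h.symm (hcp k (by omega))
    · have := hp.2.1 k (by omega) j (by omega) h
      omega
  · rintro (_ | k) hk (_ | j) hj
    · show G.Adj c c ↔ _
      exact ⟨fun h => absurd h (G.loopless.irrefl c), fun h => by omega⟩
    · show G.Adj c (p j) ↔ _
      rw [key j (by omega)]
      omega
    · show G.Adj (p k) c ↔ _
      rw [G.adj_comm, key k (by omega)]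
      omega
    · show G.Adj (p k) (p j) ↔ _
      rw [hp.2.2 k (by omega) j (by omega)]
      omega

theorem single {G : SimpleGraph V} {Y : Set V} {v : V} (hv : v ∈ Y) : IP G Y 1 (fun _ => v) := by
  refine ⟨fun _ _ => hv, fun i hi j hj _ => by omega, fun i hi j hj => ?_⟩
  exact ⟨fun h => absurd h (G.loopless.irrefl v), fun h => by omega⟩

end LeafAux

theorem pwLeaf : S_Leaf := by
  classical
  intro V _ G Y hY hC
  by_contra hcon
  have hcon' : ∀ v ∈ Y, ∃ a ∈ Y, ∃ b ∈ Y, G.Adj v a ∧ G.Adj v b ∧ a ≠ b := by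
    intro v hv
    by_contra h
    refine hcon ⟨v, hv, fun a ha b hb hva hvb => ?_⟩
    by_contra hab
    exact h ⟨a, ha, b, hb, hva, hvb, hab⟩
  have long : ∀ n : ℕ, ∃ p, IP G Y (n + 1) p := by
    intro n
    induction n with
    | zero =>
      obtain ⟨v, hv⟩ := hY
      exact ⟨_, LeafAux.single hv⟩
    | succ n ih =>
      obtain ⟨p, hp⟩ := ih
      obtain ⟨a, ha, b, hb, hva, hvb, hab⟩ := hcon' (p 0) (hp.1 0 (by omega))
      have hon : ∀ x, G.Adj (p 0) x → (∃ i < n + 1, x = p i) → x = p 1 := by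
        rintro x hx ⟨i, hi, rfl⟩
        have := (hp.2.2 0 (by omega) i hi).1 hx
        have h1 : i = 1 := by omega
        rw [h1]
      obtain ⟨c, hc, hvc, hcn⟩ : ∃ c ∈ Y, G.Adj (p 0) c ∧ ¬ ∃ i < n + 1, c = p i := by
        by_cases h : ∃ i < n + 1, a = p i
        · refine ⟨b, hb, hvb, fun h' => hab ?_⟩
          rw [hon a hva h, hon b hvb h']
        · exact ⟨a, ha, hva, h⟩
      have hcp : ∀ i < n + 1, c ≠ p i := fun i hi h => hcn ⟨i, hi, h⟩
      by_cases hex : ∃ i, 1 ≤ i ∧ i < n + 1 ∧ G.Adj c (p i)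
      · exfalso
        obtain ⟨h1, h2, h3⟩ := Nat.find_spec hex
        refine hC (Nat.find hex + 2) (by omega) _
          (LeafAux.cycStep hp hc hcp hvc.symm h1 h2 h3 fun j hj1 hj2 hj => ?_)
        exact Nat.find_min hex hj2 ⟨hj1, by omega, hj⟩
      · exact ⟨_, LeafAux.pathStep hp hc hcp hvc.symm
          fun i h1 h2 h3 => hex ⟨i, h1, h2, h3⟩⟩
  obtain ⟨p, hp⟩ := long (Nat.card V)
  have h1 : Nat.card (Fin (Nat.card V + 1)) ≤ Nat.card V :=
    Nat.card_le_card_of_injective (fun i : Fin (Nat.card V + 1) => p i.val) fun i j h =>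
      Fin.ext (hp.2.1 i.val i.isLt j.val j.isLt h)
  rw [Nat.card_fin] at h1
  omega

end Pool.Agent.MPd439b2.PW
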