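import Pool.Agent.Lib.MP_d439b2_co.PW.Spec

/-!
# MP_d439b2_co, PW: the theorem for the base graph `paw + P_1`, assembly (`S_PW`)
-/

set_option autoImplicit false

namespace Pool.Agent.MPd439b2.PW

open Pool.Agent.MPd439b2
open Pool.Agent.MPd439b2.BU
open Pool.Agent.MPd439b2.HC

namespace PWAux

theorem patJ_mono {V : Type} {G : SimpleGraph V} {X Y : Set V} {T : ℕ} (hYX : Y ⊆ X)
    (h : PatJ G Y T) : PatJ G X T := by
  obtain ⟨p, q, r, x, y, hp, hq, hr, hxy, rest⟩ := h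
  exact ⟨p, q, r, x, y, hYX hp, hYX hq, hYX hr,
    fun i hi => ⟨hYX (hxy i hi).1, hYX (hxy i hi).2⟩, rest⟩

theorem noG_mono {V : Type} {G : SimpleGraph V} {X Y : Set V} (hYX : Y ⊆ X) (h : NoG G X) :
    NoG G Y :=
  fun q hq w hw => h q ⟨fun i hi => hYX (hq.1 i hi), hq.2⟩ w (hYX hw)

theorem pf_mono {V : Type} {G : SimpleGraph V} {X Y : Set V} (hYX : Y ⊆ X) (h : PF G X) :
    PF G Y :=
  SPF.mono h hYX

end PWAux

/-- **Theorem PW.** -/
theorem pwPW (h1 : S_Fam) (h2 : S_Hm) (h3 : S_Res) (h4 : S_LD) (h5 : S_LE) (h6 : S_Dia)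
    (h7 : S_Add) (h8 : S_R2) : S_PW := by
  intro T k
  obtain ⟨M, hM⟩ := h2 (max 8 (T + 1))
  refine ⟨max 256 ((k + 1) * 2 ^ (5 * M)), ?_⟩
  intro V _ G X hPF hPat hK
  refine h8 V G X _ ?_
  intro Y hYX hPrm
  have hPFY : PF G Y := PWAux.pf_mono hYX hPF
  rcases h1 V G Y M with ⟨B, hB⟩ | ⟨Z, hZY, hZc, hNoG⟩
  · obtain ⟨B', R, hHom⟩ := hM V G Y B hB
    rcases h3 V G Y (max 8 (T + 1)) T B' R hPFY hHom (le_max_left _ _) (le_max_right _ _) with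
      ⟨Q, hNT⟩ | hJ
    · obtain ⟨hT, hC⟩ := h4 V G Y Q hPrm hPFY hNT
      exact RL.mono (le_max_left _ _) (h5 V G Y hPFY hT hC)
    · exact absurd (PWAux.patJ_mono hYX hJ) hPat
  · have hRL : RL G (Y \ Z) (k + 1) (Y \ Z) := by
      refine h8 V G (Y \ Z) (k + 1) ?_
      intro W hW hPrmW
      have hWY : W ⊆ Y := hW.trans Set.sdiff_subset
      have hNoK : NoK G W :=
        h6 V G W hPrmW (PWAux.pf_mono hWY hPFY) (PWAux.noG_mono hW hNoG)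
      exact RL.mono (Nat.le_succ k) (hK W (hWY.trans hYX) hNoK)
    exact RL.mono (le_max_right _ _) (h7 V G Y Z (k + 1) (5 * M) (Nat.le_add_left 1 k) hZY hZc hRL)

end Pool.Agent.MPd439b2.PW
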