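import Pool.Agent.Lib.MP_d439b2_co.PW.Spec

/-!
# MP_d439b2_co, PW: the two results (helper18)
-/

set_option autoImplicit false

namespace Pool.Agent.MPd439b2.PW

open Pool.Agent.MPd439b2
open Pool.Agent.MPd439b2.BU
open Pool.Agent.MPd439b2.HC

theorem pwRes : S_Res := by
  intro V G X N T B R hX hB hN hT
  have h4 : Hom G X 4 B R :=
    ⟨⟨fun i hi => hB.mem i (by omega), fun i hi a ha j hj => hB.inj i (by omega) a ha j (by omega),
      fun i hi => hB.adj i (by omega)⟩, fun i hi j hj => hB.out i (by omega) j (by omega)⟩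
  have hdec : ∀ a < 4, ∀ b < 4, (ins (a + 1) (b + 1) = true ↔ a + 1 = b ∨ b + 1 = a) := by
    decide
  have hout : ∀ i < N, ∀ j < N, i ≠ j → ∀ a < 5, ∀ b < 5, R a b = true → R b a = true →
      G.Adj (B i a) (B j b) := by
    intro i hi j hj hij a ha b hb h1 h2
    rcases Nat.lt_or_gt_of_ne hij with h | h
    · exact (hB.out i hi j hj h a ha b hb).2 h1
    · exact ((hB.out j hj i hi h b hb a ha).2 h2).symm
  rcases pat hX h4 with h | h
  · left
    refine ⟨fun i j => B i (j + 1), ⟨fun i hi => ⟨?_, ?_, ?_⟩, ?_⟩⟩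
    · intro j hj
      exact hB.mem i (by omega) _ (by omega)
    · intro j hj l hl hjl
      have := (hB.inj i (by omega) _ (by omega) i (by omega) _ (by omega) hjl).2
      omega
    · intro j hj l hl
      rw [hB.adj i (by omega) _ (by omega) _ (by omega)]
      exact hdec j hj l hl
    · intro i hi k hk hik j hj l hl
      refine ⟨fun e => hik (hB.inj i (by omega) _ (by omega) k (by omega) _ (by omega) e).1,
        fun hadj => ?_⟩
      rcases Nat.lt_or_gt_of_ne hik with h' | h'
      · have h1 := (hB.out i (by omega) k (by omega) h' _ (by omega) _ (by omega)).1 hadj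
        rw [h (j + 1) (by omega) (by omega) (l + 1) (by omega) (by omega)] at h1
        exact absurd h1 (by decide)
      · have h1 := (hB.out k (by omega) i (by omega) h' _ (by omega) _ (by omega)).1 hadj.symm
        rw [h (l + 1) (by omega) (by omega) (j + 1) (by omega) (by omega)] at h1
        exact absurd h1 (by decide)
  · right
    obtain ⟨h00, h01, h02, h10, h11, h12⟩ := h
    have hL : ∀ i < T, i < N - 1 := fun i hi => by omega
    have hNN : N - 1 < N := by omega
    have hl : ∀ i < T, ∀ a < 5, ∀ b < 5, R a b = true → G.Adj (B (N - 1) b) (B i a) := by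
      intro i hi a ha b hb h1
      exact ((hB.out i (by omega) (N - 1) hNN (hL i hi) a ha b hb).2 h1).symm
    refine ⟨B (N - 1) 1, B (N - 1) 2, B (N - 1) 0, fun i => B i 0, fun i => B i 1,
      hB.mem _ hNN _ (by norm_num), hB.mem _ hNN _ (by norm_num), hB.mem _ hNN _ (by norm_num),
      fun i hi => ⟨hB.mem _ (by omega) _ (by norm_num), hB.mem _ (by omega) _ (by norm_num)⟩,
      (hB.adj _ hNN 1 (by norm_num) 2 (by norm_num)).2 (by decide),
      fun e => ?_, fun e => ?_, fun e => ?_, fun e => ?_, fun i hi => ⟨fun e => ?_, fun e => ?_,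
        hl i hi 0 (by norm_num) 1 (by norm_num) h01, hl i hi 1 (by norm_num) 1 (by norm_num) h11,
        hl i hi 0 (by norm_num) 2 (by norm_num) h02, hl i hi 1 (by norm_num) 2 (by norm_num) h12,
        hl i hi 0 (by norm_num) 0 (by norm_num) h00, hl i hi 1 (by norm_num) 0 (by norm_num) h10⟩,
      fun i hi j hj hij => ⟨hout i (by omega) j (by omega) hij 0 (by norm_num) 0 (by norm_num) h00 h00,
        hout i (by omega) j (by omega) hij 0 (by norm_num) 1 (by norm_num) h01 h10,
        hout i (by omega) j (by omega) hij 1 (by norm_num) 1 (by norm_num) h11 h11⟩⟩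
    · have := (hB.inj _ hNN _ (by norm_num) _ hNN _ (by norm_num) e).2
      omega
    · have := (hB.inj _ hNN _ (by norm_num) _ hNN _ (by norm_num) e).2
      omega
    · exact absurd ((hB.adj _ hNN 0 (by norm_num) 1 (by norm_num)).1 e) (by decide)
    · exact absurd ((hB.adj _ hNN 0 (by norm_num) 2 (by norm_num)).1 e) (by decide)
    · have := (hB.inj _ (by omega) _ (by norm_num) _ (by omega) _ (by norm_num) e).2
      omega
    · exact absurd ((hB.adj i (by omega) 0 (by norm_num) 1 (by norm_num)).1 e) (by decide)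

end Pool.Agent.MPd439b2.PW
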