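import Pool.Agent.Lib.MP_d439b2_co.PW.Spec

/-!
# MP_d439b2_co, PW, Sq: connected paw-free graphs without triangles and with an induced `C_4`
-/

set_option autoImplicit false

namespace Pool.Agent.MPd439b2.PW

open Pool.Agent.MPd439b2
open Pool.Agent.MPd439b2.BU
open Pool.Agent.MPd439b2.HC

namespace SqAux

/-- four sets form a paw -/
theorem paw {V : Type} {G : SimpleGraph V} {K A B C D : Set V} (hK : QF G K) (hA : A ⊆ K) (hB : B ⊆ K)
    (hC : C ⊆ K) (hD : D ⊆ K) (cA : Conn G A) (cB : Conn G B) (cC : Conn G C) (cD : Conn G D)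
    (dBA : Disjoint B A) (dCA : Disjoint C A) (dCB : Disjoint C B) (dDA : Disjoint D A)
    (dDB : Disjoint D B) (dDC : Disjoint D C) (tBA : Tch G B A) (tCA : Tch G C A) (tCB : Tch G C B)
    (tDA : Tch G D A) (nDB : ¬ Tch G D B) (nDC : ¬ Tch G D C) : False := by
  refine hK (fun i => if i = 0 then A else if i = 1 then B else if i = 2 then C else D) ⟨?_, ?_, ?_, ?_⟩
  · intro i hi
    interval_cases i <;> simpa
  · intro i hi
    interval_cases i <;> simpa
  · intro i hi j hj
    interval_cases i <;> interval_cases j <;> simpa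
  · intro i hi j hj
    interval_cases i <;> interval_cases j
    · exact iff_of_true tBA (by decide)
    · exact iff_of_true tCA (by decide)
    · exact iff_of_true tCB (by decide)
    · exact iff_of_true tDA (by decide)
    · exact iff_of_false nDB (by decide)
    · exact iff_of_false nDC (by decide)

end SqAux

theorem pwSq : S_Sq := by
  intro V _ G K p hc hQ hT hp
  have ad := hp.2.2
  have h0 : ∀ i < 4, p i ∈ K := hp.1
  have hbase : CMp G (Vs 4 p) := by
    rintro _ ⟨i, hi, rfl⟩ _ ⟨j, hj, rfl⟩ _ ⟨k, hk, rfl⟩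
    rw [ad i hi j hj, ad j hj k hk, ad i hi k hk]
    omega
  have hfin : {M : Set V | Vs 4 p ⊆ M ∧ M ⊆ K ∧ CMp G M}.Finite := Set.toFinite _
  obtain ⟨M, hM⟩ := hfin.exists_maximal ⟨Vs 4 p, subset_rfl, by
    rintro _ ⟨i, hi, rfl⟩
    exact h0 i hi, hbase⟩
  obtain ⟨hM1, hM2, hM3⟩ := hM.1
  have hpM : ∀ i < 4, p i ∈ M := fun i hi => hM1 ⟨i, hi, rfl⟩
  by_contra hcon
  have hMK : M ≠ K := by
    rintro rfl
    exact hcon hM3
  obtain ⟨m, hm, z, ⟨hzK, hzM⟩, hmz⟩ := hc.2 M hM2 ⟨p 0, hpM 0 (by omega)⟩ hMK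
  have a01 : G.Adj (p 0) (p 1) := by rw [ad 0 (by omega) 1 (by omega)]; omega
  have a30 : G.Adj (p 3) (p 0) := by rw [ad 3 (by omega) 0 (by omega)]; omega
  have n02 : ¬ G.Adj (p 0) (p 2) := by rw [ad 0 (by omega) 2 (by omega)]; omega
  have n13 : ¬ G.Adj (p 1) (p 3) := by rw [ad 1 (by omega) 3 (by omega)]; omega
  have hs : ∀ {x y : V}, G.Adj x y → G.Adj y x := fun h => h.symm
  have m0 := hpM 0 (by omega)
  have m1 := hpM 1 (by omega)
  have m2 := hpM 2 (by omega)
  have m3 := hpM 3 (by omega)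
  -- the two types
  have htyp : ∀ x ∈ M, (G.Adj x (p 1) ∧ G.Adj x (p 3) ∧ ¬ G.Adj x (p 0)) ∨
      (G.Adj x (p 0) ∧ G.Adj x (p 2) ∧ ¬ G.Adj x (p 1)) := by
    intro x hx
    by_cases hx0 : G.Adj x (p 0)
    · right
      refine ⟨hx0, ?_, ?_⟩
      · by_contra h
        exact hM3 x hx (p 2) m2 (p 0) m0 h (fun h' => n02 (hs h')) hx0
      · intro h
        exact hT (p 0) (hM2 m0) (p 1) (hM2 m1) x (hM2 hx) a01 (hs hx0) (hs h)
    · left
      have hx1 : G.Adj x (p 1) := by
        by_contra h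
        exact hM3 (p 0) m0 x hx (p 1) m1 (fun h' => hx0 (hs h')) h a01
      refine ⟨hx1, ?_, hx0⟩
      by_contra h
      exact hM3 x hx (p 3) m3 (p 1) m1 h (fun h' => n13 (hs h')) hx1
  have h13 : p 1 ≠ p 3 := by
    intro h
    have := hp.2.1 1 (by omega) 3 (by omega) h
    omega
  have h02 : p 0 ≠ p 2 := by
    intro h
    have := hp.2.1 0 (by omega) 2 (by omega) h
    omega
  -- the paw
  have hpaw : ∀ b ∈ M, ∀ b' ∈ M, ∀ x ∈ M, b ≠ b' → x ≠ m → G.Adj m b → G.Adj m b' → G.Adj x b →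
      G.Adj x b' → ¬ G.Adj z x → False := by
    intro b hb b' hb' x hx hbb hxm hmb hmb' hxb hxb' hzx
    have hzb : ¬ G.Adj z b := fun h => hT m (hM2 hm) z hzK b (hM2 hb) hmz hmb h
    have hzb' : ¬ G.Adj z b' := fun h => hT m (hM2 hm) z hzK b' (hM2 hb') hmz hmb' h
    have hne : ∀ y ∈ M, z ≠ y := by
      rintro y hy rfl
      exact hzM hy
    refine SqAux.paw hQ (A := {m}) (B := {b}) (C := {b', x}) (D := {z})
      (Set.singleton_subset_iff.2 (hM2 hm)) (Set.singleton_subset_iff.2 (hM2 hb))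
      (Set.insert_subset (hM2 hb') (Set.singleton_subset_iff.2 (hM2 hx)))
      (Set.singleton_subset_iff.2 hzK) (Conn.singleton G m) (Conn.singleton G b)
      (Conn.pair (hs hxb')) (Conn.singleton G z) (Set.disjoint_singleton.2 hmb.ne') ?_ ?_
      (Set.disjoint_singleton.2 (hne m hm)) (Set.disjoint_singleton.2 (hne b hb)) ?_
      (tch_single.2 (hs hmb)) ⟨b', Or.inl rfl, m, rfl, hs hmb'⟩ ⟨x, Or.inr rfl, b, rfl, hxb⟩
      (tch_single.2 (hs hmz)) (fun h => hzb (tch_single.1 h)) ?_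
    · rw [Set.disjoint_singleton_right]
      rintro (h | h)
      · exact hmb'.ne h
      · exact hxm h.symm
    · rw [Set.disjoint_singleton_right]
      rintro (h | h)
      · exact hbb h
      · exact hxb.ne' h
    · rw [Set.disjoint_singleton_left]
      rintro (h | h)
      · exact hne b' hb' h
      · exact hne x hx h
    · rw [tch_single_left]
      rintro ⟨y, (h | h), hzy⟩
      · rw [h] at hzy
        exact hzb' hzy
      · rw [Set.mem_singleton_iff] at h
        rw [h] at hzy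
        exact hzx hzy
  have hz : ∀ x ∈ M, (G.Adj z x ↔ ¬ G.Adj x m) := by
    intro x hx
    constructor
    · intro h h'
      exact hT m (hM2 hm) z hzK x (hM2 hx) hmz (hs h') h
    · intro h
      by_cases hxm : x = m
      · rw [hxm]
        exact hs hmz
      by_contra hzx
      rcases htyp m hm with ⟨c1, c2, c3⟩ | ⟨c1, c2, c3⟩
      · have hx0 : ¬ G.Adj x (p 0) := hM3 x hx m hm (p 0) m0 h c3
        rcases htyp x hx with ⟨e1, e2, _⟩ | ⟨e1, _, _⟩
        · exact hpaw (p 1) m1 (p 3) m3 x hx h13 hxm c1 c2 e1 e2 hzx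
        · exact hx0 e1
      · have hx1 : ¬ G.Adj x (p 1) := hM3 x hx m hm (p 1) m1 h c3
        rcases htyp x hx with ⟨e1, _, _⟩ | ⟨e1, e2, _⟩
        · exact hx1 e1
        · exact hpaw (p 0) m0 (p 2) m2 x hx h02 hxm c1 c2 e1 e2 hzx
  have hins : CMp G (insert z M) := by
    have hA : ∀ b ∈ M, ∀ c ∈ M, ¬ G.Adj z b → ¬ G.Adj b c → ¬ G.Adj z c := by
      intro b hb c hc' h1 h2 h3
      have h4 : G.Adj b m := by
        by_contra h
        exact h1 ((hz b hb).2 h)
      exact hM3 b hb c hc' m hm h2 ((hz c hc').1 h3) h4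
    rintro a (rfl | ha) b (rfl | hb) c (rfl | hc')
    · exact fun h _ => h
    · exact fun _ h => h
    · intro _ _ h
      exact G.irrefl h
    · exact hA b hb c hc'
    · exact fun h _ => h
    · intro h1 h2 h3
      have e1 : G.Adj a m := by
        by_contra h
        exact h1 (hs ((hz a ha).2 h))
      have e2 : G.Adj c m := by
        by_contra h
        exact h2 ((hz c hc').2 h)
      exact hT a (hM2 ha) c (hM2 hc') m (hM2 hm) h3 e1 e2
    · intro h1 h2 h3
      exact hA b hb a ha (fun h => h2 (hs h)) (fun h => h1 (hs h)) (hs h3)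
    · exact hM3 a ha b hb c hc'
  have := hM.2 (y := insert z M) ⟨hM1.trans (Set.subset_insert z M), Set.insert_subset hzK hM2, hins⟩
    (Set.subset_insert z M)
  exact hzM (this (Set.mem_insert z M))

end Pool.Agent.MPd439b2.PW
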