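import Pool.Agent.Lib.MP_d439b2_co.PW.Spec

/-!
# MP_d439b2_co, PW: three of seven paths avoid a set with at most four elements
-/

set_option autoImplicit false

namespace Pool.Agent.MPd439b2.PW

open Pool.Agent.MPd439b2
open Pool.Agent.MPd439b2.BU
open Pool.Agent.MPd439b2.HC

/-- **Sub.** -/
theorem pwSub : S_Sub := by
  intro V _ G X C Q hN hC
  classical
  let A : Finset ℕ := (Finset.range 7).filter fun i => ∃ c ∈ C, c ∈ Vs 4 (Q i)
  let B : Finset ℕ := (Finset.range 7).filter fun i => ¬ ∃ c ∈ C, c ∈ Vs 4 (Q i)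
  have hAB : A.card + B.card = 7 := by
    have := Finset.card_filter_add_card_filter_not (s := Finset.range 7)
      (fun i => ∃ c ∈ C, c ∈ Vs 4 (Q i))
    rw [Finset.card_range] at this
    exact this
  have hA : A.card ≤ 4 := by
    have hch : ∀ i ∈ A, ∃ c ∈ C, c ∈ Vs 4 (Q i) := fun i hi => (Finset.mem_filter.mp hi).2
    have : Nonempty V := ⟨Q 0 0⟩
    choose! c hcC hcV using hch
    have hinj : Set.InjOn c (A : Set ℕ) := by
      intro i hi k hk hik
      by_contra hne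
      obtain ⟨j, hj, h1⟩ := hcV i hi
      obtain ⟨l, hl, h2⟩ := hcV k hk
      have hi7 : i < 7 := Finset.mem_range.mp (Finset.mem_filter.mp hi).1
      have hk7 : k < 7 := Finset.mem_range.mp (Finset.mem_filter.mp hk).1
      exact (hN.ne i hi7 k hk7 hne j hj l hl).1 (by rw [← h1, ← h2, hik])
    have h1 : (c '' (A : Set ℕ)).ncard = A.card := by
      rw [hinj.ncard_image, Set.ncard_coe_finset]
    have h2 : (c '' (A : Set ℕ)).ncard ≤ C.ncard := by
      refine Set.ncard_le_ncard ?_ (Set.toFinite C)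
      rintro x ⟨i, hi, rfl⟩
      exact hcC i hi
    omega
  have hB : 3 ≤ B.card := by omega
  obtain ⟨D, hDB, hD⟩ := Finset.exists_subset_card_eq hB
  let e := D.orderIsoOfFin hD
  let σ : ℕ → ℕ := fun i => if h : i < 3 then (e ⟨i, h⟩ : ℕ) else 0
  have hσB : ∀ i < 3, σ i ∈ B := by
    intro i hi
    have : σ i = (e ⟨i, hi⟩ : ℕ) := dif_pos hi
    rw [this]
    exact hDB (e ⟨i, hi⟩).2
  have hσ7 : ∀ i < 3, σ i < 7 := fun i hi =>
    Finset.mem_range.mp (Finset.mem_filter.mp (hσB i hi)).1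
  have hσi : ∀ i < 3, ∀ k < 3, i ≠ k → σ i ≠ σ k := by
    intro i hi k hk hne h
    have h1 : σ i = (e ⟨i, hi⟩ : ℕ) := dif_pos hi
    have h2 : σ k = (e ⟨k, hk⟩ : ℕ) := dif_pos hk
    rw [h1, h2] at h
    have h3 := e.injective (Subtype.ext h)
    exact hne (congrArg Fin.val h3)
  refine ⟨fun i => Q (σ i), ⟨fun i hi => hN.ip _ (hσ7 i hi), fun i hi k hk hne j hj l hl =>
    hN.ne _ (hσ7 i hi) _ (hσ7 k hk) (hσi i hi k hk hne) j hj l hl⟩, ?_⟩
  rintro c hc ⟨i, hi, j, hj, hcq⟩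
  exact (Finset.mem_filter.mp (hσB i hi)).2 ⟨c, hc, ⟨j, hj, hcq⟩⟩

end Pool.Agent.MPd439b2.PW
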