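import Pool.Agent.Lib.MP_d439b2_co.PW.Spec

set_option autoImplicit false

namespace Pool.Agent.MPd439b2.PW

open Pool.Agent.MPd439b2
open Pool.Agent.MPd439b2.BU
open Pool.Agent.MPd439b2.HC

namespace TriAux

variable {V : Type}

/-- there is no paw with vertices -/
theorem paw {G : SimpleGraph V} {K : Set V} (hK : QF G K) {a b c d : V} (ha : a ∈ K) (hb : b ∈ K)
    (hc : c ∈ K) (hd : d ∈ K) (ab : G.Adj a b) (ac : G.Adj a c) (bc : G.Adj b c) (da : G.Adj d a)
    (db : ¬ G.Adj d b) (dc : ¬ G.Adj d c) : False := by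
  have e1 : d ≠ b := fun h => dc (h ▸ bc)
  have e2 : d ≠ c := fun h => db (h ▸ bc.symm)
  have key : ∀ (p : ℕ → V), p 0 = a → p 1 = b → p 2 = c → p 3 = d → False := by
    intro p h0 h1 h2 h3
    refine hK (fun i => {p i}) ⟨?_, fun i _ => Conn.singleton G _, ?_, ?_⟩
    · intro i hi
      rw [Set.singleton_subset_iff]
      interval_cases i
      · rwa [h0]
      · rwa [h1]
      · rwa [h2]
      · rwa [h3]
    · intro i hi j hj
      rw [Set.disjoint_singleton]
      interval_cases i <;> interval_cases j <;> simp only [h0, h1, h2, h3] <;> first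
        | exact ab.ne.symm | exact ac.ne.symm | exact bc.ne.symm | exact da.ne | exact e1 | exact e2
    · intro i hi j hj
      rw [tch_single]
      interval_cases i <;> interval_cases j <;> simp only [h0, h1, h2, h3] <;> first
        | exact iff_of_true ab.symm (by decide)
        | exact iff_of_true ac.symm (by decide)
        | exact iff_of_true bc.symm (by decide)
        | exact iff_of_true da (by decide)
        | exact iff_of_false db (by decide)
        | exact iff_of_false dc (by decide)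
  exact key (fun i => if i = 0 then a else if i = 1 then b else if i = 2 then c else d)
    rfl rfl rfl rfl

end TriAux

open TriAux in
theorem pwTri : S_Tri := by
  intro V _ G K hconn hQ hT
  unfold NoT at hT
  push Not at hT
  obtain ⟨a, ha, b, hb, c, hc, hab, hac, hbc⟩ := hT
  -- a maximal complete multipartite set
  have hfin : {M : Set V | M ⊆ K ∧ CMp G M ∧ a ∈ M ∧ b ∈ M ∧ c ∈ M}.Finite := Set.toFinite _
  have h0 : ({a, b, c} : Set V) ∈ {M : Set V | M ⊆ K ∧ CMp G M ∧ a ∈ M ∧ b ∈ M ∧ c ∈ M} := by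
    refine ⟨?_, ?_, by simp, by simp, by simp⟩
    · rintro x (rfl | rfl | rfl)
      · exact ha
      · exact hb
      · exact hc
    · have hne : ∀ x ∈ ({a, b, c} : Set V), ∀ y ∈ ({a, b, c} : Set V), ¬ G.Adj x y → x = y := by
        rintro x (rfl | rfl | rfl) y (rfl | rfl | rfl) h
        · rfl
        · exact (h hab).elim
        · exact (h hac).elim
        · exact (h hab.symm).elim
        · rfl
        · exact (h hbc).elim
        · exact (h hac.symm).elim
        · exact (h hbc.symm).elim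
        · rfl
      intro x hx y hy z hz hxy hyz
      rw [hne x hx y hy hxy]
      exact hyz
  obtain ⟨M, hM⟩ := hfin.exists_maximal ⟨_, h0⟩
  obtain ⟨hMK, hMC, haM, hbM, hcM⟩ := hM.1
  by_contra hcon
  have hMne : M ≠ K := fun h => hcon (h ▸ hMC)
  obtain ⟨m, hm, z, hz, hmz⟩ := hconn.2 M hMK ⟨a, haM⟩ hMne
  have hzm : G.Adj z m := hmz.symm
  -- (0)
  have h0a : ∀ x ∈ M, (G.Adj x a ∧ G.Adj x b) ∨ (G.Adj x a ∧ G.Adj x c) ∨ (G.Adj x b ∧ G.Adj x c) := by
    intro x hx
    by_cases h1 : G.Adj x a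
    · by_cases h2 : G.Adj x b
      · exact Or.inl ⟨h1, h2⟩
      · by_cases h3 : G.Adj x c
        · exact Or.inr (Or.inl ⟨h1, h3⟩)
        · exact (hMC b hbM x hx c hcM (fun h => h2 h.symm) h3 hbc).elim
    · by_cases h2 : G.Adj x b
      · by_cases h3 : G.Adj x c
        · exact Or.inr (Or.inr ⟨h2, h3⟩)
        · exact (hMC a haM x hx c hcM (fun h => h1 h.symm) h3 hac).elim
      · exact (hMC a haM x hx b hbM (fun h => h1 h.symm) h2 hab).elim
  have h0t : ∀ x ∈ M, ∀ y ∈ M, ∃ t ∈ M, G.Adj t x ∧ G.Adj t y := by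
    intro x hx y hy
    rcases h0a x hx with h1 | h1 | h1 <;> rcases h0a y hy with h2 | h2 | h2
    · exact ⟨a, haM, h1.1.symm, h2.1.symm⟩
    · exact ⟨a, haM, h1.1.symm, h2.1.symm⟩
    · exact ⟨b, hbM, h1.2.symm, h2.1.symm⟩
    · exact ⟨a, haM, h1.1.symm, h2.1.symm⟩
    · exact ⟨a, haM, h1.1.symm, h2.1.symm⟩
    · exact ⟨c, hcM, h1.2.symm, h2.2.symm⟩
    · exact ⟨b, hbM, h1.1.symm, h2.2.symm⟩
    · exact ⟨c, hcM, h1.2.symm, h2.2.symm⟩
    · exact ⟨b, hbM, h1.1.symm, h2.1.symm⟩
  -- (1)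
  have h1a : ∀ x ∈ M, ∀ y ∈ M, ¬ G.Adj z x → ¬ G.Adj z y → G.Adj x y → G.Adj m x → False := by
    intro x hx y hy hzx hzy hxy hmx
    have hno : ∀ t ∈ M, G.Adj t x → G.Adj t y → ¬ G.Adj z t := fun t ht htx hty hzt =>
      paw hQ (hMK ht) (hMK hx) (hMK hy) hz.1 htx hty hxy hzt hzx hzy
    have hmy : ¬ G.Adj m y := fun h => hno m hm hmx h hzm
    obtain ⟨t, ht, htx, hty⟩ := h0t x hx y hy
    have htm : G.Adj t m := by
      by_contra h
      exact hMC t ht m hm y hy h hmy hty
    exact paw hQ (hMK hm) (hMK hx) (hMK ht) hz.1 hmx htm.symm htx.symm hzm hzx (hno t ht htx hty)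
  have h1 : ∀ x ∈ M, ∀ y ∈ M, ¬ G.Adj z x → ¬ G.Adj z y → ¬ G.Adj x y := by
    intro x hx y hy hzx hzy hxy
    by_cases hmx : G.Adj m x
    · exact h1a x hx y hy hzx hzy hxy hmx
    · by_cases hmy : G.Adj m y
      · exact h1a y hy x hx hzy hzx hxy.symm hmy
      · exact hMC x hx m hm y hy (fun h => hmx h.symm) hmy hxy
  -- (2)
  have h2 : ∀ x ∈ M, ∀ x' ∈ M, ¬ G.Adj z x → ¬ G.Adj x x' → ¬ G.Adj z x' := by
    intro x hx x' hx' hzx hxx' hzx'
    obtain ⟨t, ht, htx', -⟩ := h0t x' hx' x' hx'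
    have htx : G.Adj t x := by
      by_contra h
      exact hMC t ht x hx x' hx' h hxx' htx'
    have hzt : G.Adj z t := by
      by_contra h
      exact h1 x hx t ht hzx h htx.symm
    exact paw hQ (hMK ht) hz.1 (hMK hx') (hMK hx) hzt.symm htx' hzx' htx.symm
      (fun h => hzx h.symm) hxx'
  -- the larger set
  have h3 : CMp G (insert z M) := by
    intro x hx y hy w hw hxy hyw
    rcases hx with rfl | hx <;> rcases hy with rfl | hy <;> rcases hw with rfl | hw
    · exact hyw
    · exact hyw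
    · exact G.irrefl
    · exact h2 y hy w hw hxy hyw
    · exact hxy
    · exact h1 x hx w hw (fun h => hxy h.symm) hyw
    · exact fun h => h2 y hy x hx (fun h => hyw h.symm) (fun h => hxy h.symm) h.symm
    · exact hMC x hx y hy w hw hxy hyw
  have h4 := hM.2 (y := insert z M) ⟨Set.insert_subset hz.1 hMK, h3, Or.inr haM, Or.inr hbM,
    Or.inr hcM⟩ (Set.subset_insert z M)
  exact hz.2 (h4 (Set.mem_insert z M))

end Pool.Agent.MPd439b2.PW
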