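import Pool.Agent.Lib.MP_d439b2_co.PW.Miss
import Pool.Agent.Lib.MP_d439b2_co.PW.Tri
import Pool.Agent.Lib.MP_d439b2_co.PW.Hole
import Pool.Agent.Lib.MP_d439b2_co.PW.Sq
import Pool.Agent.Lib.MP_d439b2_co.PW.L4
import Pool.Agent.Lib.MP_d439b2_co.PW.LA
import Pool.Agent.Lib.MP_d439b2_co.PW.LB
import Pool.Agent.Lib.MP_d439b2_co.PW.LC
import Pool.Agent.Lib.MP_d439b2_co.PW.LD0
import Pool.Agent.Lib.MP_d439b2_co.PW.Sub
import Pool.Agent.Lib.MP_d439b2_co.PW.LD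
import Pool.Agent.Lib.MP_d439b2_co.PW.Leaf
import Pool.Agent.Lib.MP_d439b2_co.PW.LF
import Pool.Agent.Lib.MP_d439b2_co.PW.Add
import Pool.Agent.Lib.MP_d439b2_co.PW.LE
import Pool.Agent.Lib.MP_d439b2_co.PW.Dia
import Pool.Agent.Lib.MP_d439b2_co.PW.Fam
import Pool.Agent.Lib.MP_d439b2_co.PW.Hm
import Pool.Agent.Lib.MP_d439b2_co.PW.Res
import Pool.Agent.Lib.MP_d439b2_co.PW.PW
import Pool.Agent.Lib.MP_d439b2_co.PW.Cor
import Pool.Agent.Lib.MP_d439b2_co.FK.T1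
import Pool.Agent.Lib.MP_d439b2_co.FK.T2
import Pool.Agent.Lib.MP_d439b2_co.HC.S1
import Pool.Agent.Lib.MP_d439b2_co.HC.S2
import Pool.Agent.Lib.MP_d439b2_co.HC.S3
import Pool.Agent.Lib.MP_d439b2_co.HC.S4
import Pool.Agent.Lib.MP_d439b2_co.HC.S5
import Pool.Agent.Lib.MP_d439b2_co.HC.S7
import Pool.Agent.Lib.MP_d439b2_co.HC.S8
import Pool.Agent.Lib.MP_d439b2_co.BU.B5
import Pool.Agent.Lib.MP_d439b2_co.BU.R1
import Pool.Agent.Lib.MP_d439b2_co.BU.R2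
import Pool.Agent.Lib.MP_d439b2_co.BU.R3
import Pool.Agent.Lib.MP_d439b2_co.BU.R5
import Pool.Agent.Lib.MP_d439b2_co.KS.Y8
import Pool.Agent.Lib.MP_d439b2_co.LayCW
import Pool.Agent.Lib.MP_d439b2_co.W.RamC

/-!
# MP_d439b2_co, PW: the base `paw + P_1`, without hypotheses (helper90)
-/

set_option autoImplicit false

namespace Pool.Agent.MPd439b2.PW

open Pool.Agent.MPd439b2

theorem missF : S_Miss := pwMiss

theorem holeF : S_Hole := pwHole BU.b5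

theorem l4F : S_L4 := pwL4 missF pwTri holeF pwSq

theorem laF : S_LA := pwLA missF holeF

theorem lbF : S_LB := pwLB laF l4F

theorem lcF : S_LC := pwLC lbF missF pwTri

theorem ldF : S_LD := pwLD pwSub lcF (pwLD0 lcF l4F) l4F

theorem lfF : S_LF := pwLF pwLeaf (HC.s7 (HC.s4 HC.s1 HC.s2 HC.s3) HC.s5) HC.s8 BU.r5

theorem leF : S_LE := pwLE lfF pwAdd pwLeaf missF holeF

/-- **Theorem PW.** -/
theorem pwF' : S_PW := pwPW pwFam (pwHm W.ramC) pwRes ldF leF pwDia pwAdd (BU.r2 BU.r1)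

/-- **THEOREM.** If `(K_2 + 2 K_1, J)` has bounded clique-width and all graphs with the pattern `PatJ` of length
`T` contain `J`, then `(paw + P_1, J)` has bounded clique-width. -/
theorem pawF (W : Type) (J : SimpleGraph W) (T : ℕ)
    (hJ : ∀ (V : Type) (G : SimpleGraph V) (X : Set V), PatJ G X T → IMS J G X)
    (hb : BoundedCW (KA 2 2 ![∅, ∅]) J) : BoundedCW (KA 3 2 ![{0}, ∅]) J :=
  cor pwF' FK.fT1 KS.pY8 FK.fT2 (BU.r2 BU.r1) BU.r3 layCW W J T hJ hb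

/-- **THEOREM.** For all `s`, `t`: if `(K_2 + 2 K_1, K_s ∨ co(P_3 + t P_2))` has bounded clique-width then so
has `(paw + P_1, K_s ∨ co(P_3 + t P_2))`. -/
theorem pawKCoF (s t : ℕ) (hb : BoundedCW (KA 2 2 ![∅, ∅]) (W.KCo s (PT t))) :
    BoundedCW (KA 3 2 ![{0}, ∅]) (W.KCo s (PT t)) :=
  corKCo pwF' FK.fT1 KS.pY8 FK.fT2 (BU.r2 BU.r1) BU.r3 layCW s t hb

end Pool.Agent.MPd439b2.PW
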