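import Pool.Agent.Lib.MP_d439b2_co.PW.Spec

/-!
# MP_d439b2_co, PW, LD: prime graphs with seven non-touching paths have no triangles and no `C_4`
-/

set_option autoImplicit false

namespace Pool.Agent.MPd439b2.PW

open Pool.Agent.MPd439b2
open Pool.Agent.MPd439b2.BU
open Pool.Agent.MPd439b2.HC

namespace LDAux

variable {V : Type} {G : SimpleGraph V}

private theorem vs4 (q : ℕ → V) : Vs 4 q = {q 3, q 2, q 1, q 0} := by
  ext x
  constructor
  · rintro ⟨i, hi, rfl⟩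
    interval_cases i
    · exact Or.inr (Or.inr (Or.inr rfl))
    · exact Or.inr (Or.inr (Or.inl rfl))
    · exact Or.inr (Or.inl rfl)
    · exact Or.inl rfl
  · rintro (rfl | rfl | rfl | rfl)
    · exact ⟨3, by omega, rfl⟩
    · exact ⟨2, by omega, rfl⟩
    · exact ⟨1, by omega, rfl⟩
    · exact ⟨0, by omega, rfl⟩

private theorem conn4 {q : ℕ → V} (h0 : G.Adj (q 0) (q 1)) (h1 : G.Adj (q 1) (q 2))
    (h2 : G.Adj (q 2) (q 3)) : Conn G (Vs 4 q) := by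
  rw [vs4]
  exact ((Conn.pair h0.symm).insert ⟨q 1, Or.inl rfl, h1⟩).insert ⟨q 2, Or.inl rfl, h2⟩

private theorem conn_ip {X : Set V} {q : ℕ → V} (h : IP G X 4 q) : Conn G (Vs 4 q) :=
  conn4 ((h.2.2 0 (by omega) 1 (by omega)).2 (by omega))
    ((h.2.2 1 (by omega) 2 (by omega)).2 (by omega))
    ((h.2.2 2 (by omega) 3 (by omega)).2 (by omega))

private theorem ip_sub {X K : Set V} {q : ℕ → V} (h : IP G X 4 q) (hK : Vs 4 q ⊆ K) :
    IP G K 4 q := ⟨fun i hi => hK ⟨i, hi, rfl⟩, h.2⟩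

/-- if `Q i j` misses `C` then `C` touches no other path -/
private theorem noTouch (h4 : S_L4) [Finite V] {X C : Set V} {Q : ℕ → ℕ → V}
    (hP : PF G X) (hQ : NT G X 3 Q) (hCX : C ⊆ X) (hC : Conn G C)
    (hbad : ¬ NoT G C ∨ ∃ p, IC G C 4 p) (hdis : ∀ c ∈ C, c ∉ Vn 3 Q) {i j : ℕ} (hi : i < 3)
    (hj : j < 4) (hm : ∀ c ∈ C, ¬ G.Adj (Q i j) c) {k : ℕ} (hk : k < 3) (hik : i ≠ k) :
    ∀ c ∈ C, ∀ l < 4, ¬ G.Adj c (Q k l) := by
  intro c hc l hl hadj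
  have hK : Conn G (C ∪ Vs 4 (Q k)) :=
    hC.union (conn_ip (hQ.ip k hk)) (Or.inr ⟨c, hc, Q k l, ⟨l, hl, rfl⟩, hadj⟩)
  have hMs : Ms G (Q i j) (C ∪ Vs 4 (Q k)) := by
    rintro x (hx | ⟨m, hmm, rfl⟩)
    · exact ⟨fun h => hdis x hx ⟨i, hi, j, hj, h⟩, hm x hx⟩
    · have := hQ.ne i hi k hk hik j hj m hmm
      exact ⟨this.1.symm, this.2⟩
  have hKX : C ∪ Vs 4 (Q k) ⊆ X := by
    rintro x (hx | ⟨m, hmm, rfl⟩)
    · exact hCX hx
    · exact (hQ.ip k hk).1 m hmm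
  obtain ⟨hN, hI⟩ := h4 V G X (C ∪ Vs 4 (Q k)) (Q i j) (Q k) hP ((hQ.ip i hi).1 j hj) hKX hMs hK
    (ip_sub (hQ.ip k hk) Set.subset_union_right)
  rcases hbad with h | ⟨p, hp⟩
  · exact h fun a ha b hb c hc => hN a (Or.inl ha) b (Or.inl hb) c (Or.inl hc)
  · have := (hI 4 p le_rfl ⟨fun i hi => Or.inl (hp.1 i hi), hp.2⟩).1
    omega

/-- no vertex of the paths misses `C` -/
private theorem noMiss (h3 : S_LD0) (h4 : S_L4) [Finite V] {X C : Set V} {Q : ℕ → ℕ → V}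
    (hX : Prm G X) (hP : PF G X) (hQ : NT G X 3 Q) (hCX : C ⊆ X) (hC : Conn G C)
    (hbad : ¬ NoT G C ∨ ∃ p, IC G C 4 p) (hdis : ∀ c ∈ C, c ∉ Vn 3 Q) {i j : ℕ} (hi : i < 3)
    (hj : j < 4) (hm : ∀ c ∈ C, ¬ G.Adj (Q i j) c) : False := by
  have hA := fun (k : ℕ) (hk : k < 3) (hik : i ≠ k) =>
    noTouch h4 hP hQ hCX hC hbad hdis hi hj hm hk hik
  obtain ⟨k, hk, hik⟩ : ∃ k, k < 3 ∧ i ≠ k := by
    by_cases h : i = 0
    · exact ⟨1, by omega, by omega⟩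
    · exact ⟨0, by omega, h⟩
  have hB := noTouch h4 hP hQ hCX hC hbad hdis (i := k) (j := 0) hk (by omega)
    (fun c hc h => hA k hk hik c hc 0 (by omega) h.symm) hi hik.symm
  obtain ⟨c, hc, h⟩ := h3 V G X C 3 Q hX hP hQ le_rfl hCX hC hbad
  rcases h with h | ⟨v, ⟨a, ha, b, hb, rfl⟩, h⟩
  · exact hdis c hc h
  · by_cases e : i = a
    · subst e
      exact hB c hc b hb h
    · exact hA a ha e c hc b hb h

private theorem pig (A B C : ℕ → Prop) (hA : ∀ j < 4, ∀ l < 4, A j → A l → j = l)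
    (hB : ∀ j < 4, ∀ l < 4, B j → B l → j = l) (hC : ∀ j < 4, ∀ l < 4, C j → C l → j = l) :
    ∃ j < 4, ¬ A j ∧ ¬ B j ∧ ¬ C j := by
  have key : ∀ A : ℕ → Prop, (∀ j < 4, ∀ l < 4, A j → A l → j = l) → ∃ a, ∀ j < 4, A j → j = a := by
    intro A hA
    by_cases h : ∃ a < 4, A a
    · obtain ⟨a, ha, h⟩ := h
      exact ⟨a, fun j hj hAj => hA j hj a ha hAj h⟩
    · exact ⟨0, fun j hj hAj => absurd ⟨j, hj, hAj⟩ h⟩
  obtain ⟨a, ha⟩ := key A hA
  obtain ⟨b, hb⟩ := key B hB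
  obtain ⟨c, hc⟩ := key C hC
  obtain ⟨j, hj, h1, h2, h3⟩ : ∃ j < 4, j ≠ a ∧ j ≠ b ∧ j ≠ c := by
    by_contra hcon
    have h0 : ¬ (0 ≠ a ∧ 0 ≠ b ∧ 0 ≠ c) := fun h => hcon ⟨0, by omega, h⟩
    have h1 : ¬ (1 ≠ a ∧ 1 ≠ b ∧ 1 ≠ c) := fun h => hcon ⟨1, by omega, h⟩
    have h2 : ¬ (2 ≠ a ∧ 2 ≠ b ∧ 2 ≠ c) := fun h => hcon ⟨2, by omega, h⟩
    have h3 : ¬ (3 ≠ a ∧ 3 ≠ b ∧ 3 ≠ c) := fun h => hcon ⟨3, by omega, h⟩
    omega
  exact ⟨j, hj, fun h => h1 (ha j hj h), fun h => h2 (hb j hj h), fun h => h3 (hc j hj h)⟩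

/-- no triangles -/
private theorem noTri (h1 : S_Sub) (h2 : S_LC) (h3 : S_LD0) (h4 : S_L4) [Finite V] {X : Set V}
    {Q : ℕ → ℕ → V} (hX : Prm G X) (hP : PF G X) (hQ : NT G X 7 Q) : NoT G X := by
  intro a ha b hb c hc hab hac hbc
  have hcard : ({a, b, c} : Set V).ncard ≤ 4 := by
    have e1 := Set.ncard_insert_le a ({b, c} : Set V)
    have e2 := Set.ncard_insert_le b ({c} : Set V)
    have e3 := Set.ncard_singleton c
    omega
  obtain ⟨Q', hQ', hdis⟩ := h1 V G X {a, b, c} Q hQ hcard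
  have hCX : ({a, b, c} : Set V) ⊆ X := by
    rintro x (rfl | rfl | rfl)
    · exact ha
    · exact hb
    · exact hc
  have hT : ∀ x ∈ ({a, b, c} : Set V), Th G 3 Q' x := fun x hx =>
    h2 V G X 3 Q' x hX hP hQ' le_rfl (hCX hx) (hdis x hx)
  obtain ⟨j, hj, h5, h6, h7⟩ := pig (fun j => G.Adj a (Q' 0 j)) (fun j => G.Adj b (Q' 0 j))
    (fun j => G.Adj c (Q' 0 j)) (hT a (Or.inl rfl) 0 (by omega))
    (hT b (Or.inr (Or.inl rfl)) 0 (by omega)) (hT c (Or.inr (Or.inr rfl)) 0 (by omega))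
  have hconn : Conn G ({a, b, c} : Set V) := (Conn.pair hbc).insert ⟨b, Or.inl rfl, hab.symm⟩
  refine noMiss h3 h4 hX hP hQ' hCX hconn (Or.inl fun h => ?_) hdis (i := 0) (j := j) (by omega) hj
    ?_
  · exact h a (Or.inl rfl) b (Or.inr (Or.inl rfl)) c (Or.inr (Or.inr rfl)) hab hac hbc
  · rintro x (rfl | rfl | rfl) h
    · exact h5 h.symm
    · exact h6 h.symm
    · exact h7 h.symm

/-- the induced cycle `c, q j, .., q j', c'` -/
private theorem cyc {X K : Set V} {q : ℕ → V} (hq : IP G X 4 q) (hK : Vs 4 q ⊆ K) {c c' : V}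
    (hc : c ∈ K) (hc' : c' ∈ K) (hcc : G.Adj c c') (h1 : c ∉ Vs 4 q) (h2 : c' ∉ Vs 4 q) {j j' : ℕ}
    (hj : j < j') (hj' : j' < 4) (h3 : ∀ l < 4, (G.Adj c (q l) ↔ l = j))
    (h4 : ∀ l < 4, (G.Adj c' (q l) ↔ l = j')) (p : ℕ → V) (p0 : p 0 = c)
    (p1 : p (j' - j + 2) = c') (p2 : ∀ a, a ≠ 0 → a ≠ j' - j + 2 → p a = q (j + a - 1)) :
    IC G K (j' - j + 3) p := by
  have key : ∀ a, a < j' - j + 3 → a = 0 ∨ a = j' - j + 2 ∨ (a ≠ 0 ∧ a ≠ j' - j + 2 ∧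
      j + a - 1 < 4) := fun a ha => by omega
  refine ⟨?_, ?_, ?_⟩
  · intro a ha
    rcases key a ha with h | h | ⟨h, h', h''⟩
    · rw [h, p0]
      exact hc
    · rw [h, p1]
      exact hc'
    · rw [p2 a h h']
      exact hK ⟨_, h'', rfl⟩
  · intro a ha b hb hab
    rcases key a ha with h | h | ⟨h, h', h''⟩ <;> rcases key b hb with g | g | ⟨g, g', g''⟩
    · omega
    · exfalso
      rw [h, g, p0, p1] at hab
      exact hcc.ne hab
    · exfalso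
      rw [h, p0, p2 b g g'] at hab
      exact h1 ⟨_, g'', hab⟩
    · exfalso
      rw [h, g, p0, p1] at hab
      exact hcc.ne hab.symm
    · omega
    · exfalso
      rw [h, p1, p2 b g g'] at hab
      exact h2 ⟨_, g'', hab⟩
    · exfalso
      rw [g, p0, p2 a h h'] at hab
      exact h1 ⟨_, h'', hab.symm⟩
    · exfalso
      rw [g, p1, p2 a h h'] at hab
      exact h2 ⟨_, h'', hab.symm⟩
    · rw [p2 a h h', p2 b g g'] at hab
      have := hq.2.1 _ h'' _ g'' hab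
      omega
  · intro a ha b hb
    rcases key a ha with h | h | ⟨h, h', h''⟩ <;> rcases key b hb with g | g | ⟨g, g', g''⟩
    · subst h
      subst g
      exact iff_of_false (G.loopless.irrefl _) (by omega)
    · subst h
      subst g
      rw [p0, p1]
      exact iff_of_true hcc (by omega)
    · subst h
      rw [p0, p2 b g g', h3 _ g'']
      omega
    · subst h
      subst g
      rw [p0, p1]
      exact iff_of_true hcc.symm (by omega)
    · subst h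
      subst g
      exact iff_of_false (G.loopless.irrefl _) (by omega)
    · subst h
      rw [p1, p2 b g g', h4 _ g'']
      omega
    · subst g
      rw [p0, p2 a h h', G.adj_comm, h3 _ h'']
      omega
    · subst g
      rw [p1, p2 a h h', G.adj_comm, h4 _ h'']
      omega
    · rw [p2 a h h', p2 b g g', hq.2.2 _ h'' _ g'']
      omega

/-- four positions, each with a neighbour, and four vertices with at most one neighbour each -/
private theorem bij {R : ℕ → ℕ → Prop} (hR : ∀ j < 4, ∃ m < 4, R m j)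
    (hT : ∀ m < 4, ∀ j < 4, ∀ l < 4, R m j → R m l → j = l) :
    (∀ m < 4, ∃ j < 4, ∀ l < 4, (R m l ↔ l = j)) ∧
      ∀ j < 4, ∀ m < 4, ∀ m' < 4, R m j → R m' j → m = m' := by
  choose! f hf using hR
  have hinj : ∀ j < 4, ∀ l < 4, f j = f l → j = l := fun j hj l hl h =>
    hT (f j) (hf j hj).1 j hj l hl (hf j hj).2 (h ▸ (hf l hl).2)
  have hsurj : ∀ m < 4, ∃ j < 4, f j = m := by
    intro m hm
    have a0 := (hf 0 (by omega)).1
    have a1 := (hf 1 (by omega)).1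
    have a2 := (hf 2 (by omega)).1
    have a3 := (hf 3 (by omega)).1
    have b01 : f 0 ≠ f 1 := fun h => absurd (hinj 0 (by omega) 1 (by omega) h) (by omega)
    have b02 : f 0 ≠ f 2 := fun h => absurd (hinj 0 (by omega) 2 (by omega) h) (by omega)
    have b03 : f 0 ≠ f 3 := fun h => absurd (hinj 0 (by omega) 3 (by omega) h) (by omega)
    have b12 : f 1 ≠ f 2 := fun h => absurd (hinj 1 (by omega) 2 (by omega) h) (by omega)
    have b13 : f 1 ≠ f 3 := fun h => absurd (hinj 1 (by omega) 3 (by omega) h) (by omega)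
    have b23 : f 2 ≠ f 3 := fun h => absurd (hinj 2 (by omega) 3 (by omega) h) (by omega)
    by_contra hcon
    have c0 : f 0 ≠ m := fun h => hcon ⟨0, by omega, h⟩
    have c1 : f 1 ≠ m := fun h => hcon ⟨1, by omega, h⟩
    have c2 : f 2 ≠ m := fun h => hcon ⟨2, by omega, h⟩
    have c3 : f 3 ≠ m := fun h => hcon ⟨3, by omega, h⟩
    omega
  have hval : ∀ m < 4, ∃ j < 4, ∀ l < 4, (R m l ↔ l = j) := by
    intro m hm
    obtain ⟨j, hj, rfl⟩ := hsurj m hm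
    refine ⟨j, hj, fun l hl => ⟨fun h => hT (f j) hm l hl j hj h (hf j hj).2, ?_⟩⟩
    rintro rfl
    exact (hf l hl).2
  refine ⟨hval, fun j hj m hm m' hm' h h' => ?_⟩
  obtain ⟨a, ha, e⟩ := hsurj m hm
  obtain ⟨b, hb, e'⟩ := hsurj m' hm'
  have e1 : a = j := hT m hm a ha j hj (e ▸ (hf a ha).2) h
  have e2 : b = j := hT m' hm' b hb j hj (e' ▸ (hf b hb).2) h'
  rw [← e, ← e', e1, e2]

/-- no induced `C_4` -/
private theorem noSq (h1 : S_Sub) (h2 : S_LC) (h3 : S_LD0) (h4 : S_L4) [Finite V] {X : Set V}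
    {Q : ℕ → ℕ → V} (hX : Prm G X) (hP : PF G X) (hQ : NT G X 7 Q) (hN : NoT G X) (p : ℕ → V)
    (hp : IC G X 4 p) : False := by
  have hcard : (Vs 4 p).ncard ≤ 4 := by
    rw [vs4]
    have e0 := Set.ncard_insert_le (p 3) ({p 2, p 1, p 0} : Set V)
    have e1 := Set.ncard_insert_le (p 2) ({p 1, p 0} : Set V)
    have e2 := Set.ncard_insert_le (p 1) ({p 0} : Set V)
    have e3 := Set.ncard_singleton (p 0)
    omega
  obtain ⟨Q', hQ', hdis⟩ := h1 V G X (Vs 4 p) Q hQ hcard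
  have hCX : Vs 4 p ⊆ X := by
    rintro x ⟨m, hm, rfl⟩
    exact hp.1 m hm
  have hT : ∀ m < 4, Th G 3 Q' (p m) := fun m hm =>
    h2 V G X 3 Q' (p m) hX hP hQ' le_rfl (hp.1 m hm) (hdis _ ⟨m, hm, rfl⟩)
  have hadj : ∀ a < 4, ∀ b < 4, (a + 1 = b ∨ b + 1 = a ∨ (a = 0 ∧ b + 1 = 4) ∨
      (b = 0 ∧ a + 1 = 4)) → G.Adj (p a) (p b) := fun a ha b hb h => (hp.2.2 a ha b hb).2 h
  have hconn : Conn G (Vs 4 p) := conn4 (hadj 0 (by omega) 1 (by omega) (by omega))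
    (hadj 1 (by omega) 2 (by omega) (by omega)) (hadj 2 (by omega) 3 (by omega) (by omega))
  have hbad : ¬ NoT G (Vs 4 p) ∨ ∃ p', IC G (Vs 4 p) 4 p' :=
    Or.inr ⟨p, fun i hi => ⟨i, hi, rfl⟩, hp.2⟩
  have hnb : ∀ i < 3, ∀ j < 4, ∃ m < 4, G.Adj (p m) (Q' i j) := by
    intro i hi j hj
    by_contra hcon
    refine noMiss h3 h4 hX hP hQ' hCX hconn hbad hdis hi hj ?_
    rintro x ⟨m, hm, rfl⟩ h
    exact hcon ⟨m, hm, h.symm⟩
  have hb := fun (i : ℕ) (hi : i < 3) => bij (R := fun m j => G.Adj (p m) (Q' i j)) (hnb i hi)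
    (fun m hm => hT m hm i hi)
  obtain ⟨m₀, hm₀, h0⟩ := hnb 0 (by omega) 0 (by omega)
  obtain ⟨m, m', m'', hm, hm', hm'', hc1, hc2, e1, e2, e3, e4, e5⟩ : ∃ m m' m'', m < 4 ∧ m' < 4 ∧
      m'' < 4 ∧ G.Adj (p m) (p m') ∧ G.Adj (p m') (p m'') ∧ m ≠ m₀ ∧ m' ≠ m₀ ∧ m'' ≠ m₀ ∧
      m'' ≠ m ∧ m'' ≠ m' := by
    rcases (show m₀ = 0 ∨ m₀ = 1 ∨ m₀ = 2 ∨ m₀ = 3 by omega) with h | h | h | h
    · exact ⟨1, 2, 3, by omega, by omega, by omega, hadj _ (by omega) _ (by omega) (by omega),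
        hadj _ (by omega) _ (by omega) (by omega), by omega, by omega, by omega, by omega,
        by omega⟩
    · exact ⟨2, 3, 0, by omega, by omega, by omega, hadj _ (by omega) _ (by omega) (by omega),
        hadj _ (by omega) _ (by omega) (by omega), by omega, by omega, by omega, by omega,
        by omega⟩
    · exact ⟨3, 0, 1, by omega, by omega, by omega, hadj _ (by omega) _ (by omega) (by omega),
        hadj _ (by omega) _ (by omega) (by omega), by omega, by omega, by omega, by omega,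
        by omega⟩
    · exact ⟨0, 1, 2, by omega, by omega, by omega, hadj _ (by omega) _ (by omega) (by omega),
        hadj _ (by omega) _ (by omega) (by omega), by omega, by omega, by omega, by omega,
        by omega⟩
  have hw : ∀ n < 4, n ≠ m₀ → ¬ G.Adj (Q' 0 0) (p n) := fun n hn hne h =>
    hne ((hb 0 (by omega)).2 0 (by omega) n hn m₀ hm₀ h.symm h0)
  obtain ⟨j, hj, hjl⟩ := (hb 1 (by omega)).1 m hm
  obtain ⟨j', hj', hjl'⟩ := (hb 1 (by omega)).1 m' hm'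
  have hq := hQ'.ip 1 (by omega)
  have hsub : Vs 4 (Q' 1) ⊆ X := by
    rintro x ⟨l, hl, rfl⟩
    exact hq.1 l hl
  have hjj : j ≠ j' := by
    rintro rfl
    exact hN (p m) (hp.1 m hm) (p m') (hp.1 m' hm') (Q' 1 j) (hq.1 j hj) hc1 ((hjl j hj).2 rfl)
      ((hjl' j hj).2 rfl)
  have hout : ∀ n < 4, p n ∉ Vs 4 (Q' 1) := by
    rintro n hn ⟨l, hl, h⟩
    exact hdis (p n) ⟨n, hn, rfl⟩ ⟨1, by omega, l, hl, h⟩
  have hMs : Ms G (Q' 0 0) (({p m, p m', p m''} : Set V) ∪ Vs 4 (Q' 1)) := by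
    have hne0 : ∀ n < 4, p n ≠ Q' 0 0 := fun n hn h =>
      hdis (p n) ⟨n, hn, rfl⟩ ⟨0, by omega, 0, by omega, h⟩
    rintro x ((rfl | rfl | rfl) | ⟨l, hl, rfl⟩)
    · exact ⟨hne0 m hm, hw m hm e1⟩
    · exact ⟨hne0 m' hm', hw m' hm' e2⟩
    · exact ⟨hne0 m'' hm'', hw m'' hm'' e3⟩
    · have := hQ'.ne 0 (by omega) 1 (by omega) (by omega) 0 (by omega) l hl
      exact ⟨this.1.symm, this.2⟩
  have hKX : ({p m, p m', p m''} : Set V) ∪ Vs 4 (Q' 1) ⊆ X := by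
    rintro x ((rfl | rfl | rfl) | hx)
    · exact hp.1 m hm
    · exact hp.1 m' hm'
    · exact hp.1 m'' hm''
    · exact hsub hx
  have hKc : Conn G (({p m, p m', p m''} : Set V) ∪ Vs 4 (Q' 1)) :=
    ((Conn.pair hc2).insert ⟨p m', Or.inl rfl, hc1.symm⟩).union (conn_ip hq)
      (Or.inr ⟨p m, Or.inl rfl, Q' 1 j, ⟨j, hj, rfl⟩, (hjl j hj).2 rfl⟩)
  obtain ⟨-, hI⟩ := h4 V G X _ (Q' 0 0) (Q' 1) hP ((hQ'.ip 0 (by omega)).1 0 (by omega)) hKX hMs
    hKc (ip_sub hq Set.subset_union_right)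
  have hfin : ∀ (a b : V) (i i' : ℕ), a ∉ Vs 4 (Q' 1) → b ∉ Vs 4 (Q' 1) → p m'' ≠ a →
      p m'' ≠ b → i < i' → i' < 4 →
      IC G (({p m, p m', p m''} : Set V) ∪ Vs 4 (Q' 1)) (i' - i + 3)
        (fun t => if t = 0 then a else if t = i' - i + 2 then b else Q' 1 (i + t - 1)) → False := by
    intro a b i i' _ _ ha hb hii hi' hcyc
    obtain ⟨-, hK⟩ := hI _ _ (by omega) hcyc
    have hmem : p m'' ∈ (({p m, p m', p m''} : Set V) ∪ Vs 4 (Q' 1)) :=
      Or.inl (Or.inr (Or.inr rfl))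
    rw [hK] at hmem
    obtain ⟨t, ht, h⟩ := hmem
    by_cases ht0 : t = 0
    · simp only [if_pos ht0] at h
      exact ha h
    · by_cases ht1 : t = i' - i + 2
      · simp only [if_neg ht0, if_pos ht1] at h
        exact hb h
      · simp only [if_neg ht0, if_neg ht1] at h
        exact hout m'' hm'' ⟨i + t - 1, by omega, h⟩
  have hd1 : p m'' ≠ p m := fun h => e4 (hp.2.1 _ hm'' _ hm h)
  have hd2 : p m'' ≠ p m' := fun h => e5 (hp.2.1 _ hm'' _ hm' h)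
  rcases Nat.lt_or_gt_of_ne hjj with h | h
  · exact hfin (p m) (p m') j j' (hout m hm) (hout m' hm') hd1 hd2 h hj'
      (cyc hq Set.subset_union_right (Or.inl (Or.inl rfl)) (Or.inl (Or.inr (Or.inl rfl))) hc1
        (hout m hm) (hout m' hm') h hj' hjl hjl' _ rfl (by simp) fun t ht ht' => by
          simp only [if_neg ht, if_neg ht'])
  · exact hfin (p m') (p m) j' j (hout m' hm') (hout m hm) hd2 hd1 h hj
      (cyc hq Set.subset_union_right (Or.inl (Or.inr (Or.inl rfl))) (Or.inl (Or.inl rfl)) hc1.symm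
        (hout m' hm') (hout m hm) h hj hjl' hjl _ rfl (by simp) fun t ht ht' => by
          simp only [if_neg ht, if_neg ht'])

end LDAux

theorem pwLD (h1 : S_Sub) (h2 : S_LC) (h3 : S_LD0) (h4 : S_L4) : S_LD := by
  intro V _ G X Q hX hP hQ
  have hN := LDAux.noTri h1 h2 h3 h4 hX hP hQ
  exact ⟨hN, fun p hp => LDAux.noSq h1 h2 h3 h4 hX hP hQ hN p hp⟩

end Pool.Agent.MPd439b2.PW
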