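import Pool.Agent.Lib.MP_d439b2_co.PW.Spec

/-!
# MP_d439b2_co, PW: the statement `S_Miss`
-/

set_option autoImplicit false

namespace Pool.Agent.MPd439b2.PW

open Pool.Agent.MPd439b2
open Pool.Agent.MPd439b2.BU
open Pool.Agent.MPd439b2.HC

theorem pwMiss : S_Miss := by
  intro V G X K w hPF hw hK hMs S hS
  refine hPF (fun i => if i < 4 then S i else {w}) ⟨?_, ?_, ?_, ?_⟩
  · intro i hi
    by_cases h : i < 4
    · simp only [h, if_true]; exact (hS.sub i h).trans hK
    · simp only [h, if_false]; intro x hx; rw [Set.mem_singleton_iff.1 hx]; exact hw
  · intro i hi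
    by_cases h : i < 4
    · simp only [h, if_true]; exact hS.conn i h
    · simp only [h, if_false]; exact Conn.singleton G w
  · intro i hi j hj
    by_cases h : i < 4
    · have h' : j < 4 := by omega
      simp only [h, h', if_true]; exact hS.dis i h j hj
    · have h' : j < 4 := by omega
      simp only [h, h', if_true, if_false]
      rw [Set.disjoint_left]
      intro x hx hx'
      rw [Set.mem_singleton_iff.1 hx] at hx'
      exact (hMs w (hS.sub j h' hx')).1 rfl
  · intro i hi j hj
    by_cases h : i < 4
    · have h' : j < 4 := by omega
      simp only [h, h', if_true]; exact hS.tch i h j hj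
    · have h' : j < 4 := by omega
      have hi4 : i = 4 := by omega
      subst hi4
      simp only [h, h', if_true, if_false]
      have hr : rP 4 j = false := by
        have : j = 0 ∨ j = 1 ∨ j = 2 ∨ j = 3 := by omega
        rcases this with rfl | rfl | rfl | rfl <;> rfl
      rw [hr]
      constructor
      · intro hT
        exfalso
        obtain ⟨a, ha, b, hb, hab⟩ := hT
        rw [Set.mem_singleton_iff.1 ha] at hab
        exact (hMs b (hS.sub j h' hb)).2 hab
      · intro hF; exact absurd hF (by decide)

end Pool.Agent.MPd439b2.PW
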