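import Pool.Agent.Lib.MP_d439b2_co.PW.Tree
import Pool.Agent.Lib.MP_d439b2_co.HC.SpecS
import Pool.Agent.Lib.MP_d439b2_co.W.SpecE

/-!
# MP_d439b2_co, PW: the base graph `paw + P_1`, statements (helper90, note 2702)

Every `S_...` is a statement to be proved in its own file; the docstring contains the complete proof.
`x ~ y` means `G.Adj x y`.  The pattern theorem `pat` is already proved (`PW/Tree.lean`, certificates).
Useful: `Conn.union`, `Conn.insert`, `Conn.pair`, `Conn.eq_of_nb`, `exists_comp`, `exists_comp_of_not_conn`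
(Basic), `mixed_conn`, `Prm.conn`, `LT.exp`, `LT.insert`, `LT.mono'`, `rw_encard_le` (BU/Defs), `S_B5`
(rotation of an induced cycle, proved: `BU/B5.lean`).
-/

set_option autoImplicit false

namespace Pool.Agent.MPd439b2.PW

open Pool.Agent.MPd439b2
open Pool.Agent.MPd439b2.BU
open Pool.Agent.MPd439b2.HC

/-! ## connected graphs without the paw -/

/-- **Miss** (25 lines).  If `w` misses `K` then `G[K]` has no paw.

Proof. If `SP G K 4 S rP` then `SP G X 5 S' rP` with `S' i = if i < 4 then S i else {w}` (`rP 4 j = false`). -/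
def S_Miss : Prop := ∀ (V : Type) (G : SimpleGraph V) (X K : Set V) (w : V), PF G X → w ∈ X → K ⊆ X →
  Ms G w K → QF G K

/-- **Tri** (100 lines).  A connected paw-free graph with a triangle is complete multipartite.

Proof. Only the paw with vertices is used: (Q) there are no `a, b, c, d ∈ K` with `a ~ b`, `a ~ c`, `b ~ c`, `d ~ a`, `¬ d ~ b`, `¬ d ~ c` (automatically distinct; branch sets
`{a}, {b}, {c}, {d}`).  Let `M ⊆ K` be a maximal set with `CMp G M` which contains a triangle `a b c` (the set `{a, b, c}` is one).  Suppose `M ≠ K`; `K` is connected: `z ∈ K \ M`, `z ~ m`,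
`m ∈ M`.  We show `CMp G (insert z M)`: contradiction.
(0) Every edge `x ~ y` of `M` is in a triangle of `M`: by `CMp` each of `x`, `y` is non-adjacent to (or equal to) at most one of `a, b, c`, so one of the three is adjacent to both.  In the same way every element of `M` has a
neighbour in `M`.
(1) The non-neighbours of `z` in `M` are pairwise non-adjacent: suppose `¬ z ~ x`, `¬ z ~ y`, `x ~ y` in `M`.  Let `x y t` be a triangle (0).  `z ~ t`: (Q) with the triangle `t, x, y` and `z`.  So `¬ z ~ t` for all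
such `t`.  `m` is adjacent to `x` or to `y` (otherwise `¬ x ~ y` by `CMp`), not to both; say `m ~ x`, `¬ m ~ y`.  `t ~ m` (otherwise `¬ t ~ y`).  Triangle `m, x, t`, `z ~ m` only: (Q).
(2) If `¬ z ~ x` and `x'` is in `M` with `¬ x ~ x'` then `¬ z ~ x'`: suppose `z ~ x'` (so `x ≠ x'`).  Take `t ∈ M` adjacent to `x'`; then `t ~ x` (`CMp`), `z ~ t` by (1).  Triangle `t, z, x'`, and `x ~ t` only: (Q).
(1), (2) give `CMp G (insert z M)` (case distinction which of the three vertices is `z`). -/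
def S_Tri : Prop := ∀ (V : Type) [Finite V] (G : SimpleGraph V) (K : Set V), Conn G K → QF G K →
  ¬ NoT G K → CMp G K

/-- **Hole** (130 lines; uses `S_B5` (1)).  A connected paw-free graph with an induced cycle of length at least `5` is this cycle.

Proof. Otherwise there is `z ∈ K`, not on the cycle, adjacent to a vertex of the cycle (`K` connected).
CASE 1: `z` is adjacent to all `p i`.  Triangle `z, p 0, p 1`, `p 3 ~ z` only (`5 ≤ n`): paw `{z}, {p 0}, {p 1}, {p 3}`.
Otherwise there is `i` with `z ~ p i`, `¬ z ~ p (i+1)` (cyclically); by rotation (`S_B5`) `z ~ p 0`, `¬ z ~ p 1`.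
CASE 2: `z ~ p 2`.  Paw: `{z, p 0, p 2}`, `{p 3}`, `{p 4, ..., p (n-1)}` and `{p 1}`.  (`p 1 ~ p 0`; `p 3 ~ p 2`; `p (n-1) ~ p 0`; `p 3 ~ p 4`; `p 1` is not adjacent to `p 3, .., p (n-1)`.)
CASE 3: `¬ z ~ p 2`, and `z ~ p j` for some `j ≥ 3`; take the largest such `j`.  Paw: `{p 0}`, `{z}`, `{p j, ..., p (n-1)}` and `{p 1}` (`p 1 ~ p 0`, `¬ p 1 ~ z`, `p 1` is not adjacent to `p j, ..`; `z ~ p j`, `p (n-1) ~ p 0`;
any `j ≥ 3` works).
CASE 4: `z` is adjacent to `p 0` only.  Paw: `{p 0}`, `{p 1}`, `{p 2, ..., p (n-1)}` and `{z}`.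
(The sets `{p j, ..., p l}`, `j ≤ l < n`, are connected: induction.) -/
def S_Hole : Prop := ∀ (V : Type) [Finite V] (G : SimpleGraph V) (K : Set V) (n : ℕ) (p : ℕ → V),
  Conn G K → QF G K → IC G K n p → 5 ≤ n → K = Vs n p

/-- **Sq** (90 lines).  A connected paw-free graph without triangle and with an induced `C_4` is complete multipartite (bipartite).

Proof. Let `M ⊆ K` be a maximal set which contains the `p i`, `i < 4`, with `CMp G M`.  (The four vertices are such a set.)  Suppose `z ∈ K \ M`, `z ~ m ∈ M`.  We show `CMp G (insert z M)`.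
(0) For `x ∈ M`: `x` is non-adjacent to `p 0` or to `p 1` (no triangle), so `x` is adjacent to `p 1, p 3` and not to `p 0, p 2`, or conversely (`CMp`, `p 0 ~ p 1`).
(1) Let `x ∈ M`, `¬ x ~ m`.  Then `z ~ x`: let `x ≠ m`; `b, b'` = `p 1, p 3` or `p 0, p 2`, adjacent to `m` and to `x`.  `¬ z ~ b`, `¬ z ~ b'` (no triangle with `m`).  If `¬ z ~ x`: paw `{m}, {b}, {b', x}`, `{z}`.
(2) Let `x ∈ M`, `x ~ m`: `¬ z ~ x` (no triangle).
So `z ~ x ↔ ¬ x ~ m` for `x ∈ M`, and `CMp G (insert z M)` follows. -/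
def S_Sq : Prop := ∀ (V : Type) [Finite V] (G : SimpleGraph V) (K : Set V) (p : ℕ → V), Conn G K →
  QF G K → NoT G K → IC G K 4 p → CMp G K

/-- **L4** (40 lines; uses `S_Miss`, `S_Tri`, `S_Hole`, `S_Sq`).  A connected set which is missed by a vertex and contains an induced `P_4` has no cycles or is a cycle of length at least `5`.

Proof. `QF G K` by `S_Miss`.  There is no `CMp` set which contains an induced `P_4` `q`: `¬ q 0 ~ q 3`, `¬ q 3 ~ q 1` give `¬ q 0 ~ q 1`.  So `S_Tri`, `S_Sq` (for `n = 4`) give the first part and `n ≠ 4`; `S_Hole`. -/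
def S_L4 : Prop := ∀ (V : Type) [Finite V] (G : SimpleGraph V) (X K : Set V) (w : V) (q : ℕ → V),
  PF G X → w ∈ X → K ⊆ X → Ms G w K → Conn G K → IP G K 4 q →
  NoT G K ∧ ∀ n p, 4 ≤ n → IC G K n p → 5 ≤ n ∧ K = Vs n p

/-! ## non-touching paths in prime graphs -/

/-- **LA** (50 lines; uses `S_Miss`, `S_Hole`).  At most one vertex misses a hole.

Proof. `R = {x ∈ X | Ms G x (Vs n p)}` is a module of `X`: let `y ∈ X \ R`, `x, x' ∈ R`, `y ~ x`.  `y` is not on the cycle (`x` misses it).  So `y` is adjacent to some `p i` (`y ∉ R`).  Suppose `¬ y ~ x'`: `x'` misses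
`K = insert y (Vs n p)` (`y ≠ x'` as `y ∉ R`), which is connected; `S_Miss`, `S_Hole`: `K = Vs n p`, contradiction.  So `y ~ x'`.  `Prm`: `R` is subsingleton or `R = X`, but `p 0 ∈ X \ R`. -/
def S_LA : Prop := ∀ (V : Type) [Finite V] (G : SimpleGraph V) (X : Set V) (n : ℕ) (p : ℕ → V),
  Prm G X → PF G X → IC G X n p → 5 ≤ n → ∀ x ∈ X, Ms G x (Vs n p) → ∀ y ∈ X, Ms G y (Vs n p) → x = y

/-- **LB** (90 lines; uses `S_LA`, `S_L4`).  A vertex is complete to all the paths or thin.

Proof. Suppose `z` is not complete: `¬ z ~ Q i j`.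
(1) For `k ≠ i`: `z` has at most one neighbour in `Q k`.  Let `z ~ Q k a`, `z ~ Q k b`, `a < b` (or `b < a`).  `K = {z} ∪ Vs 4 (Q k)` is connected, missed by `w = Q i j`, contains the `P_4` `Q k`.  By `S_L4` there is no triangle and no induced
`C_4`; all cases with another pair than `0, 3`: `b = a + 1`: triangle; `b = a + 2`: triangle if `z ~ Q k (a+1)`, otherwise induced `C_4` `z, Q k a, Q k (a+1), Q k (a+2)`.  So the only neighbours are `Q k 0`, `Q k 3`, and `C = (z, Q k 0, ..,
Q k 3)` is an induced `C_5`.  Let `l < n`, `l ≠ i, k` (`3 ≤ n`), and `m < 4`: `Q l m` misses `C`: it misses `Q k`; if `z ~ Q l m` then `K' = {z} ∪ Vs 4 (Q k) ∪ Vs 4 (Q l)` is connected, missed by `Q i j`, contains an induced `C_5` and has more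
elements: against `S_L4`.  So `Q l 0` and `Q l 1` miss `C`: against `S_LA`.
(2) Let `k ≠ i`.  By (1) `z` has a non-neighbour in `Q k`; (1) with `k` instead of `i` gives the claim for `Q i`. -/
def S_LB : Prop := ∀ (V : Type) [Finite V] (G : SimpleGraph V) (X : Set V) (n : ℕ) (Q : ℕ → ℕ → V)
  (z : V), Prm G X → PF G X → NT G X n Q → 3 ≤ n → z ∈ X → z ∉ Vn n Q → Fl G n Q z ∨ Th G n Q z

/-- **LC** (80 lines; uses `S_LB`, `S_Miss`, `S_Tri`).  No vertex is complete to all the paths.

Proof. `F = {z ∈ X | z ∉ Vn n Q ∧ Fl G n Q z}`.  Suppose `F` is nonempty.  CLAIM: `f ∈ F`, `z ∈ X \ F` implies `f ~ z`.  If `z ∈ Vn n Q` clear.  Otherwise `z` is thin (`S_LB`).  Suppose `¬ f ~ z`.  For `i = 0, 1`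
`z` has at most one neighbour in `Q i`, so there is `a_i ∈ {0, 2}`... with `¬ z ~ Q i a`, `¬ z ~ Q i (a + 1)`: if the neighbour is `Q i 0` or `Q i 1` take `a = 2`, otherwise `a = 0`.  `K = {f, Q 0 a, Q 0 (a+1), Q 1 b, Q 1 (b+1)}` is connected,
missed by `z`, has the triangle `f, Q 0 a, Q 0 (a+1)`; `S_Miss`, `S_Tri`: `CMp G K`.  But `¬ Q 0 a ~ Q 1 b`, `¬ Q 1 b ~ Q 0 (a+1)` and `Q 0 a ~ Q 0 (a+1)`: contradiction.
So `X \ F` is a module, not subsingleton (`Q 0 0`, `Q 0 1`), not `X`: contradiction to `Prm`. -/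
def S_LC : Prop := ∀ (V : Type) [Finite V] (G : SimpleGraph V) (X : Set V) (n : ℕ) (Q : ℕ → ℕ → V)
  (z : V), Prm G X → PF G X → NT G X n Q → 3 ≤ n → z ∈ X → z ∉ Vn n Q → Th G n Q z

/-- **LD0** (80 lines; uses `S_LC`, `S_L4`).  A connected set with a triangle or a `C_4` touches the paths.

Proof. Suppose not.  Let `R` be a maximal connected set with `C ⊆ R ⊆ X`, no vertex of which is in `Vn n Q` or adjacent to a vertex of `Vn n Q`.  `Conn G X` (`Prm.conn`; `X` has at least three elements), `R ≠ X` (`Q 0 0 ∉ R`): there are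
`z ∈ X \ R`, `r ∈ R`, `r ~ z`.  `z ∉ Vn n Q`.  `insert z R` is connected; by maximality `z ~ Q i j` for some `i < n`, `j < 4`.  `z` is thin (`S_LC`).  Let `k < n`, `k ≠ i`; `¬ z ~ Q k 0` or `¬ z ~ Q k 1`: let `w` be this vertex.  `w` misses
`K = insert z R ∪ Vs 4 (Q i)`, which is connected and contains an induced `P_4` and a triangle or an induced `C_4`: against `S_L4`. -/
def S_LD0 : Prop := ∀ (V : Type) [Finite V] (G : SimpleGraph V) (X C : Set V) (n : ℕ)
  (Q : ℕ → ℕ → V), Prm G X → PF G X → NT G X n Q → 3 ≤ n → C ⊆ X → Conn G C →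
  (¬ NoT G C ∨ ∃ p, IC G C 4 p) → ∃ c ∈ C, c ∈ Vn n Q ∨ ∃ v ∈ Vn n Q, G.Adj c v

/-- **Sub** (50 lines).  Three of seven paths avoid a set with at most four elements.

Proof. The sets `Vs 4 (Q i)`, `i < 7`, are pairwise disjoint, so at most four of them meet `C` (choose `c i ∈ C ∩ Vs 4 (Q i)`, injective).  So there are `σ 0 < σ 1 < σ 2 < 7` (a set of at least three numbers) whose
paths do not meet `C`; `Q' i = Q (σ i)`. -/
def S_Sub : Prop := ∀ (V : Type) [Finite V] (G : SimpleGraph V) (X C : Set V) (Q : ℕ → ℕ → V),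
  NT G X 7 Q → C.ncard ≤ 4 → ∃ Q', NT G X 3 Q' ∧ ∀ c ∈ C, c ∉ Vn 3 Q'

/-- **LD** (150 lines; uses `S_Sub`, `S_LC`, `S_LD0`, `S_L4`).  Prime graphs with seven non-touching paths have no triangles and no `C_4`.

Proof. TRIANGLE `a, b, c`: `S_Sub`; `a, b, c` are thin for three paths `Q i`.  For every `i < 3` there is `j < 4` such that `Q i j` misses `C = {a, b, c}` (each of `a, b, c` has at most one neighbour among the four).  If `C` touches `Q k`, `k ≠ i`,
then `C ∪ Vs 4 (Q k)` is connected, missed by `Q i j`: against `S_L4`.  So `C` touches no `Q k` (use `i = 0`, then `i = 1`): against `S_LD0`.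
`C_4` `p` (no triangles in `X`): `S_Sub` with `C = Vs 4 p`; the `p m` are thin.  (a) Suppose some `Q i j` misses `C`.  As before `C` touches no `Q k` for `k ≠ i` (`C ∪ Vs 4 (Q k)` contains the induced `C_4`).  Then `Q k 0` misses `C`, and so `C` does not touch
`Q i` either: against `S_LD0`.  (b) So all `Q i j` have a neighbour in `C`; since the four `p m` have at most one neighbour each in `Q i`, for every `i` there is a bijection `m ↦ f i m` of `{0,1,2,3}` with `p m ~ Q i j ↔ j = f i m`.  Let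
`w = Q 0 0`, `p m₀` its neighbour; by rotation (`m₀` arbitrary) there are `c = p m`, `c' = p m'` with `c ~ c'`, `m, m' ≠ m₀`; a third one `c''` = the remaining one; put `K = (C \ {p m₀}) ∪ Vs 4 (Q 1)`: connected, missed by `w`, contains the `P_4` `Q 1`; it has `7` elements.
The neighbours `Q 1 j`, `Q 1 j'` of `c`, `c'` are different; `c, Q 1 j, .., Q 1 j', c'` is an induced cycle with `|j - j'| + 3 ≤ 6` vertices, at least `4`: by `S_L4` it has at least five vertices and is equal to `K`: contradiction. -/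
def S_LD : Prop := ∀ (V : Type) [Finite V] (G : SimpleGraph V) (X : Set V) (Q : ℕ → ℕ → V),
  Prm G X → PF G X → NT G X 7 Q → NoT G X ∧ ∀ p, ¬ IC G X 4 p

/-! ## girth at least five -/

/-- **Leaf** (80 lines).  A nonempty graph without cycles has a vertex of degree at most one.

Proof. Let `p` be an induced path in `Y` with the maximal number `n ≥ 1` of vertices (`{v}` is one with `n = 1`; `n ≤ Y.ncard`).  Suppose `p 0` has two different neighbours `a, b ∈ Y`.  One of them, say `a`, is not on the path (the only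
neighbour of `p 0` on the path is `p 1`).  `a` has a neighbour `p i` with `1 ≤ i`: otherwise `a, p 0, .., p (n-1)` is a longer induced path.  Take the smallest such `i`: `a, p 0, ..., p i` is an induced cycle with `i + 2 ≥ 3` vertices. -/
def S_Leaf : Prop := ∀ (V : Type) [Finite V] (G : SimpleGraph V) (Y : Set V), Y.Nonempty → NoC G Y 3 →
  ∃ v ∈ Y, ∀ a ∈ Y, ∀ b ∈ Y, G.Adj v a → G.Adj v b → a = b

/-- every induced cycle of `Y` is a component of `Y` -/
def FC {V : Type} (G : SimpleGraph V) (Y : Set V) : Prop :=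
  ∀ n p, 3 ≤ n → IC G Y n p → ∀ y ∈ Y, ∀ i < n, G.Adj y (p i) → y ∈ Vs n p

/-- **LF** (90 lines; uses `S_Leaf`, `S_SplitMain`, `S_SPb` (HC/SpecS, proved in HC/S7.lean, HC/S8.lean), `S_R5`).  Layouts of disjoint unions of trees and cycles.

Proof. `S_SplitMain` with `k = 4`: let `C ⊆ Y` (`SR.cF`, `SR.FX`) be split-prime; show `RL0 G C 4 C`.  `FC` is inherited by subsets of `Y` as follows: if `IC G C n p`, `y ∈ C`, `y ~ p i` then `y ∈ Vs n p`.
If `C.ncard ≤ 3`: `LT.of_all`, at most `3` rows and `∅` (`rw_encard_le`).  Otherwise `Conn G C` (`S_SPb`).  If there is an induced cycle `p` with `n ≥ 3` vertices in `C`: `C = Vs n p` (`Conn.eq_of_nb`), `S_R5` gives `RL G C 3 C`, and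
`insert ∅` adds at most one row (`LT.mono`, `Set.encard_insert_le`).  (`S_R5`: `Vs n p = {x | ∃ i < n, x = p i}` and for `0 < i`, `i + 1 < n` the neighbours of `p i` in `C` are `p (i - 1)`, `p (i + 1)`.)  Otherwise `NoC G C 3`: `S_Leaf` gives `v ∈ C` with at most one neighbour;
`Conn G C` gives a neighbour `c ∈ C` of `v` (`C ≠ {v}`).  `Spl G C {v, c} (C \ {v, c})` with `A₁ = {c}`, `B₁ = {y ∈ C \ {v, c} | c ~ y}`; `C \ {v, c}` has at least two elements: contradiction. -/
def S_LF : Prop := ∀ (V : Type) [Finite V] (G : SimpleGraph V) (Y : Set V), FC G Y → RL0 G Y 16 Y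

/-- **Add** (90 lines).  Adding `m` vertices to a layout.

Proof. (1) `LT (fun A => (Rw G X A).encard ≤ k * 2 ^ m) (X \ Z)` by `LT.mono'`: for `A ⊆ X \ Z` the row of `a ∈ A` in `X` is the union of its row in `X \ Z` and of `N(a) ∩ Z` (`Z ∩ A = ∅`): `Rw G X A ⊆ image2 (∪) (Rw G (X \ Z) A) (𝒫 Z)`.
(2) For `X \ Z ⊆ A ⊆ X` the rows of `A` are subsets of `Z` (of `X \ A ⊆ Z`): at most `2 ^ m`.  Add the elements of `Z` one after the other (`LT.insert`, induction on a finite set `S ⊆ Z`: `LT .. ((X \ Z) ∪ S)`); `S = Z` gives `X`.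
(`1 ≤ k` makes `2 ^ m ≤ k * 2 ^ m`.) -/
def S_Add : Prop := ∀ (V : Type) [Finite V] (G : SimpleGraph V) (X Z : Set V) (k m : ℕ), 1 ≤ k → Z ⊆ X →
  Z.ncard ≤ m → RL G (X \ Z) k (X \ Z) → RL G X (k * 2 ^ m) X

/-- **LE** (110 lines; uses `S_LF`, `S_Add`, `S_Leaf`, `S_Miss`, `S_Hole`).  Width of the graphs of girth at least five.

Proof. (0) FACT: let `u ∈ X` have at most three neighbours in `X`.  `Z = {x ∈ X | x = u ∨ u ~ x}`, `Z.ncard ≤ 4`, `Y = X \ Z`.  `FC G Y`: let `IC G Y n p`, `3 ≤ n`; then `5 ≤ n` (`NoT`, no `C_4`; for `n = 3` the three vertices form a triangle).  Let `y ∈ Y`,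
`y ~ p i`: `K = insert y (Vs n p)` is connected and missed by `u`: `S_Miss`, `S_Hole`: `K = Vs n p`.  `S_LF` gives `RL0 G Y 16 Y`, so `RL G Y 16 Y` (`LT.mono`), `S_Add` with `m = 4`: `RL G X 256 X`.
(1) If all different vertices of `X` are adjacent then `X.ncard ≤ 2` (`NoT`): `RL.small`.  Otherwise let `w, y ∈ X`, `w ≠ y`, `¬ w ~ y`.  `N = {x ∈ X | x ≠ w ∧ ¬ w ~ x}`, `K` the component of `y` in `N` (`exists_comp`).  `w` misses `K`: `QF G K` (`S_Miss`).
There is `u ∈ K` with at most two neighbours in `K`: if `IC G K n p` with `3 ≤ n` then `5 ≤ n`, `K = Vs n p` (`S_Hole`), `u = p 1`; otherwise `NoC G K 3`, `S_Leaf`.  The neighbours of `u` in `X`: in `K`, or adjacent to `w` (`u ≠ w`, `¬ w ~ u`); there is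
at most one neighbour `a` of `u` with `w ~ a`: `a, b` would give a triangle `u a b` or an induced `C_4` `u a w b`.  So `u` has at most three neighbours: (0). -/
def S_LE : Prop := ∀ (V : Type) [Finite V] (G : SimpleGraph V) (X : Set V), PF G X → NoT G X →
  (∀ p, ¬ IC G X 4 p) → RL G X 256 X

/-! ## prime graphs without `P_4 + P_1` -/

/-- **Dia** (130 lines).  Prime graphs without `P_4 + P_1` and `paw + P_1` have no `K_2 + 2 K_1`.

Proof. Suppose `a ~ b`, `c`, `d` is an induced `K_2 + 2 K_1`.  Consider pairs `(A, M)` of subsets of `Y`: `Conn G A`, `A` is not subsingleton, `M` is nonempty and not connected, `A ∩ M = ∅`, no edges between `A` and `M`.  (`({a, b}, {c, d})` is one.)  Take one with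
`(A ∪ M).ncard` maximal.  CLAIM: every `z ∈ Y \ (A ∪ M)` is complete to `M`.  Then `M` is a module of `Y`, not subsingleton (a nonempty set which is not connected), not `Y`: contradiction to `Prm`.
PROOF OF THE CLAIM. Two facts for `z`: if `z` has a neighbour in `A` then (`mixed_conn`) either (i) there are `a ~ a'` in `A`, `z ~ a'`, `¬ z ~ a`, or (ii) `z` is complete to `A`; take an edge `a ~ a'` of `A`.  In both cases: (*) there are no `x, y ∈ M`, `x ≠ y`, `¬ x ~ y`, `z ~ x`,
`¬ z ~ y`: (i) the induced `P_4` `x z a' a` is missed by `y` (`NoG`); (ii) the triangle `z a a'`, `x ~ z` only, `y` is isolated: `paw + P_1` (branch sets `{z}, {a}, {a'}, {x}, {y}`).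
Suppose `¬ z ~ m`, `m ∈ M`.  `C` = component of `m` in `M` (`exists_comp`), `C ≠ M` since `M` is not connected; `N' = M \ C` is nonempty, no edges between `C` and `N'`.
CASE 1: `z` has a neighbour in `A`.  By (*) with `y = m`: `z` has no neighbours in `N'`.  By (*) with `y ∈ N'`: `z` has no neighbours in `C`.  So `(insert z A, M)` is a larger pair.
CASE 2: `z` has no neighbour in `A`.  `M' = insert z M` is disjoint from `A`, without edges to `A`.  If `M'` is not connected: `(A, M')` is larger.  So `M'` is connected.  `z` has a neighbour `y'' ∈ N'` (otherwise `C ∪ {z}` or .. : the set `N'` has no edges to the rest of `M'`)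
and a neighbour in `C` (the set `C` has no edges to the rest of `M'` otherwise).  `C` is connected, `¬ z ~ m`: `b ~ b'` in `C`, `z ~ b'`, `¬ z ~ b`.  The `P_4` `y'' z b' b` is missed by every vertex of `A`: against `NoG`. -/
def S_Dia : Prop := ∀ (V : Type) [Finite V] (G : SimpleGraph V) (Y : Set V), Prm G Y → PF G Y →
  NoG G Y → NoK G Y

/-! ## assembly -/

/-- **Fam** (80 lines).  Many disjoint `P_4 + P_1`'s or a small hitting set.

Proof. Induction on `M`.  `M = 0`: the first case is trivial.  Step: let `Blk G X M B` (in the other case the set `Z` works again).  `Z = {x | ∃ i < M, ∃ a < 5, x = B i a}`, `Z.ncard ≤ 5 * M`.  If `NoG G (X \ Z)`: second case.  Otherwise there is an induced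
path `q` and `w ∈ X \ Z` with `Ms G w (Vs 4 q)`: `B' i = B i` for `i < M`, `B' M 0 = w`, `B' M a = q (a - 1)` for `1 ≤ a`.  (`ins a b`: for `a, b < 5` this is `1 ≤ a`, `1 ≤ b` and `a + 1 = b` or `b + 1 = a`: by `decide`.) -/
def S_Fam : Prop := ∀ (V : Type) [Finite V] (G : SimpleGraph V) (X : Set V) (M : ℕ),
  (∃ B, Blk G X M B) ∨ ∃ Z ⊆ X, Z.ncard ≤ 5 * M ∧ NoG G (X \ Z)

/-- **Hm** (50 lines; uses `W.S_RamC` (proved: W/RamC.lean)).  Homogeneous subsequences.

Proof. `κ = Fin 5 → Fin 5 → Bool`, `M` from `S_RamC` for `κ`, `N`; `χ i j a b = decide (G.Adj (B i a) (B j b))` (classical).  `s`, `c` from `S_RamC`; `B' i = B (s i)`, `R a b = c a b` for `a, b < 5`, `false` otherwise.  `s` is injective on `{i < N}`. -/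
def S_Hm : Prop := ∀ N : ℕ, ∃ M : ℕ, ∀ (V : Type) (G : SimpleGraph V) (X : Set V) (B : ℕ → ℕ → V),
  Blk G X M B → ∃ B' R, Hom G X N B' R

/-- **Res** (60 lines; uses `pat` of PW/Tree.lean).  The two results.

Proof. `8 ≤ N`, so `Hom G X 4 B R`; `pat`.  `NTR R`: `Q i j = B i (j + 1)`.  (`IP`: `ins (a + 1) (b + 1) = true ↔ a + 1 = b ∨ b + 1 = a` for `a, b < 4`, by `decide`; for `i < k` use `out`, for `k < i` `out` and `G.adj_comm`.)
`JJR R`: `p = B (N - 1) 1`, `q = B (N - 1) 2`, `r = B (N - 1) 0`, `x i = B i 0`, `y i = B i 1` for `i < T ≤ N - 1`. -/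
def S_Res : Prop := ∀ (V : Type) (G : SimpleGraph V) (X : Set V) (N T : ℕ) (B : ℕ → ℕ → V)
  (R : ℕ → ℕ → Bool), PF G X → Hom G X N B R → 8 ≤ N → T + 1 ≤ N → (∃ Q, NT G X 7 Q) ∨ PatJ G X T

/-- **Theorem PW** (60 lines; uses `S_Fam`, `S_Hm`, `S_Res`, `S_LD`, `S_LE`, `S_Dia`, `S_Add`, `BU.S_R2` (proved: BU/R1.lean, BU/R2.lean)).

Proof. `N = max 8 (T + 1)`, `M` from `S_Hm`, `K = max 256 ((k + 1) * 2 ^ (5 * M))`.  By `S_R2` it is enough that `RL G Y K Y` for prime `Y ⊆ X` (the three hypotheses are inherited by subsets).  `S_Fam` for `Y`.  First case: `S_Hm`, `S_Res`: `PatJ G Y T` is excluded; `NT G Y 7 Q`: `S_LD`, `S_LE`: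
`RL G Y 256 Y`.  Second case: `RL G (Y \ Z) (k + 1) (Y \ Z)`: by `S_R2` it is enough for prime `W ⊆ Y \ Z`: `NoG G W`, `S_Dia`, hypothesis, `RL.mono`.  `S_Add`. -/
def S_PW : Prop := ∀ T k : ℕ, ∃ K : ℕ, ∀ (V : Type) [Finite V] (G : SimpleGraph V) (X : Set V), PF G X →
  ¬ PatJ G X T → (∀ Y ⊆ X, NoK G Y → RL G Y k Y) → RL G X K X

end Pool.Agent.MPd439b2.PW
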