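import Pool.Agent.Lib.MP_d439b2_co.PW.Defs

/-!
# MP_d439b2_co, PW: homogeneous patterns of `P_4 + P_1`, a decision tree with certificates
-/

set_option autoImplicit false

namespace Pool.Agent.MPd439b2.PW

open Pool.Agent.MPd439b2
open Pool.Agent.MPd439b2.BU
open Pool.Agent.MPd439b2.HC

/-- decision trees: `node b F T` asks for the bit `b = 5 * (earlier type) + later type` of the relation,
`cert` gives the branch sets of a `paw + P_1`, `nt` and `jj` are the two possible results; the vertex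
`5 * i + a` is the vertex of type `a` in the block `i` -/
inductive DT : Type
  | node (b : ℕ) (F T : DT) : DT
  | cert (L : List (List ℕ)) : DT
  | nt : DT
  | jj : DT

/-- the value of the relation at the pair `x, y`, as far as it is known -/
def kn (K : ℕ → Option Bool) (x y : ℕ) : Option Bool :=
  if x / 5 = y / 5 then some (ins (x % 5) (y % 5))
  else if x / 5 < y / 5 then K (5 * (x % 5) + y % 5) else K (5 * (y % 5) + x % 5)

/-- known to be adjacent -/
def kt (K : ℕ → Option Bool) (x y : ℕ) : Bool := kn K x y == some true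

/-- known to be non-adjacent -/
def kf (K : ℕ → Option Bool) (x y : ℕ) : Bool := kn K x y == some false

/-- known to be connected -/
def connK (K : ℕ → Option Bool) : List ℕ → Bool
  | [] => false
  | i :: l => l.isEmpty || (l.any (fun j => kt K i j) && connK K l)

/-- the lists are known to touch (`b = true`) or not to touch (`b = false`) -/
def tchK (K : ℕ → Option Bool) (l m : List ℕ) (b : Bool) : Bool :=
  bif b then l.any fun i => m.any fun j => kt K i j else l.all fun i => m.all fun j => kf K i j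

/-- a valid certificate -/
def chkK (K : ℕ → Option Bool) (L : List (List ℕ)) : Bool :=
  Nat.beq L.length 5 && Eng.goodL 20 L.flatten && L.all (connK K) &&
    (List.range 5).all fun i => (List.range i).all fun j =>
      tchK K (L.getD i []) (L.getD j []) (rP i j)

/-- one more bit is known -/
def upd (K : ℕ → Option Bool) (b : ℕ) (v : Bool) (c : ℕ) : Option Bool :=
  if c = b then some v else K c

/-- the tree is correct -/
def chkT : DT → (ℕ → Option Bool) → Bool
  | .node b F T, K => (K b).isNone && chkT F (upd K b false) && chkT T (upd K b true)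
  | .cert L, K => chkK K L
  | .nt, K => [6, 7, 8, 9, 11, 12, 13, 14, 16, 17, 18, 19, 21, 22, 23, 24].all fun b =>
      K b == some false
  | .jj, K => [0, 1, 2, 5, 6, 7].all fun b => K b == some true

/-- the relation of the vertices of four blocks -/
def rR (R : ℕ → ℕ → Bool) (x y : ℕ) : Bool :=
  if x / 5 = y / 5 then ins (x % 5) (y % 5)
  else if x / 5 < y / 5 then R (x % 5) (y % 5) else R (y % 5) (x % 5)

/-- the known bits are correct -/
def Ext (K : ℕ → Option Bool) (R : ℕ → ℕ → Bool) : Prop :=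
  ∀ a < 5, ∀ b < 5, ∀ v, K (5 * a + b) = some v → R a b = v

theorem kn_ext {K : ℕ → Option Bool} {R : ℕ → ℕ → Bool} (h : Ext K R) {x y : ℕ} {v : Bool}
    (hv : kn K x y = some v) : rR R x y = v := by
  unfold kn at hv
  unfold rR
  split_ifs at hv ⊢ with h1 h2
  · exact Option.some.inj hv
  · exact h _ (Nat.mod_lt _ (by norm_num)) _ (Nat.mod_lt _ (by norm_num)) v hv
  · exact h _ (Nat.mod_lt _ (by norm_num)) _ (Nat.mod_lt _ (by norm_num)) v hv

theorem rel_symm (E : List (ℕ × ℕ)) (i j : ℕ) : rel E i j = rel E j i := by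
  unfold rel
  exact Bool.or_comm _ _

theorem rR_symm (R : ℕ → ℕ → Bool) (x y : ℕ) : rR R x y = rR R y x := by
  unfold rR
  by_cases h1 : x / 5 = y / 5
  · rw [if_pos h1, if_pos h1.symm]
    exact rel_symm _ _ _
  · rw [if_neg h1, if_neg (Ne.symm h1)]
    by_cases h2 : x / 5 < y / 5
    · rw [if_pos h2, if_neg (by omega)]
    · rw [if_neg h2, if_pos (by omega)]

theorem rs_rR (R : ℕ → ℕ → Bool) {x y : ℕ} (h : x ≠ y) : Eng.rs (rR R) x y = rR R x y := by
  unfold Eng.rs
  rcases lt_or_gt_of_ne h with h1 | h1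
  · have h2 : Nat.blt y x = false := by
      rw [Bool.eq_false_iff]
      intro h3
      rw [Nat.blt_eq] at h3
      omega
    have h3 : Nat.blt x y = true := by rw [Nat.blt_eq]; exact h1
    rw [h2, h3, cond_false, cond_true, rR_symm]
  · have h3 : Nat.blt y x = true := by rw [Nat.blt_eq]; exact h1
    rw [h3, cond_true]

theorem connK_ext {K : ℕ → Option Bool} {R : ℕ → ℕ → Bool} (h : Ext K R) {l : List ℕ}
    (hd : l.Nodup) (hl : connK K l = true) : Eng.connL (rR R) l = true := by
  induction l with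
  | nil => exact hl
  | cons i l ih =>
    rw [List.nodup_cons] at hd
    simp only [connK, Bool.or_eq_true, Bool.and_eq_true, List.any_eq_true] at hl
    simp only [Eng.connL, Bool.or_eq_true, Bool.and_eq_true, List.any_eq_true]
    rcases hl with hl | ⟨⟨j, hj, hk⟩, hl⟩
    · exact Or.inl hl
    · refine Or.inr ⟨⟨j, hj, ?_⟩, ih hd.2 hl⟩
      have hij : i ≠ j := fun e => hd.1 (e ▸ hj)
      rw [rs_rR R hij]
      exact kn_ext h (beq_iff_eq.1 hk)

theorem tchK_ext {K : ℕ → Option Bool} {R : ℕ → ℕ → Bool} (h : Ext K R) {l m : List ℕ} {b : Bool}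
    (hd : ∀ i ∈ l, i ∉ m) (hl : tchK K l m b = true) : Eng.tchL (rR R) l m = b := by
  cases b with
  | true =>
    simp only [tchK, cond_true, List.any_eq_true] at hl
    obtain ⟨i, hi, j, hj, hk⟩ := hl
    rw [Eng.tchL_iff]
    refine ⟨i, hi, j, hj, ?_⟩
    have hij : i ≠ j := fun e => hd i hi (e ▸ hj)
    rw [rs_rR R hij]
    exact kn_ext h (beq_iff_eq.1 hk)
  | false =>
    simp only [tchK, cond_false, List.all_eq_true] at hl
    rw [Bool.eq_false_iff]
    intro h'
    obtain ⟨i, hi, j, hj, hk⟩ := Eng.tchL_iff.1 h'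
    have hij : i ≠ j := fun e => hd i hi (e ▸ hj)
    rw [rs_rR R hij, kn_ext h (beq_iff_eq.1 (hl i hi j hj))] at hk
    exact Bool.false_ne_true hk

theorem chkK_ext {K : ℕ → Option Bool} {R : ℕ → ℕ → Bool} (h : Ext K R) {L : List (List ℕ)}
    (hL : chkK K L = true) : chkG 20 5 (rR R) rP L = true := by
  simp only [chkK, Bool.and_eq_true, List.all_eq_true, List.mem_range] at hL
  obtain ⟨⟨⟨h1, h2⟩, h3⟩, h4⟩ := hL
  have h1' : L.length = 5 := Nat.eq_of_beq_eq_true h1
  obtain ⟨-, hd⟩ := Eng.goodL_iff h2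
  simp only [chkG, Bool.and_eq_true, List.all_eq_true, List.mem_range, beq_iff_eq]
  refine ⟨⟨⟨h1, h2⟩, fun l hl => connK_ext h ?_ (h3 l hl)⟩, fun i hi j hj => ?_⟩
  · rw [List.nodup_flatten] at hd
    exact hd.1 l hl
  · exact tchK_ext h (flat_dis hd (by omega) (by omega) (by omega)) (h4 i hi j hj)

/-- the results of the pattern analysis -/
def NTR (R : ℕ → ℕ → Bool) : Prop :=
  ∀ a, 1 ≤ a → a < 5 → ∀ b, 1 ≤ b → b < 5 → R a b = false

/-- the second result -/
def JJR (R : ℕ → ℕ → Bool) : Prop :=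
  R 0 0 = true ∧ R 0 1 = true ∧ R 0 2 = true ∧ R 1 0 = true ∧ R 1 1 = true ∧ R 1 2 = true

theorem chkT_ext {R : ℕ → ℕ → Bool} (d : DT) : ∀ (K : ℕ → Option Bool), Ext K R →
    chkT d K = true → (∃ L, chkG 20 5 (rR R) rP L = true) ∨ NTR R ∨ JJR R := by
  induction d with
  | node b F T ihF ihT =>
    intro K h hc
    simp only [chkT, Bool.and_eq_true] at hc
    obtain ⟨⟨-, h2⟩, h3⟩ := hc
    by_cases hb : ∃ a < 5, ∃ c < 5, b = 5 * a + c ∧ R a c = true
    · obtain ⟨a, ha, c, hc', hb, hr⟩ := hb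
      refine ihT _ (fun a' ha' c' hc'' v hv => ?_) h3
      unfold upd at hv
      split_ifs at hv with h5
      · have h6 : a' = a ∧ c' = c := by omega
        rw [h6.1, h6.2, hr]
        exact Option.some.inj hv
      · exact h a' ha' c' hc'' v hv
    · refine ihF _ (fun a' ha' c' hc'' v hv => ?_) h2
      unfold upd at hv
      split_ifs at hv with h5
      · rw [← Option.some.inj hv, Bool.eq_false_iff]
        intro h7
        exact hb ⟨a', ha', c', hc'', h5.symm, h7⟩
      · exact h a' ha' c' hc'' v hv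
  | cert L =>
    intro K h hc
    exact Or.inl ⟨L, chkK_ext h hc⟩
  | nt =>
    intro K h hc
    refine Or.inr (Or.inl fun a ha ha' b hb hb' => h a ha' b hb' false ?_)
    simp only [chkT, List.all_eq_true, beq_iff_eq] at hc
    apply hc
    interval_cases a <;> interval_cases b <;> simp
  | jj =>
    intro K h hc
    simp only [chkT, List.all_eq_true, beq_iff_eq] at hc
    exact Or.inr (Or.inr ⟨h 0 (by norm_num) 0 (by norm_num) true (hc _ (by simp)),
      h 0 (by norm_num) 1 (by norm_num) true (hc _ (by simp)),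
      h 0 (by norm_num) 2 (by norm_num) true (hc _ (by simp)),
      h 1 (by norm_num) 0 (by norm_num) true (hc _ (by simp)),
      h 1 (by norm_num) 1 (by norm_num) true (hc _ (by simp)),
      h 1 (by norm_num) 2 (by norm_num) true (hc _ (by simp))⟩)

/-- the tree (found by a program) -/
def tree : DT :=
  .node 0
  (.node 1
  (.node 5
  (.node 2
  (.node 10
  (.node 3
  (.node 8
  (.node 6
  (.node 15
  (.node 16
  (.node 18
  (.node 4
  (.node 9
  (.node 14
  (.node 7
  (.node 11
  (.node 12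
  (.node 13
  (.node 17
  (.node 19
  (.node 20
  (.node 21
  (.node 22
  (.node 23
  (.node 24
  (.nt)
  (.cert [[4, 3, 2], [9], [14], [1], [0]]))
  (.cert [[4, 3], [9, 8], [13], [2], [0]]))
  (.cert [[4, 3], [12, 9], [17], [2], [0]]))
  (.cert [[4, 3], [11, 9], [16], [2], [0]]))
  (.cert [[4, 3], [10, 9], [15], [2], [0]]))
  (.cert [[3, 2], [9, 8], [14], [1], [0]]))
  (.cert [[3, 2], [8, 7], [12], [1], [0]]))
  (.cert [[2], [8, 7], [13], [1], [0]]))
  (.cert [[2], [7], [12], [1], [0]]))
  (.cert [[2], [7, 6], [11], [1], [0]]))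
  (.cert [[13, 12], [7, 1], [6], [14], [0]]))
  (.cert [[7, 14, 2], [8], [9], [1], [0]]))
  (.cert [[19], [14, 1], [6], [11], [0]]))
  (.node 9
  (.cert [[19], [14, 0], [5], [10], [1]])
  (.node 14
  (.cert [[19], [14, 0], [5], [10], [2]])
  (.cert [[9], [1], [2], [0], [5]]))))
  (.cert [[3, 2], [8], [13], [1], [0]]))
  (.cert [[3, 2], [11, 8], [16], [1], [0]]))
  (.cert [[3, 2], [10, 8], [15], [1], [0]]))
  (.cert [[12, 11], [1], [6], [13], [0]]))
  (.cert [[13, 8, 1], [6], [7], [9], [5]]))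
  (.node 4
  (.node 6
  (.node 7
  (.node 8
  (.cert [[18], [13, 0], [5], [10], [1]])
  (.node 13
  (.cert [[18], [13, 0], [5], [10], [2]])
  (.cert [[8], [1], [2], [0], [5]])))
  (.cert [[8, 7], [12, 1], [6], [0], [5]]))
  (.cert [[8, 7, 6], [1], [11], [0], [5]]))
  (.cert [[8, 7], [0], [9], [6], [5]])))
  (.cert [[2], [10, 7], [15], [5], [0]]))
  (.node 3
  (.node 4
  (.node 6
  (.node 7
  (.cert [[7, 0], [12, 5], [17], [6], [1]])
  (.node 8
  (.node 9
  (.node 10
  (.cert [[12], [7, 0], [1], [5], [10]])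
  (.node 11
  (.cert [[7], [2, 1], [10], [0], [11]])
  (.node 13
  (.cert [[7], [2, 1], [6], [0], [13]])
  (.node 14
  (.cert [[7], [2, 1], [6], [0], [9]])
  (.cert [[2], [8], [9], [1], [0]])))))
  (.cert [[19], [14, 1], [6], [11], [0]]))
  (.cert [[18], [13, 1], [6], [11], [0]])))
  (.cert [[7, 6], [1], [11], [0], [5]]))
  (.cert [[7], [9, 0], [8], [6], [5]]))
  (.cert [[7], [0], [8], [6], [5]])))
  (.cert [[1], [10, 6], [15], [5], [0]]))
  (.node 3
  (.node 2
  (.node 4
  (.node 5
  (.cert [[16], [11, 0], [5], [10], [15]])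
  (.node 7
  (.cert [[6], [10, 1], [15], [0], [17]])
  (.node 8
  (.cert [[6], [10, 1], [15], [0], [18]])
  (.cert [[1], [7], [8], [5], [0]]))))
  (.cert [[14, 11, 5], [12], [13], [0], [10]]))
  (.cert [[7], [0], [6], [8], [5]]))
  (.cert [[8, 0], [6], [7], [9], [5]])))
  (.node 1
  (.node 2
  (.node 3
  (.node 4
  (.node 8
  (.node 5
  (.node 6
  (.node 9
  (.node 14
  (.node 7
  (.node 10
  (.node 11
  (.node 12
  (.node 13
  (.node 15
  (.node 16
  (.node 17
  (.node 18
  (.node 19
  (.node 20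
  (.node 21
  (.node 22
  (.node 23
  (.node 24
  (.nt)
  (.cert [[4, 3, 2], [9], [14], [1], [0]]))
  (.cert [[4, 3], [9, 8], [13], [2], [0]]))
  (.cert [[4, 3], [12, 9], [17], [2], [0]]))
  (.cert [[4, 3], [11, 9], [16], [2], [0]]))
  (.cert [[4], [5], [10], [3], [1]]))
  (.cert [[3, 2], [9, 8], [14], [1], [0]]))
  (.cert [[3, 2], [8], [13], [1], [0]]))
  (.cert [[3, 2], [8, 7], [12], [1], [0]]))
  (.cert [[3, 2], [11, 8], [16], [1], [0]]))
  (.cert [[8, 7], [10], [15], [6], [1]]))
  (.cert [[2], [8, 7], [13], [1], [0]]))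
  (.cert [[2], [7], [12], [1], [0]]))
  (.cert [[2], [7, 6], [11], [1], [0]]))
  (.cert [[7], [10], [15], [6], [1]]))
  (.cert [[13, 12], [7, 1], [6], [14], [0]]))
  (.cert [[7, 14, 2], [8], [9], [1], [0]]))
  (.cert [[19], [14, 1], [6], [11], [0]]))
  (.cert [[12, 11], [1], [6], [13], [0]]))
  (.cert [[10], [0], [5], [6], [13]]))
  (.cert [[13, 8, 1], [6], [7], [9], [0]]))
  (.cert [[14], [0], [5], [13], [11]]))
  (.node 4
  (.cert [[13], [0], [5], [14], [11]])
  (.cert [[0], [8], [9], [5], [6]])))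
  (.node 4
  (.cert [[12], [0], [5], [11], [14]])
  (.node 3
  (.cert [[14], [0], [5], [13], [11]])
  (.cert [[0], [8], [9], [5], [6]]))))
  (.node 2
  (.node 4
  (.cert [[11], [0], [5], [12], [14]])
  (.node 3
  (.node 5
  (.node 8
  (.cert [[0], [5], [10], [6], [13]])
  (.cert [[13, 8, 1], [6], [7], [9], [5]]))
  (.node 6
  (.node 7
  (.cert [[10], [0], [6], [1], [12]])
  (.node 17
  (.cert [[11], [0], [5], [17], [13]])
  (.cert [[7, 3], [1], [2], [4], [0]])))
  (.node 7
  (.node 12
  (.cert [[6], [5, 0], [1], [7], [12]])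
  (.cert [[2], [7], [12], [1], [0]]))
  (.node 17
  (.cert [[11], [0], [5], [17], [13]])
  (.cert [[7, 3], [1], [2], [4], [0]])))))
  (.node 5
  (.node 6
  (.cert [[0], [5], [10], [6], [1]])
  (.node 8
  (.cert [[12, 11], [1], [6], [13], [10]])
  (.cert [[8, 1], [6], [7], [9], [5]])))
  (.node 6
  (.node 7
  (.cert [[10], [0], [6], [1], [12]])
  (.node 9
  (.cert [[12], [10, 1], [6], [11], [14]])
  (.node 8
  (.cert [[14], [10, 1], [6], [13], [11]])
  (.cert [[1], [8], [9], [5], [6]]))))
  (.node 7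
  (.node 12
  (.cert [[6], [5, 0], [1], [7], [12]])
  (.cert [[2], [7], [12], [1], [0]]))
  (.node 9
  (.cert [[1], [6], [7], [5], [9]])
  (.node 17
  (.node 12
  (.cert [[13], [0], [5], [12], [17]])
  (.cert [[2], [1], [7], [3], [0]]))
  (.cert [[7, 3], [1], [2], [4], [0]]))))))))
  (.node 4
  (.cert [[0], [6], [7], [5], [9]])
  (.node 3
  (.node 5
  (.node 8
  (.cert [[0], [5], [10], [6], [13]])
  (.cert [[13, 8, 1], [6], [7], [9], [5]]))
  (.node 6
  (.node 7
  (.cert [[0], [11], [12], [6], [1]])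
  (.node 8
  (.cert [[5], [0], [11], [1], [13]])
  (.node 9
  (.cert [[13], [10, 1], [6], [14], [11]])
  (.cert [[1], [8], [9], [5], [6]]))))
  (.node 7
  (.node 9
  (.cert [[11], [1], [6], [12], [14]])
  (.node 12
  (.cert [[10], [1], [6], [17], [12]])
  (.node 17
  (.cert [[0], [5], [12], [6], [8]])
  (.node 22
  (.cert [[3], [7], [12], [4], [1]])
  (.cert [[7], [3], [4], [0], [1]])))))
  (.jj))))
  (.node 5
  (.node 6
  (.cert [[0], [5], [10], [6], [1]])
  (.node 8
  (.cert [[12, 11], [1], [6], [13], [10]])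
  (.cert [[8, 1], [6], [7], [9], [5]])))
  (.node 6
  (.node 7
  (.cert [[0], [11], [12], [6], [1]])
  (.node 9
  (.cert [[12], [10, 1], [6], [11], [14]])
  (.node 8
  (.cert [[14], [10, 1], [6], [13], [11]])
  (.cert [[1], [8], [9], [5], [6]]))))
  (.node 7
  (.node 9
  (.cert [[11], [1], [6], [12], [14]])
  (.node 12
  (.cert [[10], [1], [6], [17], [12]])
  (.node 22
  (.cert [[2], [7], [12], [1], [4]])
  (.node 17
  (.cert [[4], [7], [12], [3], [1]])
  (.cert [[7], [3], [4], [0], [1]])))))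
  (.jj))))))))

theorem chk_tree : chkT tree (fun _ => none) = true := by
  decide +kernel

theorem tree_res (R : ℕ → ℕ → Bool) :
    (∃ L, chkG 20 5 (rR R) rP L = true) ∨ NTR R ∨ JJR R :=
  chkT_ext tree (fun _ => none) (fun _ _ _ _ v hv => by simp at hv) chk_tree

/-- **the pattern theorem**: in four homogeneous blocks the paths do not touch or we have the pattern `J` -/
theorem pat {V : Type} {G : SimpleGraph V} {X : Set V} {B : ℕ → ℕ → V} {R : ℕ → ℕ → Bool}
    (hX : PF G X) (h : Hom G X 4 B R) : NTR R ∨ JJR R := by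
  rcases tree_res R with ⟨L, hL⟩ | h'
  · exfalso
    have hS : SP G X 20 (fun x => {B (x / 5) (x % 5)}) (rR R) := by
      have m5 : ∀ x : ℕ, x % 5 < 5 := fun x => Nat.mod_lt _ (by norm_num)
      refine ⟨fun i hi => ?_, fun i _ => Conn.singleton G _, fun i hi j hj => ?_, fun i hi j hj => ?_⟩
      · exact Set.singleton_subset_iff.2 (h.mem _ (by omega) _ (m5 i))
      · rw [Set.disjoint_singleton]
        intro e
        have := h.inj _ (by omega) _ (m5 i) _ (by omega) _ (m5 j) e
        omega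
      · rw [tch_single]
        unfold rR
        by_cases h1 : i / 5 = j / 5
        · rw [if_pos h1, h1]
          exact h.adj _ (by omega) _ (m5 i) _ (m5 j)
        · rw [if_neg h1, if_neg (by omega), G.adj_comm]
          exact h.out _ (by omega) _ (by omega) (by omega) _ (m5 j) _ (m5 i)
    exact hX _ (chkG_sp hS hL)
  · exact h'

end Pool.Agent.MPd439b2.PW
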